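import Pool.Agent.R211.HV.Gal

/-!
Bounds for the solutions of the Galerkin systems which do not depend on the number of the modes.
-/

set_option autoImplicit false

open Set Filter Topology MeasureTheory
open scoped ComplexConjugate ENNReal NNReal ContDiff

namespace Pool.Agent.R211.HV

open Pool.Agent.Y302.Trunc (K3)
open Pool.Agent.Y302.Tri
open Pool.Agent.R211.WN

/-- Solutions of the Galerkin system with the modes in `B`, on `[0, T]`. -/
structure GSol (B : Finset K3) (d : K3 → ℝ) (T : ℝ) (a0 : Fin 3 → K3 → ℂ)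
    (A : ℝ → Fin 3 → K3 → ℂ) : Prop where
  init : ∀ i, ∀ k ∈ B, A 0 i k = a0 i k
  sp : ∀ t, Sp B (A t)
  reg : ∀ t ∈ Icc 0 T, Reg (A t)
  der : ∀ t ∈ Icc 0 T, ∀ i, ∀ k ∈ B, HasDerivWithinAt (fun s => A s i k)
    (-(d k : ℂ) * A t i k - nlB B (A t) k i) (Icc 0 T) t

lemma N1_le_kn (k : K3) : N1 k ≤ 2 * kn k := by
  have h1 : N1 k ^ 2 ≤ 3 * kn k ^ 2 := by
    rw [kn_sq]
    unfold N1
    have h2 := sq_sum_le_card_mul_sum_sq (s := (Finset.univ : Finset (Fin 3)))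
      (f := fun j => |(k j : ℝ)|)
    simpa using h2
  have h3 : N1 k ^ 2 ≤ (2 * kn k) ^ 2 := by nlinarith [sq_nonneg (kn k)]
  exact (pow_le_pow_iff_left₀ (N1_nonneg k) (by have := kn_nonneg k; positivity) (by norm_num)).1 h3

lemma J_pow_le (s : ℕ) (k : K3) : (1 + N1 k) ^ (2 * s) ≤ 9 ^ s * (kn k ^ (2 * s) + 1) := by
  have h0 := kn_nonneg k
  by_cases hk : k = 0
  · have h1 : N1 k = 0 := by rw [hk]; simp [N1]
    rw [h1, add_zero, one_pow]
    have h2 : (1 : ℝ) ≤ 9 ^ s := one_le_pow₀ (by norm_num)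
    have h3 : 0 ≤ kn k ^ (2 * s) := by positivity
    nlinarith
  · have h1 := one_le_kn hk
    have h2 : 1 + N1 k ≤ 3 * kn k := by have := N1_le_kn k; linarith
    have h3 : (0 : ℝ) ≤ 1 + N1 k := by have := N1_nonneg k; linarith
    calc (1 + N1 k) ^ (2 * s) ≤ (3 * kn k) ^ (2 * s) := pow_le_pow_left₀ h3 h2 _
      _ = 9 ^ s * kn k ^ (2 * s) := by
          rw [mul_pow]
          congr 1
          rw [pow_mul]
          norm_num
      _ ≤ 9 ^ s * (kn k ^ (2 * s) + 1) := by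
          gcongr
          linarith

section apriori

variable {d : K3 → ℝ} {L : ℕ → ℝ} {a0 : Fin 3 → K3 → ℂ}

/-- The frequencies of a finite set are bounded. -/
lemma exists_J (B : Finset K3) : ∃ J : ℕ, ∀ k ∈ B, kn k ≤ 2 ^ J := by
  obtain ⟨n, hn⟩ := pow_unbounded_of_one_lt (∑ k ∈ B, kn k) (by norm_num : (1 : ℝ) < 2)
  exact ⟨n, fun k hk => (Finset.single_le_sum (fun k _ => kn_nonneg k) hk).trans hn.le⟩

/-- The evolution of a weighted sum. -/
lemma GSol.wder {B : Finset K3} {T : ℝ} {A : ℝ → Fin 3 → K3 → ℂ} (hA : GSol B d T a0 A)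
    (w : K3 → ℝ) {t : ℝ} (ht : t ∈ Icc 0 T) :
    HasDerivWithinAt (fun t => ∑ k ∈ B, w k * nv (A t) k ^ 2)
      (∑' k, w k * (-2 * d k * nv (A t) k ^ 2 + 2 * flx (A t) k)) (Icc 0 T) t := by
  have h1 : HasDerivWithinAt (fun t => ∑ k ∈ B, w k * nv (A t) k ^ 2)
      (∑ k ∈ B, w k * (1 * (-2 * d k * nv (A t) k ^ 2
      + 2 * flx (A t) k))) (Icc 0 T) t := by
    refine HasDerivWithinAt.fun_sum fun k hk => HasDerivWithinAt.const_mul _ ?_
    refine mode_deriv (hA.reg t ht) (hA.sp t) fun i => ?_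
    have h2 := hA.der t ht i k hk
    rw [Complex.ofReal_one, one_mul]
    exact h2
  refine h1.congr_deriv ?_
  simp only [one_mul]
  refine (tsum_eq_sum fun k hk => ?_).symm
  have h3 := (hA.sp t).nv_zero hk
  rw [h3, flx_zero (hA.reg t ht) h3]
  simp

lemma GSol.init_nv {B : Finset K3} {T : ℝ} {A : ℝ → Fin 3 → K3 → ℂ} (hA : GSol B d T a0 A)
    {k : K3} (hk : k ∈ B) : nv (A 0) k = nv a0 k := by
  unfold nv
  simp only [hA.init _ k hk]

/-- The uniform bound for the Galerkin solutions. -/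
theorem apriori3 (hd0 : ∀ k, 0 ≤ d k) (hL : Monotone L) {m : ℕ}
    (hL0 : ∀ j ≤ m + 1, L j = 0) (hd : ∀ i k, 2 ^ i ≤ kn k → L (i + 1) ≤ d k)
    (hr : Reg a0) (hsum : Summable fun k => kn k ^ (2 * 3) * nv a0 k ^ 2)
    (hE : 0 < ∑' k, nv a0 k ^ 2)
    (hm : ∑' k, kn k ^ (2 * 3) * nv a0 k ^ 2 ≤ 64 ^ m * ∑' k, nv a0 k ^ 2) {N : ℕ}
    (hthr : 65536000 * Real.sqrt (∑' k, nv a0 k ^ 2)
      < ∑ j ∈ Finset.range N, (L j - L (j - 1)) / b ^ j) :
    ∃ Z, ∀ (B : Finset K3) (T : ℝ) (A : ℝ → Fin 3 → K3 → ℂ), GSol B d T a0 A →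
      ∀ t ∈ Ico 0 T, ∑ k ∈ B, kn k ^ (2 * 3) * nv (A t) k ^ 2 ≤ Z ∧
        ∑ k ∈ B, nv (A t) k ^ 2 ≤ Z := by
  set E : ℝ := ∑' k, nv a0 k ^ 2 with hEd
  set zs : ℝ := ∑' k, kn k ^ (2 * 3) * nv a0 k ^ 2 with hzs
  have hsE := Real.sqrt_pos.2 hE
  have h00 : (0 : ℝ) ≤ L 0 := (hL0 0 (Nat.zero_le _)).ge
  have hn0 : 4 ^ 3 * zs / 4 ^ (3 * (m + 1)) ≤ E := by
    rw [div_le_iff₀ (by positivity)]
    have h1 : (4 : ℝ) ^ (3 * (m + 1)) = 64 * 64 ^ m := by
      rw [pow_mul, pow_succ]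
      norm_num
      ring
    rw [h1]
    calc (4 : ℝ) ^ 3 * zs ≤ 64 * (64 ^ m * E) := by
          have : (4 : ℝ) ^ 3 = 64 := by norm_num
          rw [this]
          gcongr
      _ = E * (64 * 64 ^ m) := by ring
  set κ : ℝ := 1 / (4000 * 16 ^ 3) / Real.sqrt E with hκ
  have hκp : 0 < κ := by positivity
  have hthr' : 4 < κ * ∑ j ∈ Finset.range N, (L j - L (j - 1)) / b ^ j := by
    have h1 : κ * (65536000 * Real.sqrt E) = 4 := by
      rw [hκ]
      field_simp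
      norm_num
    rw [← h1]
    exact mul_lt_mul_of_pos_left hthr hκp
  obtain ⟨P, n1, h01, hone, hmono, hle, hslow, hslow', hfast, hstop⟩ :=
    exists_P (s := 3) le_rfl hκp hL hL0 hthr'
  have H : PS 3 (m + 1) n1 κ L P := ⟨h01, hone, hmono, hle, hslow, hslow', hfast, hstop⟩
  refine ⟨4 ^ (3 * (n1 + 1)) * (4 * E), fun B T A hA t ht => ?_⟩
  obtain ⟨J, hJ⟩ := exists_J B
  have hsb : ∀ t, SB J (A t) := fun t k hk => (hA.sp t).nv_zero fun h =>
    absurd (hJ k h) (not_le.2 hk)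
  have htsum : ∀ t, ∑' k, ps P J k * nv (A t) k ^ 2 = ∑ k ∈ B, ps P J k * nv (A t) k ^ 2 := by
    intro t
    refine tsum_eq_sum fun k hk => ?_
    rw [(hA.sp t).nv_zero hk]
    simp
  have hpsp : ∀ k, 0 < ps P J k := fun k => lt_of_lt_of_le one_pos (ps_ge_one H.mono k)
  set Ψ : ℝ → ℝ := fun t => ∑ k ∈ B, ps P J k * nv (A t) k ^ 2 with hΨ
  have hΨ0 : ∀ t, 0 ≤ Ψ t := fun t => Finset.sum_nonneg fun k _ => by
    have := hpsp k
    positivity
  set Ψ' : ℝ → ℝ := fun t => ∑' k, ps P J k * (-2 * d k * nv (A t) k ^ 2 + 2 * flx (A t) k)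
    with hΨ'
  have hder : ∀ t ∈ Icc 0 T, HasDerivWithinAt Ψ (Ψ' t) (Icc 0 T) t := fun t ht =>
    hA.wder _ ht
  have hinit : Ψ 0 ≤ 2 * E := by
    have h1 : Ψ 0 = ∑ k ∈ B, ps P J k * nv a0 k ^ 2 := by
      simp only [hΨ]
      exact Finset.sum_congr rfl fun k hk => by rw [hA.init_nv hk]
    have h2 : ∀ k, ps P J k * nv a0 k ^ 2
        ≤ nv a0 k ^ 2 + 4 ^ 3 / 4 ^ (3 * (m + 1)) * (kn k ^ (2 * 3) * nv a0 k ^ 2) := by
      intro k
      have h3 := H.le_pow (J := J) k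
      calc ps P J k * nv a0 k ^ 2
          ≤ (1 + 4 ^ 3 * (kn k ^ (2 * 3) / 4 ^ (3 * (m + 1)))) * nv a0 k ^ 2 :=
            mul_le_mul_of_nonneg_right h3 (sq_nonneg _)
        _ = _ := by ring
    have hs1 : Summable fun k => nv a0 k ^ 2
        + 4 ^ 3 / 4 ^ (3 * (m + 1)) * (kn k ^ (2 * 3) * nv a0 k ^ 2) :=
      (summable_nv2 hr).add (hsum.mul_left _)
    have h4 : ∑ k ∈ B, ps P J k * nv a0 k ^ 2
        ≤ ∑' k, (nv a0 k ^ 2 + 4 ^ 3 / 4 ^ (3 * (m + 1)) * (kn k ^ (2 * 3) * nv a0 k ^ 2)) := by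
      refine (Finset.sum_le_sum fun k _ => h2 k).trans (hs1.sum_le_tsum B fun k _ => ?_)
      have := kn_nonneg k
      positivity
    rw [(summable_nv2 hr).tsum_add (hsum.mul_left _), tsum_mul_left] at h4
    rw [h1]
    have h6 : ∑' k, nv a0 k ^ 2 + 4 ^ 3 / 4 ^ (3 * (m + 1)) * ∑' k, kn k ^ (2 * 3) * nv a0 k ^ 2
        = E + 4 ^ 3 * zs / 4 ^ (3 * (m + 1)) := by ring
    rw [h6] at h4
    linarith
  have hboot : ∀ t ∈ Ico 0 T, Ψ t + E < 5 * E := by
    refine boot (y := fun t => Ψ t + E) (y' := Ψ') (β := fun _ => 0) (A := 0) (ε := 0)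
      ?_ ?_ ?_ ?_ ?_ le_rfl le_rfl ?_ ?_
    · have hcont : ContinuousOn Ψ (Icc 0 T) := fun t ht => (hder t ht).continuousWithinAt
      exact (hcont.mono Ico_subset_Icc_self).add continuousOn_const
    · intro t _
      have := hΨ0 t
      show 0 < Ψ t + E
      linarith
    · intro t ht
      exact ((hder t (Ioo_subset_Icc_self ht)).hasDerivAt (Icc_mem_nhds ht.1 ht.2)).add_const E
    · simp
    · intro t _
      exact le_rfl
    · intro t ht hle
      have hle' : Ψ t + E ≤ 5 * E := hle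
      have h1 : Ψ' t ≤ 0 := by
        refine H.rate le_rfl hL h00 hE hκ hd0 hd (hA.reg t (Ioo_subset_Icc_self ht)) (hsb t) ?_
        rw [htsum]
        linarith
      simpa using h1
    · show (Ψ 0 + E) * Real.exp (0 * _ + 0 * T) < 5 * E
      rw [zero_mul, zero_mul, add_zero, Real.exp_zero, mul_one]
      linarith
  have hbd := hboot t ht
  have h1 : ∑ k ∈ B, kn k ^ (2 * 3) * nv (A t) k ^ 2 ≤ 4 ^ (3 * (n1 + 1)) * (4 * E) := by
    calc ∑ k ∈ B, kn k ^ (2 * 3) * nv (A t) k ^ 2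
        ≤ ∑ k ∈ B, 4 ^ (3 * (n1 + 1)) * (ps P J k * nv (A t) k ^ 2) := by
          refine Finset.sum_le_sum fun k hk => ?_
          rw [← mul_assoc]
          exact mul_le_mul_of_nonneg_right (H.pow_le (by norm_num) (hJ k hk)) (sq_nonneg _)
      _ = 4 ^ (3 * (n1 + 1)) * Ψ t := by rw [← Finset.mul_sum]
      _ ≤ 4 ^ (3 * (n1 + 1)) * (4 * E) := by
          refine mul_le_mul_of_nonneg_left ?_ (by positivity)
          linarith
  refine ⟨h1, ?_⟩
  have h2 : (1 : ℝ) ≤ 4 ^ (3 * (n1 + 1)) := one_le_pow₀ (by norm_num)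
  calc ∑ k ∈ B, nv (A t) k ^ 2 ≤ ∑ k ∈ B, ps P J k * nv (A t) k ^ 2 := by
        refine Finset.sum_le_sum fun k _ => ?_
        have := ps_ge_one H.mono (J := J) k
        nlinarith [sq_nonneg (nv (A t) k)]
    _ ≤ 4 * E := by
        have : ∑ k ∈ B, ps P J k * nv (A t) k ^ 2 = Ψ t := rfl
        rw [this]
        linarith
    _ ≤ 4 ^ (3 * (n1 + 1)) * (4 * E) := by nlinarith

/-- The strain is bounded by the third derivatives. -/
lemma strA_le3 {a : Fin 3 → K3 → ℂ} (ha : Reg a) (hw : Summable fun k => kn k ^ (2 * 3) * nv a k ^ 2)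
    (r : ℝ) : strA a r ≤ Real.sqrt K4 * Real.sqrt (∑' k, kn k ^ (2 * 3) * nv a k ^ 2) := by
  have h1 : strA a r ≤ ∑' k, kn k * nv a k := strA_le ha r
  have h2 : ∀ k, kn k * nv a k = (kn k ^ 2)⁻¹ * (kn k ^ 3 * nv a k) := by
    intro k
    by_cases hk : kn k = 0
    · rw [hk]
      simp
    · field_simp
  have h3 : ∀ k : K3, ((kn k ^ 2)⁻¹) ^ 2 = (kn k ^ 4)⁻¹ := fun k => by
    rw [inv_pow, ← pow_mul]
  have h4 : ∀ k, (kn k ^ 3 * nv a k) ^ 2 = kn k ^ (2 * 3) * nv a k ^ 2 := fun k => by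
    rw [mul_pow, ← pow_mul]
  obtain ⟨-, h5⟩ := cs (f := fun k => (kn k ^ 2)⁻¹) (g := fun k => kn k ^ 3 * nv a k)
    (fun k => by positivity) (fun k => by
      have := kn_nonneg k
      have := nv_nonneg a k
      positivity)
    (by simpa only [h3] using summable_kn4) (by simpa only [h4] using hw)
  simp only [h3, h4] at h5
  rw [tsum_congr h2] at h1
  exact h1.trans h5

/-- The growth of the higher norms. -/
lemma GSol.high {B : Finset K3} {T : ℝ} {A : ℝ → Fin 3 → K3 → ℂ} (hd0 : ∀ k, 0 ≤ d k)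
    (hA : GSol B d T a0 A) {Z : ℝ}
    (hZ : ∀ t ∈ Ico 0 T, ∑ k ∈ B, kn k ^ (2 * 3) * nv (A t) k ^ 2 ≤ Z) {s : ℕ} (hs : 1 ≤ s)
    {t : ℝ} (ht : t ∈ Ico 0 T) : ∑ k ∈ B, kn k ^ (2 * s) * nv (A t) k ^ 2
      ≤ (∑ k ∈ B, kn k ^ (2 * s) * nv a0 k ^ 2)
        * Real.exp (12 * s * 2 ^ s * (Real.sqrt K4 * Real.sqrt Z) * t) := by
  set lam : ℝ := 12 * s * 2 ^ s * (Real.sqrt K4 * Real.sqrt Z) with hlam
  set y : ℝ → ℝ := fun t => ∑ k ∈ B, kn k ^ (2 * s) * nv (A t) k ^ 2 with hy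
  set y' : ℝ → ℝ := fun t => ∑' k, kn k ^ (2 * s) * (-2 * d k * nv (A t) k ^ 2 + 2 * flx (A t) k)
    with hy'
  have hsp : ∀ t, ∀ f : K3 → ℝ, (∀ k, nv (A t) k = 0 → f k = 0) → Summable f := fun t f hf =>
    summable_of_ne_finset_zero (s := B) fun k hk => hf k ((hA.sp t).nv_zero hk)
  have htsum : ∀ t (w : K3 → ℝ), ∑' k, w k * nv (A t) k ^ 2 = ∑ k ∈ B, w k * nv (A t) k ^ 2 := by
    intro t w
    refine tsum_eq_sum fun k hk => ?_
    rw [(hA.sp t).nv_zero hk]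
    simp
  have hrate : ∀ t ∈ Ico 0 T, y' t ≤ lam * y t := by
    intro t ht
    have htI := Ico_subset_Icc_self ht
    have hr := hA.reg t htI
    have hfl0 : ∀ k, nv (A t) k = 0 → flx (A t) k = 0 := fun k hk => flx_zero hr hk
    have h1 := tri_pow hr hs (hsp t _ fun k hk => by rw [hk, mul_zero])
      (hsp t _ fun k hk => by rw [hk]; simp)
    rw [tsum_w_flx hr (w := fun k => kn k ^ (2 * s))
      (hsp t _ fun k hk => by rw [hk, mul_zero])] at h1
    have h2 : ∑' k, strA (A t) (kn k) * (kn k ^ (2 * s) * nv (A t) k ^ 2)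
        ≤ (Real.sqrt K4 * Real.sqrt Z) * y t := by
      have h3 : ∀ k, strA (A t) (kn k) * (kn k ^ (2 * s) * nv (A t) k ^ 2)
          ≤ (Real.sqrt K4 * Real.sqrt Z) * (kn k ^ (2 * s) * nv (A t) k ^ 2) := by
        intro k
        refine mul_le_mul_of_nonneg_right ?_ (by have := kn_nonneg k; positivity)
        refine (strA_le3 hr (hsp t _ fun k hk => by rw [hk]; simp) _).trans ?_
        refine mul_le_mul_of_nonneg_left (Real.sqrt_le_sqrt ?_) (Real.sqrt_nonneg _)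
        rw [htsum]
        exact hZ t ht
      refine (Summable.tsum_le_tsum h3 (hsp t _ fun k hk => by rw [hk]; simp)
        (hsp t _ fun k hk => by rw [hk]; simp)).trans ?_
      rw [tsum_mul_left, htsum]
    have h4 : ∀ k, kn k ^ (2 * s) * (-2 * d k * nv (A t) k ^ 2 + 2 * flx (A t) k)
        = -2 * (d k * (kn k ^ (2 * s) * nv (A t) k ^ 2)) + 2 * (kn k ^ (2 * s) * flx (A t) k) :=
      fun k => by ring
    have hs1 : Summable fun k => d k * (kn k ^ (2 * s) * nv (A t) k ^ 2) :=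
      hsp t _ fun k hk => by rw [hk]; simp
    have hs2 : Summable fun k => kn k ^ (2 * s) * flx (A t) k :=
      hsp t _ fun k hk => by rw [hfl0 k hk]; simp
    have h5 : 0 ≤ ∑' k, d k * (kn k ^ (2 * s) * nv (A t) k ^ 2) := tsum_nonneg fun k => by
      have := kn_nonneg k
      have := hd0 k
      positivity
    simp only [hy']
    rw [tsum_congr h4, (hs1.mul_left _).tsum_add (hs2.mul_left _), tsum_mul_left, tsum_mul_left]
    have h6 := (le_abs_self _).trans h1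
    have h7 : (3 * (2 * s * 2 ^ s) : ℝ)
        * ∑' k, strA (A t) (kn k) * (kn k ^ (2 * s) * nv (A t) k ^ 2)
        ≤ (3 * (2 * s * 2 ^ s)) * ((Real.sqrt K4 * Real.sqrt Z) * y t) :=
      mul_le_mul_of_nonneg_left h2 (by positivity)
    have h8 : lam * y t = 2 * ((3 * (2 * s * 2 ^ s)) * ((Real.sqrt K4 * Real.sqrt Z) * y t)) := by
      rw [hlam]
      ring
    rw [h8]
    linarith
  have hder : ∀ t ∈ Ico 0 T, HasDerivWithinAt (fun t => y t * Real.exp (-(lam * t)))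
      ((y' t - lam * y t) * Real.exp (-(lam * t))) (Ico 0 T) t := by
    intro t ht
    have h1 : HasDerivWithinAt y (y' t) (Ico 0 T) t :=
      (hA.wder _ (Ico_subset_Icc_self ht)).mono Ico_subset_Icc_self
    have h2 : HasDerivAt (fun t : ℝ => Real.exp (-(lam * t))) (Real.exp (-(lam * t)) * -lam) t := by
      have h3 : HasDerivAt (fun t : ℝ => -(lam * t)) (-lam) t := by
        simpa using ((hasDerivAt_id t).const_mul lam).fun_neg
      exact h3.exp
    refine (h1.mul h2.hasDerivWithinAt).congr_deriv ?_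
    ring
  have hanti : AntitoneOn (fun t => y t * Real.exp (-(lam * t))) (Ico 0 T) := by
    refine antitoneOn_of_hasDerivWithinAt_nonpos (convex_Ico 0 T)
      (fun t ht => (hder t ht).continuousWithinAt)
      (f' := fun t => (y' t - lam * y t) * Real.exp (-(lam * t)))
      (fun t ht => (hder t (interior_subset ht)).mono interior_subset) fun t ht => ?_
    have := hrate t (interior_subset ht)
    exact mul_nonpos_of_nonpos_of_nonneg (by linarith) (Real.exp_pos _).le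
  have h1 := hanti ⟨le_rfl, ht.1.trans_lt ht.2⟩ ht ht.1
  simp only [mul_zero, neg_zero, Real.exp_zero, mul_one] at h1
  have h2 : y 0 = ∑ k ∈ B, kn k ^ (2 * s) * nv a0 k ^ 2 := by
    simp only [hy]
    exact Finset.sum_congr rfl fun k hk => by rw [hA.init_nv hk]
  rw [h2] at h1
  have h3 : y t = (y t * Real.exp (-(lam * t))) * Real.exp (lam * t) := by
    rw [mul_assoc, ← Real.exp_add, neg_add_cancel, Real.exp_zero, mul_one]
  have h4 : y t ≤ (∑ k ∈ B, kn k ^ (2 * s) * nv a0 k ^ 2) * Real.exp (lam * t) := by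
    rw [h3]
    exact mul_le_mul_of_nonneg_right h1 (Real.exp_pos _).le
  exact h4

end apriori

end Pool.Agent.R211.HV
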