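import Pool.Agent.R211.HV.Apri

/-!
Bounds for the nonlinear term, uniform estimates for the Galerkin solutions and their time
derivatives.
-/

set_option autoImplicit false

open Set Filter Topology MeasureTheory
open scoped ComplexConjugate ENNReal NNReal ContDiff

namespace Pool.Agent.R211.HV

open Pool.Agent.Y302.Trunc (K3)
open Pool.Agent.Y302.Tri
open Pool.Agent.R211.WN
open Pool.Agent.R211.SV (Pj abs_Pj_le sum_Pj Pj_neg abs_le_N1)

/-- The weight `1 + |k|₁`. -/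
noncomputable def wt (k : K3) : ℝ := 1 + N1 k

lemma one_le_wt (k : K3) : 1 ≤ wt k := one_le_J k

lemma wt_pos (k : K3) : 0 < wt k := lt_of_lt_of_le one_pos (one_le_wt k)

lemma wt_mul (k l : K3) : wt k ≤ wt l * wt (k - l) := by
  have h1 : N1 k ≤ N1 (k - l) + N1 l := SV.N1_sub_le k l
  have h2 := N1_nonneg l
  have h3 := N1_nonneg (k - l)
  unfold wt
  nlinarith [mul_nonneg h2 h3]

lemma wt_pow_mul (k l : K3) (p : ℕ) : wt k ^ p ≤ wt l ^ p * wt (k - l) ^ p := by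
  rw [← mul_pow]
  exact pow_le_pow_left₀ (wt_pos k).le (wt_mul k l) p

/-- `∑ (1 + |k|₁)⁻⁴` -/
noncomputable def W4 : ℝ := ∑' k : K3, (wt k ^ 4)⁻¹

lemma summable_wt4 : Summable fun k : K3 => (wt k ^ 4)⁻¹ := summable_N1_4

lemma W4_nonneg : 0 ≤ W4 := tsum_nonneg fun k => by have := wt_pos k; positivity

/-- The coefficients have the bound `C (1 + |k|₁)⁻ᵖ`. -/
def Dc (p : ℕ) (C : ℝ) (a : Fin 3 → K3 → ℂ) : Prop := ∀ i k, wt k ^ p * ‖a i k‖ ≤ C

lemma Dc.nonneg {p : ℕ} {C : ℝ} {a : Fin 3 → K3 → ℂ} (h : Dc p C a) : 0 ≤ C :=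
  (mul_nonneg (pow_nonneg (wt_pos 0).le _) (norm_nonneg _)).trans (h 0 0)

lemma Dc.mono {p q : ℕ} {C : ℝ} {a : Fin 3 → K3 → ℂ} (h : Dc p C a) (hq : q ≤ p) : Dc q C a :=
  fun i k => (mul_le_mul_of_nonneg_right (pow_le_pow_right₀ (one_le_wt k) hq)
    (norm_nonneg _)).trans (h i k)

lemma Dc.norm_le {p : ℕ} {C : ℝ} {a : Fin 3 → K3 → ℂ} (h : Dc p C a) (i : Fin 3) (k : K3) :
    ‖a i k‖ ≤ C * (wt k ^ p)⁻¹ := by
  have hp : 0 < wt k ^ p := pow_pos (wt_pos k) p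
  rw [← div_eq_mul_inv, le_div_iff₀ hp, mul_comm]
  exact h i k

/-- The bilinear term. -/
noncomputable def nl2 (B : Finset K3) (a c : Fin 3 → K3 → ℂ) (k : K3) (i : Fin 3) : ℂ :=
  ∑ j, ∑ m, (Complex.I * (k m : ℂ) * (Pj k i j : ℂ)) * ∑ l ∈ B, a j l * c m (k - l)

lemma nl2_self (B : Finset K3) (a : Fin 3 → K3 → ℂ) (k : K3) (i : Fin 3) :
    nl2 B a a k i = nlB B a k i := rfl

lemma norm_coef_le (k : K3) (i j m : Fin 3) :
    ‖Complex.I * (k m : ℂ) * (Pj k i j : ℂ)‖ ≤ wt k := by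
  rw [norm_mul, norm_mul, Complex.norm_I, one_mul, Complex.norm_intCast, Complex.norm_real,
    Real.norm_eq_abs]
  have h1 : |(k m : ℝ)| ≤ wt k := (abs_le_N1 k m).trans (by unfold wt; linarith)
  calc |(k m : ℝ)| * |Pj k i j| ≤ wt k * 1 :=
        mul_le_mul h1 (abs_Pj_le k i j) (abs_nonneg _) (wt_pos k).le
    _ = wt k := mul_one _

/-- The bound for the bilinear term. -/
lemma nl2_bound (B : Finset K3) {a c : Fin 3 → K3 → ℂ} {p : ℕ} {C C' : ℝ}
    (ha : Dc (p + 5) C a) (hc : Dc (p + 5) C' c) (k : K3) (i : Fin 3) :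
    wt k ^ p * ‖nl2 B a c k i‖ ≤ 9 * (C * C' * W4) := by
  have hC := ha.nonneg
  have hC' := hc.nonneg
  have hwk := wt_pos k
  have h1 : ∀ j m l, wt k ^ (p + 1) * ‖a j l * c m (k - l)‖ ≤ C * C' * (wt l ^ 4)⁻¹ := by
    intro j m l
    have hwl := wt_pos l
    have hwkl := wt_pos (k - l)
    have h2 : wt l ^ (p + 1) * ‖a j l‖ ≤ C * (wt l ^ 4)⁻¹ := by
      rw [← div_eq_mul_inv, le_div_iff₀ (by positivity)]
      calc wt l ^ (p + 1) * ‖a j l‖ * wt l ^ 4 = wt l ^ (p + 5) * ‖a j l‖ := by ring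
        _ ≤ C := ha j l
    have h3 : wt (k - l) ^ (p + 1) * ‖c m (k - l)‖ ≤ C' := (hc.mono (by omega)) m (k - l)
    rw [norm_mul]
    calc wt k ^ (p + 1) * (‖a j l‖ * ‖c m (k - l)‖)
        ≤ (wt l ^ (p + 1) * wt (k - l) ^ (p + 1)) * (‖a j l‖ * ‖c m (k - l)‖) :=
          mul_le_mul_of_nonneg_right (wt_pow_mul k l _) (by positivity)
      _ = (wt l ^ (p + 1) * ‖a j l‖) * (wt (k - l) ^ (p + 1) * ‖c m (k - l)‖) := by ring
      _ ≤ (C * (wt l ^ 4)⁻¹) * C' := mul_le_mul h2 h3 (by positivity) (by positivity)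
      _ = _ := by ring
  have h4 : ∀ j m, wt k ^ p * ‖(Complex.I * (k m : ℂ) * (Pj k i j : ℂ))
      * ∑ l ∈ B, a j l * c m (k - l)‖ ≤ C * C' * W4 := by
    intro j m
    rw [norm_mul]
    calc wt k ^ p * (‖Complex.I * (k m : ℂ) * (Pj k i j : ℂ)‖ * ‖∑ l ∈ B, a j l * c m (k - l)‖)
        ≤ wt k ^ p * (wt k * ∑ l ∈ B, ‖a j l * c m (k - l)‖) := by
          refine mul_le_mul_of_nonneg_left ?_ (by positivity)
          exact mul_le_mul (norm_coef_le k i j m) (norm_sum_le _ _) (norm_nonneg _) hwk.le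
      _ = ∑ l ∈ B, wt k ^ (p + 1) * ‖a j l * c m (k - l)‖ := by
          rw [← mul_assoc, ← pow_succ, Finset.mul_sum]
      _ ≤ ∑ l ∈ B, C * C' * (wt l ^ 4)⁻¹ := Finset.sum_le_sum fun l _ => h1 j m l
      _ = C * C' * ∑ l ∈ B, (wt l ^ 4)⁻¹ := by rw [Finset.mul_sum]
      _ ≤ C * C' * W4 := by
          refine mul_le_mul_of_nonneg_left ?_ (by positivity)
          exact summable_wt4.sum_le_tsum B fun l _ => by have := wt_pos l; positivity
  unfold nl2
  calc wt k ^ p * ‖∑ j, ∑ m, (Complex.I * (k m : ℂ) * (Pj k i j : ℂ))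
        * ∑ l ∈ B, a j l * c m (k - l)‖
      ≤ wt k ^ p * ∑ j, ∑ m, ‖(Complex.I * (k m : ℂ) * (Pj k i j : ℂ))
        * ∑ l ∈ B, a j l * c m (k - l)‖ := by
        refine mul_le_mul_of_nonneg_left ?_ (by positivity)
        exact (norm_sum_le _ _).trans (Finset.sum_le_sum fun j _ => norm_sum_le _ _)
    _ = ∑ j, ∑ m, wt k ^ p * ‖(Complex.I * (k m : ℂ) * (Pj k i j : ℂ))
        * ∑ l ∈ B, a j l * c m (k - l)‖ := by
        simp only [Finset.mul_sum]
    _ ≤ ∑ _j : Fin 3, ∑ _m : Fin 3, C * C' * W4 :=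
        Finset.sum_le_sum fun j _ => Finset.sum_le_sum fun m _ => h4 j m
    _ = 9 * (C * C' * W4) := by
        simp only [Finset.sum_const, Finset.card_univ, Fintype.card_fin, nsmul_eq_mul]
        ring

lemma nl2_sub (B : Finset K3) (a c : Fin 3 → K3 → ℂ) (k : K3) (i : Fin 3) :
    nlB B a k i - nlB B c k i = nl2 B a (fun i k => a i k - c i k) k i
      + nl2 B (fun i k => a i k - c i k) c k i := by
  unfold nlB nl2
  rw [← Finset.sum_sub_distrib, ← Finset.sum_add_distrib]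
  refine Finset.sum_congr rfl fun j _ => ?_
  rw [← Finset.sum_sub_distrib, ← Finset.sum_add_distrib]
  refine Finset.sum_congr rfl fun m _ => ?_
  rw [← mul_sub, ← mul_add, ← Finset.sum_sub_distrib, ← Finset.sum_add_distrib]
  congr 1
  refine Finset.sum_congr rfl fun l _ => ?_
  ring

section gal

variable {B : Finset K3} {d : K3 → ℝ} {T : ℝ} {a0 : Fin 3 → K3 → ℂ}
  {A : ℝ → Fin 3 → K3 → ℂ} {D : ℝ} {K : ℕ}

/-- The right hand side. -/
noncomputable def rhs (B : Finset K3) (d : K3 → ℝ) (a : Fin 3 → K3 → ℂ) (i : Fin 3) (k : K3) : ℂ :=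
  -(d k : ℂ) * a i k - nlB B a k i

lemma rhs_bound (hd : ∀ k, |d k| ≤ D * wt k ^ K) {a : Fin 3 → K3 → ℂ} {p : ℕ}
    {C : ℝ} (h : Dc (p + 5 + K) C a) : Dc p (D * C + 9 * (C * C * W4)) (rhs B d a) := by
  intro i k
  have hD : 0 ≤ D := by
    have h1 := (abs_nonneg _).trans (hd 0)
    have h2 : 0 < wt (0 : K3) ^ K := pow_pos (wt_pos 0) K
    exact nonneg_of_mul_nonneg_left h1 h2
  have hw := wt_pos k
  unfold rhs
  have h1 := nl2_bound B (h.mono (by omega : p + 5 ≤ p + 5 + K))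
    (h.mono (by omega : p + 5 ≤ p + 5 + K)) k i
  rw [nl2_self] at h1
  have h2 : wt k ^ p * ‖-(d k : ℂ) * a i k‖ ≤ D * C := by
    rw [norm_mul, norm_neg, Complex.norm_real, Real.norm_eq_abs]
    calc wt k ^ p * (|d k| * ‖a i k‖) ≤ wt k ^ p * ((D * wt k ^ K) * ‖a i k‖) := by
          have := hd k
          gcongr
      _ = D * (wt k ^ (p + K) * ‖a i k‖) := by rw [pow_add]; ring
      _ ≤ D * C := mul_le_mul_of_nonneg_left ((h.mono (by omega : p + K ≤ p + 5 + K)) i k) hD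
  calc wt k ^ p * ‖-(d k : ℂ) * a i k - nlB B a k i‖
      ≤ wt k ^ p * (‖-(d k : ℂ) * a i k‖ + ‖nlB B a k i‖) :=
        mul_le_mul_of_nonneg_left (norm_sub_le _ _) (by positivity)
    _ = wt k ^ p * ‖-(d k : ℂ) * a i k‖ + wt k ^ p * ‖nlB B a k i‖ := by ring
    _ ≤ _ := add_le_add h2 h1

lemma rhs_diff (hd : ∀ k, |d k| ≤ D * wt k ^ K) {a c : Fin 3 → K3 → ℂ} {p : ℕ} {C E : ℝ}
    (ha : Dc (p + 5 + K) C a) (hc : Dc (p + 5 + K) C c)
    (hac : Dc (p + 5 + K) E (fun i k => a i k - c i k)) :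
    Dc p (D * E + 18 * (C * E * W4)) (fun i k => rhs B d a i k - rhs B d c i k) := by
  intro i k
  have hD : 0 ≤ D := by
    have h1 := (abs_nonneg _).trans (hd 0)
    have h2 : 0 < wt (0 : K3) ^ K := pow_pos (wt_pos 0) K
    exact nonneg_of_mul_nonneg_left h1 h2
  have hw := wt_pos k
  have h1 := nl2_bound B (ha.mono (by omega : p + 5 ≤ p + 5 + K))
    (hac.mono (by omega : p + 5 ≤ p + 5 + K)) k i
  have h1' := nl2_bound B (hac.mono (by omega : p + 5 ≤ p + 5 + K))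
    (hc.mono (by omega : p + 5 ≤ p + 5 + K)) k i
  have h2 : wt k ^ p * ‖-(d k : ℂ) * (a i k - c i k)‖ ≤ D * E := by
    rw [norm_mul, norm_neg, Complex.norm_real, Real.norm_eq_abs]
    calc wt k ^ p * (|d k| * ‖a i k - c i k‖)
        ≤ wt k ^ p * ((D * wt k ^ K) * ‖a i k - c i k‖) := by
          have := hd k
          gcongr
      _ = D * (wt k ^ (p + K) * ‖a i k - c i k‖) := by rw [pow_add]; ring
      _ ≤ D * E := mul_le_mul_of_nonneg_left ((hac.mono (by omega : p + K ≤ p + 5 + K)) i k) hD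
  have h3 : rhs B d a i k - rhs B d c i k = -(d k : ℂ) * (a i k - c i k)
      - (nl2 B a (fun i k => a i k - c i k) k i + nl2 B (fun i k => a i k - c i k) c k i) := by
    rw [← nl2_sub]
    unfold rhs
    ring
  show wt k ^ p * ‖rhs B d a i k - rhs B d c i k‖ ≤ _
  rw [h3]
  calc wt k ^ p * ‖-(d k : ℂ) * (a i k - c i k)
        - (nl2 B a (fun i k => a i k - c i k) k i + nl2 B (fun i k => a i k - c i k) c k i)‖
      ≤ wt k ^ p * (‖-(d k : ℂ) * (a i k - c i k)‖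
        + (‖nl2 B a (fun i k => a i k - c i k) k i‖ + ‖nl2 B (fun i k => a i k - c i k) c k i‖)) :=
        mul_le_mul_of_nonneg_left ((norm_sub_le _ _).trans
          (add_le_add le_rfl (norm_add_le _ _))) (by positivity)
    _ = wt k ^ p * ‖-(d k : ℂ) * (a i k - c i k)‖
        + (wt k ^ p * ‖nl2 B a (fun i k => a i k - c i k) k i‖
          + wt k ^ p * ‖nl2 B (fun i k => a i k - c i k) c k i‖) := by ring
    _ ≤ D * E + (9 * (C * E * W4) + 9 * (E * C * W4)) := add_le_add h2 (add_le_add h1 h1')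
    _ = _ := by ring

/-- The solution is Lipschitz in time, with decay of the coefficients. -/
lemma GSol.lip (hA : GSol B d T a0 A) (hd : ∀ k, |d k| ≤ D * wt k ^ K) {p : ℕ} {C : ℝ}
    (h : ∀ t ∈ Ico 0 T, Dc (p + 5 + K) C (A t)) {s t : ℝ} (hs : s ∈ Ico 0 T) (ht : t ∈ Ico 0 T) :
    Dc p ((D * C + 9 * (C * C * W4)) * |t - s|) (fun i k => A t i k - A s i k) := by
  intro i k
  show wt k ^ p * ‖A t i k - A s i k‖ ≤ _
  by_cases hk : k ∈ B
  · have hwp : 0 < wt k ^ p := pow_pos (wt_pos k) p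
    have h1 : ∀ x ∈ Ico 0 T, HasDerivWithinAt (fun s => A s i k) (rhs B d (A x) i k) (Ico 0 T) x :=
      fun x hx => (hA.der x (Ico_subset_Icc_self hx) i k hk).mono Ico_subset_Icc_self
    have h2 : ∀ x ∈ Ico 0 T, ‖rhs B d (A x) i k‖ ≤ (D * C + 9 * (C * C * W4)) / wt k ^ p := by
      intro x hx
      rw [le_div_iff₀ hwp, mul_comm]
      exact rhs_bound hd (h x hx) i k
    have h3 := (convex_Ico 0 T).norm_image_sub_le_of_norm_hasDerivWithin_le h1 h2 hs ht
    rw [Real.norm_eq_abs] at h3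
    calc wt k ^ p * ‖A t i k - A s i k‖
        ≤ wt k ^ p * ((D * C + 9 * (C * C * W4)) / wt k ^ p * |t - s|) := by gcongr
      _ = _ := by field_simp
  · rw [hA.sp t i k hk, hA.sp s i k hk, sub_zero, norm_zero, mul_zero]
    have h1 := (rhs_bound (B := B) hd (h s hs)).nonneg
    positivity

/-- The second order estimate. -/
lemma GSol.quad (hA : GSol B d T a0 A) (hd : ∀ k, |d k| ≤ D * wt k ^ K) {C M : ℝ}
    (h : ∀ t ∈ Ico 0 T, Dc (5 + K) C (A t))
    (hl : ∀ s ∈ Ico 0 T, ∀ t ∈ Ico 0 T, Dc (5 + K) (M * |t - s|) (fun i k => A t i k - A s i k))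
    (hM : 0 ≤ M) {s t : ℝ} (hs : s ∈ Ico 0 T) (ht : t ∈ Ico 0 T) (i : Fin 3) {k : K3}
    (hk : k ∈ B) : ‖A t i k - A s i k - ((t - s : ℝ) : ℂ) * rhs B d (A s) i k‖
      ≤ (D * M + 18 * (C * M * W4)) * (t - s) ^ 2 := by
  have hD : 0 ≤ D := by
    have h1 := (abs_nonneg _).trans (hd 0)
    have h2 : 0 < wt (0 : K3) ^ K := pow_pos (wt_pos 0) K
    exact nonneg_of_mul_nonneg_left h1 h2
  have hC : 0 ≤ C := (h s hs).nonneg
  have hW := W4_nonneg
  have hsub : uIcc s t ⊆ Ico 0 T := by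
    intro x hx
    rw [mem_uIcc] at hx
    rcases hx with hx | hx
    · exact ⟨hs.1.trans hx.1, hx.2.trans_lt ht.2⟩
    · exact ⟨ht.1.trans hx.1, hx.2.trans_lt hs.2⟩
  have h1 : ∀ x ∈ uIcc s t, HasDerivWithinAt
      (fun x => A x i k - A s i k - ((x - s : ℝ) : ℂ) * rhs B d (A s) i k)
      (rhs B d (A x) i k - rhs B d (A s) i k) (uIcc s t) x := by
    intro x hx
    have h2 := (hA.der x (Ico_subset_Icc_self (hsub hx)) i k hk).mono
      (hsub.trans Ico_subset_Icc_self)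
    have h3 : HasDerivWithinAt (fun x : ℝ => ((x - s : ℝ) : ℂ) * rhs B d (A s) i k)
        (rhs B d (A s) i k) (uIcc s t) x := by
      have h4 : HasDerivAt (fun x : ℝ => ((x - s : ℝ) : ℂ)) 1 x := by
        have := ((hasDerivAt_id x).sub_const s).ofReal_comp
        simpa using this
      simpa using (h4.hasDerivWithinAt (s := uIcc s t)).mul_const (rhs B d (A s) i k)
    exact (h2.sub_const _).fun_sub h3
  have h2 : ∀ x ∈ uIcc s t, ‖rhs B d (A x) i k - rhs B d (A s) i k‖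
      ≤ (D * M + 18 * (C * M * W4)) * |t - s| := by
    intro x hx
    have hx' := hsub hx
    have h3 := rhs_diff (B := B) (p := 0) hd (a := A x) (c := A s) (C := C) (E := M * |x - s|)
      (by simpa using h x hx') (by simpa using h s hs) (by simpa using hl s hs x hx') i k
    rw [pow_zero, one_mul] at h3
    refine h3.trans ?_
    have h4 : |x - s| ≤ |t - s| := abs_sub_left_of_mem_uIcc hx
    calc D * (M * |x - s|) + 18 * (C * (M * |x - s|) * W4)
        = (D * M + 18 * (C * M * W4)) * |x - s| := by ring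
      _ ≤ (D * M + 18 * (C * M * W4)) * |t - s| := by gcongr
  have h3 := (convex_uIcc s t).norm_image_sub_le_of_norm_hasDerivWithin_le h1 h2
    left_mem_uIcc right_mem_uIcc
  simp only [sub_self, Complex.ofReal_zero, zero_mul, sub_zero] at h3
  refine h3.trans (le_of_eq ?_)
  rw [Real.norm_eq_abs, mul_assoc, ← sq, sq_abs]

end gal

end Pool.Agent.R211.HV
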