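import Pool.Agent.H356R3.NS.Reg2

/-!
Families which are differentiable in a bounded time interval, and their Fourier series.
-/

set_option autoImplicit false

open MeasureTheory Set Filter Topology
open scoped ENNReal NNReal ContDiff

namespace Pool.Agent.R211.HV

open Pool.Agent.H356R3.NS (SFam pw RD cvv cvv_cont SF SF_cont SF_summable E3 Ph Ph_apply norm_Ph_le
  fj norm_fj_le dS ex_hasFDerivAt term_hasFDerivAt tsum_Ph Ph_cont norm_ex)

/-- `n` times differentiable families, in the time interval `(0, T)`. -/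
def TL (T : ℝ) : ℕ → SFam → Prop
  | 0, c => RD c ∧ ∀ k, Continuous (c k)
  | n + 1, c => RD c ∧ (∀ k, Continuous (c k)) ∧
      ∃ c' : SFam, (∀ k, ∀ t ∈ Ioo 0 T, HasDerivAt (c k) (c' k t) t) ∧ TL T n c'

variable {T : ℝ}

lemma TL.rd : ∀ {n : ℕ} {c : SFam}, TL T n c → RD c
  | 0, _, h => h.1
  | _ + 1, _, h => h.1

lemma TL.ct : ∀ {n : ℕ} {c : SFam}, TL T n c → ∀ k, Continuous (c k)
  | 0, _, h => h.2
  | _ + 1, _, h => h.2.1

lemma TL.pred : ∀ {n : ℕ} {c : SFam}, TL T (n + 1) c → TL T n c := by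
  intro n
  induction n with
  | zero => intro c h; exact ⟨h.1, h.2.1⟩
  | succ n ih =>
    intro c h
    obtain ⟨h1, h2, c', h3, h4⟩ := h
    exact ⟨h1, h2, c', h3, ih h4⟩

lemma TL.add {n : ℕ} : ∀ {c d : SFam}, TL T n c → TL T n d → TL T n (fun k t => c k t + d k t) := by
  induction n with
  | zero => intro c d hc hd; exact ⟨hc.1.add hd.1, fun k => (hc.2 k).add (hd.2 k)⟩
  | succ n ih =>
    intro c d hc hd
    obtain ⟨h1, h2, c', h3, h4⟩ := hc
    obtain ⟨g1, g2, d', g3, g4⟩ := hd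
    exact ⟨h1.add g1, fun k => (h2 k).add (g2 k), _, fun k t ht => (h3 k t ht).fun_add (g3 k t ht),
      ih h4 g4⟩

lemma TL.mul {n : ℕ} {p : (Fin 3 → ℤ) → ℂ} {C : ℝ} {r : ℕ} (hp : ∀ k, ‖p k‖ ≤ C * pw k ^ r) :
    ∀ {c : SFam}, TL T n c → TL T n (fun k t => p k * c k t) := by
  induction n with
  | zero => intro c hc; exact ⟨hc.1.mul hp, fun k => continuous_const.mul (hc.2 k)⟩
  | succ n ih =>
    intro c hc
    obtain ⟨h1, h2, c', h3, h4⟩ := hc
    exact ⟨h1.mul hp, fun k => continuous_const.mul (h2 k), _,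
      fun k t ht => (h3 k t ht).const_mul (p k), ih h4⟩

lemma cvv_derivL {c d c' d' : SFam} (hc : RD c) (hd : RD d) (hc' : RD c') (hd' : RD d')
    (h1 : ∀ k, ∀ t ∈ Ioo 0 T, HasDerivAt (c k) (c' k t) t)
    (h2 : ∀ k, ∀ t ∈ Ioo 0 T, HasDerivAt (d k) (d' k t) t)
    (k : Fin 3 → ℤ) {t : ℝ} (ht : t ∈ Ioo 0 T) :
    HasDerivAt (cvv c d k) (cvv c' d k t + cvv c d' k t) t := by
  obtain ⟨b, hb, h⟩ := hc.summ
  obtain ⟨b', hb', h'⟩ := hd.summ
  obtain ⟨b1, hb1, hh1⟩ := hc'.summ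
  obtain ⟨b1', hb1', hh1'⟩ := hd'.summ
  have hb0 : ∀ k, 0 ≤ b k := fun k => (norm_nonneg _).trans (h k 0)
  have hb0' : ∀ k, 0 ≤ b' k := fun k => (norm_nonneg _).trans (h' k 0)
  have hb10 : ∀ k, 0 ≤ b1 k := fun k => (norm_nonneg _).trans (hh1 k 0)
  have hb10' : ∀ k, 0 ≤ b1' k := fun k => (norm_nonneg _).trans (hh1' k 0)
  have bd : ∀ {x y : SFam} {bx by' : (Fin 3 → ℤ) → ℝ}, Summable bx → Summable by' →
      (∀ k t, ‖x k t‖ ≤ bx k) →
      (∀ k t, ‖y k t‖ ≤ by' k) → ∀ t l, ‖x l t * y (k - l) t‖ ≤ bx l * ∑' l', by' l' := by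
    intro x y bx by' hbx hby hx hy t l
    have p0 : ∀ k, 0 ≤ by' k := fun k => (norm_nonneg _).trans (hy k 0)
    rw [norm_mul]
    exact mul_le_mul (hx l t) ((hy _ t).trans (hby.le_tsum _ fun _ _ => p0 _)) (norm_nonneg _)
      ((norm_nonneg _).trans (hx l t))
  have s1 : ∀ t, Summable fun l => c' l t * d (k - l) t := fun t =>
    Summable.of_norm_bounded (hb1.mul_right _) fun l => bd hb1 hb' hh1 h' t l
  have s2 : ∀ t, Summable fun l => c l t * d' (k - l) t := fun t =>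
    Summable.of_norm_bounded (hb.mul_right _) fun l => bd hb hb1' h hh1' t l
  have s0 : ∀ t, Summable fun l => c l t * d (k - l) t := fun t =>
    Summable.of_norm_bounded (hb.mul_right _) fun l => bd hb hb' h h' t l
  have key := hasDerivAt_tsum_of_isPreconnected (t := Ioo (0 : ℝ) T)
    (u := fun l => b1 l * (∑' l', b' l') + b l * ∑' l', b1' l')
    (g := fun l t => c l t * d (k - l) t)
    (g' := fun l t => c' l t * d (k - l) t + c l t * d' (k - l) t)
    ((hb1.mul_right _).add (hb.mul_right _)) isOpen_Ioo isPreconnected_Ioo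
    (fun l t ht => (h1 l t ht).mul (h2 (k - l) t ht))
    (fun l t _ => (norm_add_le _ _).trans (add_le_add (bd hb1 hb' hh1 h' t l) (bd hb hb1' h hh1' t l)))
    (y₀ := t) ht (s0 t) ht
  have e : ∑' l, (c' l t * d (k - l) t + c l t * d' (k - l) t) = cvv c' d k t + cvv c d' k t :=
    (s1 t).tsum_add (s2 t)
  rw [← e]
  exact key

lemma TL.conv {n : ℕ} : ∀ {c d : SFam}, TL T n c → TL T n d → TL T n (cvv c d) := by
  induction n with
  | zero => intro c d hc hd; exact ⟨hc.1.conv hd.1, cvv_cont hc.1 hd.1 hc.2 hd.2⟩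
  | succ n ih =>
    intro c d hc hd
    have hc0 := hc.pred
    have hd0 := hd.pred
    obtain ⟨h1, h2, c', h3, h4⟩ := hc
    obtain ⟨g1, g2, d', g3, g4⟩ := hd
    exact ⟨h1.conv g1, cvv_cont h1 g1 h2 g2, _,
      fun k t ht => cvv_derivL h1 g1 h4.rd g4.rd h3 g3 k ht, (ih h4 hd0).add (ih hc0 g4)⟩

lemma TL.sum {n : ℕ} {ι : Type*} (s : Finset ι) {f : ι → SFam} (h : ∀ i ∈ s, TL T n (f i)) :
    TL T n (fun k t => ∑ i ∈ s, f i k t) := by
  classical
  induction s using Finset.induction_on with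
  | empty =>
    have h0 : ∀ n, TL T n (fun _ _ => 0) := by
      intro n
      induction n with
      | zero => exact ⟨fun m => ⟨fun _ => 0, summable_zero, fun k t => by simp⟩,
          fun k => continuous_const⟩
      | succ n ih => exact ⟨fun m => ⟨fun _ => 0, summable_zero, fun k t => by simp⟩,
          fun k => continuous_const, _, fun k t _ => hasDerivAt_const _ _, ih⟩
    simpa using h0 n
  | insert i s hi ih =>
    simp only [Finset.sum_insert hi]
    exact (h i (Finset.mem_insert_self _ _)).add (ih fun j hj => h j (Finset.mem_insert_of_mem hj))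

lemma TL.dS {n : ℕ} {c : SFam} (h : TL T n c) (j : Fin 3) : TL T n (dS j c) :=
  TL.mul (fun k => norm_fj_le k j) h

/-- time-space domain -/
def Di (T : ℝ) : Set (ℝ × E3) := Icc 0 T ×ˢ univ

/-- its interior -/
def Di' (T : ℝ) : Set (ℝ × E3) := Ioo 0 T ×ˢ univ

lemma closure_Di' (hT : 0 < T) : closure (Di' T) = Di T := by
  unfold Di' Di
  rw [closure_prod_eq, closure_Ioo hT.ne, closure_univ]

lemma Di_uniq (hT : 0 < T) : UniqueDiffOn ℝ (Di T) := (uniqueDiffOn_Icc hT).prod uniqueDiffOn_univ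

lemma Di'_open : IsOpen (Di' T) := isOpen_Ioo.prod isOpen_univ

lemma Di'_convex : Convex ℝ (Di' T) := (convex_Ioo 0 T).prod convex_univ

lemma SF_hasFDerivAtL {c c' : SFam} (hc : RD c) (hc' : RD c')
    (h1 : ∀ k, ∀ t ∈ Ioo 0 T, HasDerivAt (c k) (c' k t) t) {p : ℝ × E3} (hp : p ∈ Di' T) :
    HasFDerivAt (SF c) (Ph (SF c' p) fun j => SF (dS j c) p) p := by
  obtain ⟨b, hb, h⟩ := hc.summ
  obtain ⟨b', hb', h'⟩ := hc'.summ
  have hdS : ∀ j, RD (dS j c) := fun j => hc.mul (fun k => norm_fj_le k j)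
  choose bd hbd hbd' using fun j => (hdS j).summ
  have key := hasFDerivAt_tsum_of_isPreconnected (𝕜 := ℝ) (s := Di' T)
    (u := fun k => b' k + ∑ j, bd j k)
    (f := fun k (p : ℝ × E3) => c k p.1 * Pool.Agent.H356R3.NS.ex k p.2)
    (f' := fun k (p : ℝ × E3) => Ph (c' k p.1 * Pool.Agent.H356R3.NS.ex k p.2)
      fun j => (fj k j * c k p.1) * Pool.Agent.H356R3.NS.ex k p.2)
    (hb'.add (summable_sum fun j _ => hbd j)) Di'_open Di'_convex.isPreconnected
    (fun k p hp => term_hasFDerivAt (h1 k p.1 hp.1)) (fun k p hp => ?_) (x₀ := p) hp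
    (SF_summable hc p) hp
  · refine key.congr_fderiv ?_
    exact tsum_Ph (SF_summable hc' p) (fun j => SF_summable (hdS j) p)
  · refine (norm_Ph_le _ _).trans (add_le_add ?_ (Finset.sum_le_sum fun j _ => ?_))
    · rw [norm_mul, norm_ex, mul_one]; exact h' k p.1
    · rw [norm_mul, norm_ex, mul_one]; exact hbd' j k p.1

lemma SF_hasFDerivWithinAtL (hT : 0 < T) {n : ℕ} {c : SFam} (hc : TL T (n + 1) c) {c' : SFam}
    (h1 : ∀ k, ∀ t ∈ Ioo 0 T, HasDerivAt (c k) (c' k t) t) (hc' : TL T n c') (p : ℝ × E3) :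
    HasFDerivWithinAt (SF c) (Ph (SF c' p) fun j => SF (dS j c) p) (Di T) p := by
  have hF : ∀ q ∈ Di' T, HasFDerivAt (SF c) (Ph (SF c' q) fun j => SF (dS j c) q) q :=
    fun q hq => SF_hasFDerivAtL hc.rd hc'.rd h1 hq
  have hcont : Continuous fun q => Ph (SF c' q) fun j => SF (dS j c) q :=
    Ph_cont (SF_cont hc'.rd hc'.ct) fun j => SF_cont (hc.dS j).rd (hc.dS j).ct
  rw [← closure_Di' hT]
  refine hasFDerivWithinAt_closure_of_tendsto_fderiv
    (fun q hq => (hF q hq).differentiableAt.differentiableWithinAt) Di'_convex Di'_open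
    (fun q _ => (SF_cont hc.rd hc.ct).continuousWithinAt) ?_
  have h3 : Tendsto (fun q => Ph (SF c' q) fun j => SF (dS j c) q) (𝓝[Di' T] p)
      (𝓝 (Ph (SF c' p) fun j => SF (dS j c) p)) := hcont.continuousAt.continuousWithinAt
  refine h3.congr' ?_
  filter_upwards [self_mem_nhdsWithin] with q hq
  exact (hF q hq).fderiv.symm

lemma SF_contDiffOn_natL (hT : 0 < T) (n : ℕ) : ∀ {c : SFam}, TL T n c →
    ContDiffOn ℝ n (SF c) (Di T) := by
  induction n with
  | zero =>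
    intro c hc
    rw [Nat.cast_zero, contDiffOn_zero]
    exact (SF_cont hc.rd hc.ct).continuousOn
  | succ n ih =>
    intro c hc
    obtain ⟨c', h1, hc'⟩ := hc.2.2
    have hF := SF_hasFDerivWithinAtL hT hc h1 hc'
    rw [Nat.cast_succ]
    refine contDiffOn_succ_of_fderivWithin (fun p _ => (hF p).differentiableWithinAt)
      (fun h => ?_) ?_
    · exact absurd h (by simp)
    · refine ContDiffOn.congr (f := fun q => Ph (SF c' q) fun j => SF (dS j c) q) ?_
        fun p hp => (hF p).fderivWithin (Di_uniq hT p hp)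
      unfold Ph
      refine ((ih hc').smul contDiffOn_const).add (ContDiffOn.sum fun j _ => ?_)
      exact (ih (hc.pred.dS j)).smul contDiffOn_const

lemma SF_contDiffOnL (hT : 0 < T) {c : SFam} (h : ∀ n, TL T n c) :
    ContDiffOn ℝ ∞ (SF c) (Di T) :=
  contDiffOn_infty.2 fun n => SF_contDiffOn_natL hT n (h n)

end Pool.Agent.R211.HV
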