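import Pool.Agent.R211.HV.Lim
import Pool.Agent.R211.SV.Loc6
import Pool.Agent.H356R3.NS.Reg3
import Pool.Agent.R211.HV.Loc

/-!
The coefficients as smooth families.
-/

set_option autoImplicit false

open Set Filter Topology MeasureTheory
open scoped ComplexConjugate ENNReal NNReal ContDiff

namespace Pool.Agent.R211.HV

open Pool.Agent.Y302.Trunc (K3)
open Pool.Agent.Y302.Tri
open Pool.Agent.R211.WN
open Pool.Agent.R211.SV (Pj)
open Pool.Agent.H356R3.NS (SFam pw RD cvv)

lemma pw_eq (k : K3) : pw k = wt k := rfl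

/-- The projection of the time to `[0, T]`. -/
noncomputable def cl (T t : ℝ) : ℝ := max 0 (min t T)

lemma cl_mem {T : ℝ} (hT : 0 ≤ T) (t : ℝ) : cl T t ∈ Icc 0 T :=
  ⟨le_max_left _ _, max_le hT (min_le_right _ _)⟩

lemma cl_eq {T t : ℝ} (ht : t ∈ Icc 0 T) : cl T t = t := by
  unfold cl
  rw [min_eq_left ht.2, max_eq_right ht.1]

lemma cl_continuous (T : ℝ) : Continuous (cl T) := by
  unfold cl
  fun_prop

/-- The families of the coefficients, extended to all times by constants. -/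
noncomputable def fam (T : ℝ) (A : ℝ → Fin 3 → K3 → ℂ) (i : Fin 3) : SFam :=
  fun k t => A (cl T t) i k

/-- The family of the time derivatives. -/
noncomputable def dfam (d : K3 → ℝ) (c : Fin 3 → SFam) (i : Fin 3) : SFam := fun k t =>
  -(d k : ℂ) * c i k t
    + ∑ j, ∑ m, (-(Complex.I * (k m : ℂ) * (Pj k i j : ℂ))) * cvv (c j) (c m) k t

/-- The family of the coefficients of the pressure. -/
noncomputable def pfam (c : Fin 3 → SFam) : SFam := fun k t =>
  ∑ j, ∑ m, ((-((k j : ℝ) * (k m : ℝ) / ∑ l, (k l : ℝ) ^ 2) : ℝ) : ℂ) * cvv (c j) (c m) k t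

variable {d : K3 → ℝ} {D : ℝ} {K : ℕ} {a0 : Fin 3 → K3 → ℂ} {A : ℝ → Fin 3 → K3 → ℂ}

lemma dfam_eq (T : ℝ) (A : ℝ → Fin 3 → K3 → ℂ) (i : Fin 3) (k : K3) (t : ℝ) :
    dfam d (fam T A) i k t = rhsI d (A (cl T t)) i k := by
  unfold dfam rhsI nlI cvv fam
  rw [sub_eq_add_neg, ← Finset.sum_neg_distrib]
  congr 1
  refine Finset.sum_congr rfl fun j _ => ?_
  rw [← Finset.sum_neg_distrib]
  refine Finset.sum_congr rfl fun m _ => ?_
  ring

section

variable {T : ℝ} (H : CSol d a0 A) (hT : 0 < T)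

include H hT

lemma CSol.rd (i : Fin 3) : RD (fam T A i) := by
  intro m
  obtain ⟨C, hC⟩ := H.decay (m + 4) T
  refine ⟨fun k => C * (wt k ^ 4)⁻¹, summable_wt4.mul_left C, fun k t => ?_⟩
  have h1 := hC (cl T t) (cl_mem hT.le t) i k
  have hw := wt_pos k
  show wt k ^ m * ‖fam T A i k t‖ ≤ C * (wt k ^ 4)⁻¹
  rw [← div_eq_mul_inv, le_div_iff₀ (by positivity)]
  calc wt k ^ m * ‖fam T A i k t‖ * wt k ^ 4 = wt k ^ (m + 4) * ‖A (cl T t) i k‖ := by
        unfold fam
        ring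
    _ ≤ C := h1

lemma CSol.cont (i : Fin 3) (k : K3) : Continuous (fam T A i k) := by
  obtain ⟨M, hM⟩ := H.quad T
  rw [continuous_iff_continuousAt]
  intro t0
  unfold ContinuousAt
  rw [tendsto_iff_norm_sub_tendsto_zero]
  set g : ℝ → ℝ := fun t => |cl T t - cl T t0| * ‖rhsI d (A (cl T t0)) i k‖
    + M * (cl T t - cl T t0) ^ 2 with hg
  have hgc : Continuous g := by
    have := cl_continuous T
    simp only [hg]
    fun_prop
  have hg0 : g t0 = 0 := by simp [hg]
  have h1 : Tendsto g (𝓝 t0) (𝓝 0) := by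
    rw [← hg0]
    exact hgc.tendsto t0
  refine squeeze_zero (fun t => norm_nonneg _) (fun t => ?_) h1
  have h2 := hM (cl T t0) (cl_mem hT.le _) (cl T t) (cl_mem hT.le _) i k
  have h3 : fam T A i k t - fam T A i k t0
      = (A (cl T t) i k - A (cl T t0) i k
          - ((cl T t - cl T t0 : ℝ) : ℂ) * rhsI d (A (cl T t0)) i k)
        + ((cl T t - cl T t0 : ℝ) : ℂ) * rhsI d (A (cl T t0)) i k := by
    unfold fam
    ring
  rw [h3]
  refine (norm_add_le _ _).trans ?_
  rw [norm_mul, Complex.norm_real, Real.norm_eq_abs]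
  simp only [hg]
  linarith

omit hT in
lemma CSol.deriv (i : Fin 3) (k : K3) {t : ℝ} (ht : t ∈ Ioo 0 T) :
    HasDerivAt (fam T A i k) (dfam d (fam T A) i k t) t := by
  obtain ⟨M, hM⟩ := H.quad T
  have htI := Ioo_subset_Icc_self ht
  rw [dfam_eq, cl_eq htI, hasDerivAt_iff_isLittleO]
  have h1 : (fun s => fam T A i k s - fam T A i k t - (s - t) • rhsI d (A t) i k)
      =O[𝓝 t] fun s => (s - t) ^ 2 := by
    refine Asymptotics.IsBigO.of_bound M ?_
    filter_upwards [Icc_mem_nhds ht.1 ht.2] with s hs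
    have h2 := hM t htI s hs i k
    unfold fam
    rw [cl_eq hs, cl_eq htI, Real.norm_eq_abs, abs_of_nonneg (sq_nonneg _),
      Complex.real_smul]
    exact h2
  have h3 : (fun s : ℝ => (s - t) ^ 2) =o[𝓝 t] fun s => s - t := by
    have h4 : Tendsto (fun s : ℝ => s - t) (𝓝 t) (𝓝 0) := by
      have : Continuous fun s : ℝ => s - t := by fun_prop
      simpa using this.tendsto t
    have h5 : (fun s : ℝ => s - t) =o[𝓝 t] fun _ => (1 : ℝ) :=
      (Asymptotics.isLittleO_one_iff ℝ).2 h4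
    have h6 := (Asymptotics.isBigO_refl (fun s : ℝ => s - t) (𝓝 t)).mul_isLittleO h5
    simpa [sq] using h6
  exact h1.trans_isLittleO h3

lemma CSol.tt (hdb : ∀ k, |d k| ≤ D * wt k ^ K) (n : ℕ) : ∀ i, TL T n (fam T A i) := by
  induction n with
  | zero => exact fun i => ⟨H.rd hT i, fun k => H.cont hT i k⟩
  | succ n ih =>
    intro i
    refine ⟨H.rd hT i, fun k => H.cont hT i k, dfam d (fam T A) i,
      fun k t ht => H.deriv i k ht, ?_⟩
    unfold dfam
    refine TL.add (TL.mul (C := D) (r := K) (fun k => ?_) (ih i)) ?_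
    · rw [norm_neg, Complex.norm_real, Real.norm_eq_abs]
      exact hdb k
    · refine TL.sum _ fun j _ => TL.sum _ fun m _ => ?_
      refine TL.mul (C := 1) (r := 1) (fun k => ?_) ((ih j).conv (ih m))
      rw [norm_neg, pow_one, one_mul]
      exact norm_coef_le k i j m

lemma CSol.tt_d (hdb : ∀ k, |d k| ≤ D * wt k ^ K) (n : ℕ) (i : Fin 3) :
    TL T n (dfam d (fam T A) i) := by
  have ih := H.tt hT hdb n
  unfold dfam
  refine TL.add (TL.mul (C := D) (r := K) (fun k => ?_) (ih i)) ?_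
  · rw [norm_neg, Complex.norm_real, Real.norm_eq_abs]
    exact hdb k
  · refine TL.sum _ fun j _ => TL.sum _ fun m _ => ?_
    refine TL.mul (C := 1) (r := 1) (fun k => ?_) ((ih j).conv (ih m))
    rw [norm_neg, pow_one, one_mul]
    exact norm_coef_le k i j m

lemma CSol.tt_p (hdb : ∀ k, |d k| ≤ D * wt k ^ K) (n : ℕ) : TL T n (pfam (fam T A)) := by
  have ih := H.tt hT hdb n
  unfold pfam
  refine TL.sum _ fun j _ => TL.sum _ fun m _ => ?_
  refine TL.mul (C := 1) (r := 0) (fun k => ?_) ((ih j).conv (ih m))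
  rw [pow_zero, mul_one, Complex.norm_real, Real.norm_eq_abs, abs_neg]
  exact SV.abs_quot_le k j m

lemma CSol.fam_real (i : Fin 3) (k : K3) (t : ℝ) : conj (fam T A i k t) = fam T A i (-k) t :=
  H.real _ (cl_mem hT.le t).1 i k

lemma CSol.cvv_real (i j : Fin 3) (k : K3) (t : ℝ) :
    conj (cvv (fam T A i) (fam T A j) k t) = cvv (fam T A i) (fam T A j) (-k) t := by
  unfold cvv
  rw [Complex.conj_tsum, ← (Equiv.neg K3).tsum_eq]
  refine tsum_congr fun l => ?_
  simp only [Equiv.neg_apply]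
  rw [map_mul, H.fam_real hT, H.fam_real hT, neg_neg]
  congr 2
  abel

lemma CSol.dfam_real (hde : ∀ k, d (-k) = d k) (i : Fin 3) (k : K3) (t : ℝ) :
    conj (dfam d (fam T A) i k t) = dfam d (fam T A) i (-k) t := by
  unfold dfam
  simp only [map_add, map_mul, map_neg, map_sum, Complex.conj_ofReal, Complex.conj_I, map_intCast,
    H.cvv_real hT, H.fam_real hT, hde, SV.Pj_neg, Pi.neg_apply, Int.cast_neg]
  congr 1
  refine Finset.sum_congr rfl fun j _ => Finset.sum_congr rfl fun m _ => ?_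
  ring

lemma CSol.pfam_real (k : K3) (t : ℝ) :
    conj (pfam (fam T A) k t) = pfam (fam T A) (-k) t := by
  unfold pfam
  simp only [map_mul, map_sum, Complex.conj_ofReal, H.cvv_real hT, Pi.neg_apply, Int.cast_neg,
    neg_mul_neg, neg_sq]

end

end Pool.Agent.R211.HV
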