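import Pool.Agent.R211.HV.Phys
import Pool.Agent.R211.SV.Uniq

/-!
Global smooth solutions.
-/

set_option autoImplicit false

open Set Filter Topology MeasureTheory
open scoped ComplexConjugate ENNReal NNReal ContDiff

namespace Pool.Agent.R211.HV

open Pool.Agent.H708R2.EulerSign (V Periodic3 Dom divergence divergence_eq_sum contDiff_slice)
open Pool.Agent.H708R2.EulerModes
open Pool.Agent.Y302.Trunc (K3 resc ph_resc)
open Pool.Agent.Y302.Tri
open Pool.Agent.R211.WN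

/-- The running maximum. -/
noncomputable def LL (Λ : ℕ → ℝ) : ℕ → ℝ
  | 0 => 0
  | j + 1 => max (LL Λ j) (Λ j)

lemma LL_mono (Λ : ℕ → ℝ) : Monotone (LL Λ) :=
  monotone_nat_of_le_succ fun _ => le_max_left _ _

lemma LL_le {Λ : ℕ → ℝ} {d : K3 → ℝ} (hd0 : ∀ k, 0 ≤ d k)
    (h : ∀ j k, 2 ^ j ≤ kn k → Λ j ≤ d k) (i : ℕ) (k : K3) (hk : 2 ^ i ≤ kn k) :
    LL Λ (i + 1) ≤ d k := by
  have h1 : ∀ j ≤ i + 1, LL Λ j ≤ d k := by
    intro j
    induction j with
    | zero => exact fun _ => hd0 k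
    | succ j ih =>
      intro hj
      refine max_le (ih (by omega)) (h j k (le_trans ?_ hk))
      exact pow_le_pow_right₀ (by norm_num) (by omega)
  exact h1 (i + 1) le_rfl

lemma LL_zero {Λ : ℕ → ℝ} {n : ℕ} (h : ∀ j < n, Λ j = 0) : ∀ j ≤ n, LL Λ j = 0 := by
  intro j
  induction j with
  | zero => exact fun _ => rfl
  | succ j ih =>
    intro hj
    show max (LL Λ j) (Λ j) = 0
    rw [ih (by omega), h j (by omega), max_self]

lemma b_eq : b = (2 : ℝ) ^ (5 / 2 : ℝ) := by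
  unfold b
  rw [Real.sqrt_eq_rpow, show (32 : ℝ) = (2 : ℝ) ^ (5 : ℝ) by norm_num,
    ← Real.rpow_mul (by norm_num)]
  norm_num

lemma b_pow (j : ℕ) : b ^ j = (2 : ℝ) ^ (5 / 2 * (j : ℝ)) := by
  rw [b_eq, ← Real.rpow_natCast, ← Real.rpow_mul (by norm_num)]

lemma LL_thr {Λ : ℕ → ℝ} (N : ℕ) :
    1 / 8 * ∑ j ∈ Finset.range N, Λ j / b ^ j
      ≤ ∑ j ∈ Finset.range (N + 2), (LL Λ j - LL Λ (j - 1)) / b ^ j := by
  have hb := b_pos
  have hb5 := b_gt
  rw [sum_parts (LL Λ) (N + 1), Finset.sum_range_succ']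
  have hL0 : LL Λ 0 = 0 := rfl
  have hLn : 0 ≤ LL Λ (N + 1) := (LL_mono Λ) (Nat.zero_le _)
  have h1 : ∑ j ∈ Finset.range N, Λ j / b ^ j
      ≤ b * ∑ j ∈ Finset.range N, LL Λ (j + 1) / b ^ (j + 1) := by
    rw [Finset.mul_sum]
    refine Finset.sum_le_sum fun j _ => ?_
    have h2 : Λ j ≤ LL Λ (j + 1) := le_max_right _ _
    calc Λ j / b ^ j ≤ LL Λ (j + 1) / b ^ j := by gcongr
      _ = b * (LL Λ (j + 1) / b ^ (j + 1)) := by
          rw [pow_succ]
          field_simp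
  rw [hL0, sub_zero, zero_div, add_zero]
  set S := ∑ j ∈ Finset.range N, LL Λ (j + 1) / b ^ (j + 1) with hS
  have hS0 : 0 ≤ S := Finset.sum_nonneg fun j _ => by
    have : 0 ≤ LL Λ (j + 1) := (LL_mono Λ) (Nat.zero_le _)
    positivity
  have h3 : 0 ≤ LL Λ (N + 1) / b ^ (N + 1) := by positivity
  have h4 : 1 / 8 * (b * S) ≤ (1 - 1 / b) * S := by
    have h5 : 1 / 8 * b ≤ 1 - 1 / b := by
      rw [← sub_nonneg]
      have h6 : 1 - 1 / b - 1 / 8 * b = (8 * b - 8 - b ^ 2) / (8 * b) := by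
        field_simp
      rw [h6, b_sq]
      apply div_nonneg _ (by positivity)
      linarith
    calc 1 / 8 * (b * S) = (1 / 8 * b) * S := by ring
      _ ≤ (1 - 1 / b) * S := mul_le_mul_of_nonneg_right h5 hS0
  have h7 : 1 / 8 * ∑ j ∈ Finset.range N, Λ j / b ^ j ≤ 1 / 8 * (b * S) := by gcongr
  linarith

lemma dec_cv {v : V → V} (hv : ContDiff ℝ ∞ v) (hp : Periodic3 v) (p : ℕ) :
    ∃ C, Dc p C (cv v) := by
  have h1 : ContDiffOn ℝ ∞ (fun z : ℝ × V => (fun _ : ℝ => v) z.1 z.2) (Ico 0 1 ×ˢ univ) :=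
    (hv.comp contDiff_snd).contDiffOn
  obtain ⟨C, hC⟩ := unif_cv (T := 1) (b := 0) (by norm_num) h1 (fun _ _ => hp) p
  exact ⟨C, fun i k => hC 0 ⟨le_rfl, le_rfl⟩ i k⟩

lemma zero_csol (d : K3 → ℝ) : CSol d (fun _ _ => 0) (fun _ _ _ => 0) where
  init _ _ := rfl
  decay p T := ⟨0, fun t _ i k => by simp⟩
  real t _ i k := by simp
  div t _ p := by simp [dt]
  quad T := ⟨0, fun s _ t _ i k => by simp [rhsI, nlI]⟩

/-- Global existence. -/
theorem global {d : K3 → ℝ} {D : ℝ} {K : ℕ} (hd0 : ∀ k, 0 ≤ d k)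
    (hde : ∀ k, d (-k) = d k) (hdb : ∀ k, |d k| ≤ D * wt k ^ K) {Λ : ℕ → ℝ}
    (hΛ : ∀ j k, 2 ^ j ≤ kn k → Λ j ≤ d k)
    {v : V → V} (hv : ContDiff ℝ ∞ v) (hp : Periodic3 v) (hdv : ∀ x, divergence v x = 0)
    {m N : ℕ} (hm : ∑' k, kn k ^ (2 * 3) * nv (cv v) k ^ 2 ≤ 64 ^ m * ∑' k, nv (cv v) k ^ 2)
    (hthr : 524288000 * Real.sqrt (∑' k, nv (cv v) k ^ 2)
      < ∑ j ∈ Finset.Ico (m + 1) N, Λ j / (2 : ℝ) ^ (5 / 2 * (j : ℝ))) :
    ∃ A : ℝ → Fin 3 → K3 → ℂ, CSol d (cv v) A ∧ vel A 0 = v := by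
  have hv1 : ContDiff ℝ 1 v := hv.of_le (by exact_mod_cast le_top)
  have hb := b_pos
  have hr : Reg (cv v) := by
    obtain ⟨C, hC⟩ := dec_cv hv hp 5
    exact RB.reg (C := C) hC (fun i k => cv_conj v i k) (cv_div hv1 hp hdv)
  have hex : ∃ A : ℝ → Fin 3 → K3 → ℂ, CSol d (cv v) A := by
    have hnn : 0 ≤ ∑' k, nv (cv v) k ^ 2 := tsum_nonneg fun k => sq_nonneg _
    rcases hnn.eq_or_lt with h0 | hpos
    · -- the zero field
      have h1 : ∀ k, nv (cv v) k ^ 2 = 0 := by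
        intro k
        have h2 := (summable_nv2 hr).le_tsum k fun j _ => sq_nonneg _
        rw [← h0] at h2
        exact le_antisymm h2 (sq_nonneg _)
      have h3 : cv v = fun _ _ => 0 := by
        funext i k
        have h4 := norm_le_nv (cv v) i k
        rw [(pow_eq_zero_iff two_ne_zero).1 (h1 k)] at h4
        exact norm_le_zero_iff.1 h4
      rw [h3]
      exact ⟨_, zero_csol d⟩
    · set Λ' : ℕ → ℝ := fun j => if j < m + 1 then 0 else Λ j with hΛ'
      have hΛ'd : ∀ j k, 2 ^ j ≤ kn k → Λ' j ≤ d k := by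
        intro j k hk
        simp only [hΛ']
        split_ifs
        · exact hd0 k
        · exact hΛ j k hk
      have hsum : Summable fun k => kn k ^ (2 * 3) * nv (cv v) k ^ 2 := by
        obtain ⟨C, hC⟩ := dec_cv hv hp (4 + 2 * 3)
        exact RB.summable_w2 (C := C) hC le_rfl
      have h1 : ∑ j ∈ Finset.Ico (m + 1) N, Λ j / (2 : ℝ) ^ (5 / 2 * (j : ℝ))
          = ∑ j ∈ Finset.range N, Λ' j / b ^ j := by
        have h2 : Finset.Ico (m + 1) N = (Finset.range N).filter (fun j => ¬ j < m + 1) := by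
          ext j
          simp only [Finset.mem_Ico, Finset.mem_filter, Finset.mem_range]
          omega
        rw [h2, Finset.sum_filter]
        refine Finset.sum_congr rfl fun j _ => ?_
        simp only [hΛ', b_pow]
        split_ifs <;> simp_all
      have h3 := LL_thr (Λ := Λ') N
      rw [← h1] at h3
      obtain ⟨Z, hZ⟩ := apriori3 (d := d) hd0 (LL_mono Λ') (m := m)
        (LL_zero (n := m + 1) fun j hj => by simp only [hΛ']; rw [if_pos hj])
        (LL_le hd0 hΛ'd) hr hsum hpos hm (N := N + 2) (by linarith)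
      exact exists_limit hd0 hde hdb (dec_cv hv hp) (fun i k => cv_conj v i k)
        (cv_div hv1 hp hdv) hZ
  obtain ⟨A, hA⟩ := hex
  refine ⟨A, hA, ?_⟩
  have h01 : (0 : ℝ) ∈ Icc 0 1 := ⟨le_rfl, zero_le_one⟩
  funext x i
  have hv0 : ContDiff ℝ 1 (vel A 0) := vel_contDiff hA hdb one_pos h01
  have hc1 : Continuous (fun x => vel A 0 x i) := (continuous_apply i).comp hv0.continuous
  have hc2 : Continuous (fun x => v x i) := (continuous_apply i).comp hv.continuous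
  have h1 : ∀ x, vel A 0 x i - v x i = 0 := by
    refine eq_zero_of_cf ?_ (hc1.sub hc2) fun k => ?_
    · intro j x
      simp only
      rw [vel_periodic le_rfl j x, hp j x]
    · rw [cf_sub hc1 hc2]
      have h3 : cf (fun x => vel A 0 x i) k = cv (vel A 0) i k := rfl
      rw [h3, cv_vel hA one_pos h01, hA.init]
      exact sub_self _
  exact sub_eq_zero.1 (h1 x)

end Pool.Agent.R211.HV
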