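import Pool.Agent.R211.HV.Seq
import Pool.Agent.R211.WN.Win3

/-!
The flux of energy through the dyadic spheres, in a field with a bounded weighted energy.
-/

set_option autoImplicit false

open Set Filter Topology MeasureTheory
open scoped ComplexConjugate ENNReal

namespace Pool.Agent.R211.HV

open Pool.Agent.Y302.Trunc (K3)
open Pool.Agent.Y302.Tri
open Pool.Agent.R211.WN

/-- The weight. -/
noncomputable def ps (P : ℕ → ℝ) (J : ℕ) (k : K3) : ℝ :=
  1 + ∑ j ∈ Finset.range J, (P (j + 1) - P j) * ramp (2 ^ j) k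

section wt

variable {P : ℕ → ℝ} (hP0 : P 0 = 1) (hPm : ∀ j, P j ≤ P (j + 1)) {J : ℕ}

include hPm

lemma c_nonneg (j : ℕ) : 0 ≤ P (j + 1) - P j := sub_nonneg.2 (hPm j)

lemma P_mono : Monotone P := monotone_nat_of_le_succ hPm

lemma ps_ge_one (k : K3) : 1 ≤ ps P J k := by
  unfold ps
  have : 0 ≤ ∑ j ∈ Finset.range J, (P (j + 1) - P j) * ramp (2 ^ j) k :=
    Finset.sum_nonneg fun j _ => mul_nonneg (c_nonneg hPm j) (ramp_nonneg _ _)
  linarith

include hP0

omit hPm in
lemma sum_c (n : ℕ) : ∑ j ∈ Finset.range n, (P (j + 1) - P j) = P n - 1 := by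
  rw [Finset.sum_range_sub, hP0]

lemma P_ge_one (j : ℕ) : 1 ≤ P j := by
  rw [← hP0]
  exact P_mono hPm (Nat.zero_le j)

lemma ps_ge {i : ℕ} (hi : i ≤ J) {k : K3} (hk : 2 ^ i ≤ kn k) : P i ≤ ps P J k := by
  have h1 : ∑ j ∈ Finset.range i, (P (j + 1) - P j)
      ≤ ∑ j ∈ Finset.range J, (P (j + 1) - P j) * ramp (2 ^ j) k := by
    refine (Finset.sum_le_sum (g := fun j => (P (j + 1) - P j) * ramp (2 ^ j) k)
      fun j hj => ?_).trans (Finset.sum_le_sum_of_subset_of_nonneg
        (Finset.range_mono hi) fun j _ _ => mul_nonneg (c_nonneg hPm j) (ramp_nonneg _ _))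
    rw [Finset.mem_range] at hj
    rw [ramp_one (by positivity), mul_one]
    calc (2 : ℝ) * 2 ^ j = 2 ^ (j + 1) := by ring
      _ ≤ 2 ^ i := pow_le_pow_right₀ (by norm_num) hj
      _ ≤ kn k := hk
  rw [sum_c hP0] at h1
  unfold ps
  linarith

lemma ps_le {i : ℕ} {k : K3} (hk : kn k < 2 ^ (i + 1)) : ps P J k ≤ P (i + 1) := by
  have h1 : ∑ j ∈ Finset.range J, (P (j + 1) - P j) * ramp (2 ^ j) k
      ≤ ∑ j ∈ Finset.range (i + 1), (P (j + 1) - P j) := by
    have h2 : ∑ j ∈ Finset.range J, (P (j + 1) - P j) * ramp (2 ^ j) k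
        = ∑ j ∈ (Finset.range J).filter (· < i + 1), (P (j + 1) - P j) * ramp (2 ^ j) k := by
      rw [Finset.sum_filter]
      refine Finset.sum_congr rfl fun j _ => ?_
      split_ifs with h
      · rfl
      · rw [ramp_zero (by positivity), mul_zero]
        exact hk.le.trans (pow_le_pow_right₀ (by norm_num) (not_lt.1 h))
    rw [h2]
    refine (Finset.sum_le_sum (g := fun j => P (j + 1) - P j) fun j _ => ?_).trans
      (Finset.sum_le_sum_of_subset_of_nonneg ?_ fun j _ _ => c_nonneg hPm j)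
    · exact mul_le_of_le_one_right (c_nonneg hPm j) (ramp_le_one _ _)
    · intro j hj
      rw [Finset.mem_filter] at hj
      exact Finset.mem_range.2 hj.2
  rw [sum_c hP0] at h1
  unfold ps
  linarith

end wt

lemma ps_neg (P : ℕ → ℝ) (J : ℕ) (k : K3) : ps P J (-k) = ps P J k := by
  unfold ps
  simp only [ramp_neg]

lemma exists_shell {k : K3} (hk : k ≠ 0) : ∃ i : ℕ, 2 ^ i ≤ kn k ∧ kn k < 2 ^ (i + 1) :=
  exists_nat_pow_near (one_le_kn hk) (by norm_num)

/-- The field is supported in the ball. -/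
def SB (J : ℕ) (a : Fin 3 → K3 → ℂ) : Prop := ∀ k, 2 ^ J < kn k → nv a k = 0

lemma SB.summable {J : ℕ} {a : Fin 3 → K3 → ℂ} (h : SB J a) {f : K3 → ℝ}
    (hf : ∀ k, nv a k = 0 → f k = 0) : Summable f := by
  refine summable_of_ne_finset_zero (s := box (2 ^ J)) fun k hk => hf k ?_
  by_contra hcon
  exact hk (mem_box (not_lt.1 fun hlt => hcon (h k hlt)))

/-- The strain of a shell. -/
lemma shell_le {a : Fin 3 → K3 → ℂ} (ha : Reg a) (i : ℕ) {e : ℝ}
    (he : ∑' k, (if 2 ^ i ≤ kn k ∧ kn k < 2 ^ (i + 1) then nv a k ^ 2 else 0) ≤ e) :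
    ∑' k, (if 2 ^ i ≤ kn k ∧ kn k < 2 ^ (i + 1) then kn k * nv a k else 0)
      ≤ Real.sqrt (27 * 32 ^ (i + 1) * e) := by
  set R : ℝ := 2 ^ (i + 1) with hR
  have hR1 : 1 ≤ R := one_le_pow₀ (by norm_num)
  set f : K3 → ℝ := fun k => if 2 ^ i ≤ kn k ∧ kn k < R then kn k else 0 with hf
  set g : K3 → ℝ := fun k => if 2 ^ i ≤ kn k ∧ kn k < R then nv a k else 0 with hg
  have hf0 : ∀ k, 0 ≤ f k := fun k => by
    simp only [hf]
    split_ifs
    · exact kn_nonneg k
    · exact le_rfl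
  have hg0 : ∀ k, 0 ≤ g k := fun k => by
    simp only [hg]
    split_ifs
    · exact nv_nonneg a k
    · exact le_rfl
  obtain ⟨hfs, hfle⟩ := tsum_ball_le hR1 (f := fun k => f k ^ 2) (B := R ^ 2) (sq_nonneg _)
    (fun k => sq_nonneg _) (fun k hk => by
      simp only [hf]
      split_ifs
      · exact pow_le_pow_left₀ (kn_nonneg k) hk 2
      · have := sq_nonneg R
        simpa using this) (fun k hk => by
      simp only [hf, if_neg (fun h : 2 ^ i ≤ kn k ∧ kn k < R => absurd h.2 (not_lt.2 hk.le))]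
      norm_num)
  have hgs : Summable fun k => g k ^ 2 := by
    refine Summable.of_nonneg_of_le (fun k => sq_nonneg _) (fun k => ?_) (summable_nv2 ha)
    simp only [hg]
    split_ifs
    · exact le_rfl
    · have := sq_nonneg (nv a k)
      simpa using this
  obtain ⟨-, h1⟩ := cs hf0 hg0 hfs hgs
  have e1 : ∑' k, (if 2 ^ i ≤ kn k ∧ kn k < R then kn k * nv a k else 0) = ∑' k, f k * g k := by
    refine tsum_congr fun k => ?_
    simp only [hf, hg]
    split_ifs <;> simp
  have e2 : ∑' k, g k ^ 2 = ∑' k, (if 2 ^ i ≤ kn k ∧ kn k < R then nv a k ^ 2 else 0) := by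
    refine tsum_congr fun k => ?_
    simp only [hg]
    split_ifs <;> simp
  rw [e1]
  refine h1.trans ?_
  rw [← Real.sqrt_mul (tsum_nonneg fun k => sq_nonneg _), e2]
  refine Real.sqrt_le_sqrt ?_
  have h2 : 27 * R ^ 3 * R ^ 2 = 27 * 32 ^ (i + 1) := by
    have : R ^ 3 * R ^ 2 = 32 ^ (i + 1) := by
      rw [← pow_add, hR, ← pow_mul, mul_comm, pow_mul]
      norm_num
    rw [mul_assoc, this]
  rw [← h2]
  refine mul_le_mul hfle he (tsum_nonneg fun k => ?_) (by positivity)
  split_ifs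
  · exact sq_nonneg _
  · exact le_rfl

/-- The strain of the low modes. -/
lemma strain_le {P : ℕ → ℝ} (hP0 : P 0 = 1) (hPm : ∀ j, P j ≤ P (j + 1)) {J : ℕ}
    {a : Fin 3 → K3 → ℂ} (ha : Reg a) (hsb : SB J a) {E : ℝ} (hE : 0 ≤ E)
    (hΨ : ∑' k, ps P J k * nv a k ^ 2 ≤ 4 * E) (m : ℕ) :
    strA a (2 ^ m) ≤ 59 * Real.sqrt E * ∑ i ∈ Finset.range (m + 1), b ^ i / Real.sqrt (P i) := by
  have hP1 := P_ge_one hP0 hPm
  have hshell : ∀ i : ℕ, ∑' k, (if 2 ^ i ≤ kn k ∧ kn k < 2 ^ (i + 1) then nv a k ^ 2 else 0)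
      ≤ 4 * E / P i := by
    intro i
    have hPi : 0 < P i := lt_of_lt_of_le one_pos (hP1 i)
    rw [le_div_iff₀ hPi, ← tsum_mul_right]
    refine le_trans ?_ hΨ
    refine Summable.tsum_le_tsum (fun k => ?_) ?_ ?_
    · split_ifs with h
      · by_cases hi : i ≤ J
        · have := ps_ge hP0 hPm hi h.1
          have := sq_nonneg (nv a k)
          nlinarith
        · have h1 : nv a k = 0 := hsb k (lt_of_lt_of_le
            (pow_lt_pow_right₀ (by norm_num) (not_le.1 hi)) h.1)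
          rw [h1]
          simp
      · rw [zero_mul]
        have := ps_ge_one hPm (J := J) k
        positivity
    · refine hsb.summable fun k hk => ?_
      rw [hk]
      simp
    · refine hsb.summable fun k hk => ?_
      rw [hk]
      simp
  have hb := b_pos
  have hterm : ∀ i : ℕ, ∑' k, (if 2 ^ i ≤ kn k ∧ kn k < 2 ^ (i + 1) then kn k * nv a k else 0)
      ≤ 59 * Real.sqrt E * (b ^ i / Real.sqrt (P i)) := by
    intro i
    have hPi : 0 < P i := lt_of_lt_of_le one_pos (hP1 i)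
    refine (shell_le ha i (hshell i)).trans ?_
    rw [Real.sqrt_le_left (by positivity)]
    have h1 : Real.sqrt (P i) ^ 2 = P i := Real.sq_sqrt hPi.le
    have h2 : Real.sqrt E ^ 2 = E := Real.sq_sqrt hE
    have h3 : (b ^ i) ^ 2 = 32 ^ i := by rw [← pow_mul, mul_comm, pow_mul, b_sq]
    have h4 : (59 * Real.sqrt E * (b ^ i / Real.sqrt (P i))) ^ 2 = 3481 * E * (32 ^ i / P i) := by
      rw [mul_pow, mul_pow, div_pow, h1, h2, h3]
      norm_num
    rw [h4]
    have h5 : (27 : ℝ) * 32 ^ (i + 1) * (4 * E / P i) = 3456 * E * (32 ^ i / P i) := by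
      rw [pow_succ]
      ring
    rw [h5]
    have h6 : 0 ≤ E * (32 ^ i / P i) := by positivity
    nlinarith
  rw [Finset.mul_sum]
  refine le_trans ?_ (Finset.sum_le_sum fun i _ => hterm i)
  have hsum : ∀ i : ℕ, Summable fun k =>
      (if 2 ^ i ≤ kn k ∧ kn k < 2 ^ (i + 1) then kn k * nv a k else 0) := by
    intro i
    refine hsb.summable fun k hk => ?_
    rw [hk]
    simp
  rw [← Summable.tsum_finsetSum fun i _ => hsum i]
  unfold strA sumB
  refine Summable.tsum_le_tsum (fun k => ?_) ?_ ?_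
  · have hnn : ∀ i ∈ Finset.range (m + 1),
        0 ≤ (if 2 ^ i ≤ kn k ∧ kn k < 2 ^ (i + 1) then kn k * nv a k else 0) := by
      intro i _
      split_ifs
      · exact knnv_nonneg a k
      · exact le_rfl
    dsimp only
    split_ifs with h
    · by_cases hk : k = 0
      · have h0 : kn k * nv a k = 0 := by rw [hk, kn_zero, zero_mul]
        rw [h0]
        refine Finset.sum_nonneg fun i hi => ?_
        split_ifs <;> exact le_rfl
      · obtain ⟨i, hi1, hi2⟩ := exists_shell hk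
        have hi : i ∈ Finset.range (m + 1) := by
          rw [Finset.mem_range]
          by_contra hcon
          have h1 : (2 : ℝ) ^ (m + 1) ≤ 2 ^ i := pow_le_pow_right₀ (by norm_num) (not_lt.1 hcon)
          have h2 : (2 : ℝ) ^ m < 2 ^ (m + 1) := pow_lt_pow_right₀ (by norm_num) (by omega)
          linarith
        refine le_trans (le_of_eq ?_) (Finset.single_le_sum hnn hi)
        rw [if_pos ⟨hi1, hi2⟩]
    · exact Finset.sum_nonneg hnn
  · refine hsb.summable fun k hk => ?_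
    dsimp only
    rw [hk]
    simp
  · exact summable_sum fun i _ => hsum i

/-- The properties of the sequence of the weights. -/
structure PS (s n0 n1 : ℕ) (κ : ℝ) (L P : ℕ → ℝ) : Prop where
  h01 : n0 ≤ n1
  one : ∀ j ≤ n0, P j = 1
  mono : ∀ j, P j ≤ P (j + 1)
  le : ∀ j, P (j + 1) ≤ 4 ^ s * P j
  slow : ∀ j < n1, P (j + 1) ≤ 2 * P j
  slow' : ∀ j < n1, P (j + 1) - P j ≤ κ * (L j - L (j - 1)) / b ^ j * (P j * Real.sqrt (P j))
  fast : ∀ j, n1 ≤ j → P (j + 1) = 4 ^ s * P j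
  stop : b ^ n1 < κ * L n1 * Real.sqrt (P n1)

section PS

variable {s n0 n1 : ℕ} {κ : ℝ} {L P : ℕ → ℝ} (H : PS s n0 n1 κ L P)

include H

lemma PS.zero : P 0 = 1 := H.one 0 (Nat.zero_le _)

lemma PS.one_le (j : ℕ) : 1 ≤ P j := P_ge_one H.zero H.mono j

lemma PS.pos (j : ℕ) : 0 < P j := lt_of_lt_of_le one_pos (H.one_le j)

lemma PS.G_slow (m : ℕ) (hm : m ≤ n1) :
    ∑ i ∈ Finset.range (m + 1), b ^ i / Real.sqrt (P i) ≤ 2 * (b ^ m / Real.sqrt (P m)) := by
  have hb := b_pos
  induction m with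
  | zero =>
    have := Real.sqrt_pos.2 (H.pos 0)
    have h : 0 ≤ b ^ 0 / Real.sqrt (P 0) := by positivity
    simp only [zero_add, Finset.range_one, Finset.sum_singleton]
    linarith
  | succ m ih =>
    rw [Finset.sum_range_succ]
    have h1 := ih (by omega)
    have hP := H.slow m (by omega)
    have hs0 := Real.sqrt_pos.2 (H.pos m)
    have hs1 := Real.sqrt_pos.2 (H.pos (m + 1))
    -- `4 g_m ≤ g_(m+1)`
    have h2 : 4 * (b ^ m / Real.sqrt (P m)) ≤ b ^ (m + 1) / Real.sqrt (P (m + 1)) := by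
      rw [le_div_iff₀ hs1]
      have h3 : 4 * Real.sqrt (P (m + 1)) ≤ b * Real.sqrt (P m) := by
        have h4 : 4 * Real.sqrt (P (m + 1)) = Real.sqrt (16 * P (m + 1)) := by
          rw [Real.sqrt_mul (by norm_num)]
          congr 1
          rw [show (16 : ℝ) = 4 ^ 2 by norm_num, Real.sqrt_sq (by norm_num)]
        have h5 : b * Real.sqrt (P m) = Real.sqrt (32 * P m) := by
          rw [Real.sqrt_mul (by norm_num)]
          rfl
        rw [h4, h5]
        refine Real.sqrt_le_sqrt ?_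
        linarith
      have h6 : 4 * (b ^ m / Real.sqrt (P m)) * Real.sqrt (P (m + 1))
          = b ^ m / Real.sqrt (P m) * (4 * Real.sqrt (P (m + 1))) := by ring
      rw [h6]
      calc b ^ m / Real.sqrt (P m) * (4 * Real.sqrt (P (m + 1)))
          ≤ b ^ m / Real.sqrt (P m) * (b * Real.sqrt (P m)) := by gcongr
        _ = b ^ (m + 1) := by
          field_simp
          ring
    have h7 : 0 ≤ b ^ (m + 1) / Real.sqrt (P (m + 1)) := by positivity
    linarith

lemma PS.G_fast (hs : 3 ≤ s) (m : ℕ) (hm : n1 ≤ m) :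
    ∑ i ∈ Finset.range (m + 1), b ^ i / Real.sqrt (P i)
      ≤ 6 * (b ^ n1 / Real.sqrt (P n1)) - 4 * (b ^ m / Real.sqrt (P m)) := by
  have hb := b_pos
  induction m, hm using Nat.le_induction with
  | base =>
    have := H.G_slow n1 le_rfl
    linarith
  | succ m hm ih =>
    rw [Finset.sum_range_succ]
    have hs0 := Real.sqrt_pos.2 (H.pos m)
    have hs1 := Real.sqrt_pos.2 (H.pos (m + 1))
    have h1 : 5 * (b ^ (m + 1) / Real.sqrt (P (m + 1))) ≤ 4 * (b ^ m / Real.sqrt (P m)) := by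
      have h2 : b ^ (m + 1) / Real.sqrt (P (m + 1)) * Real.sqrt (P (m + 1)) = b ^ (m + 1) := by
        field_simp
      have h3 : 5 * b * Real.sqrt (P m) ≤ 4 * Real.sqrt (P (m + 1)) := by
        have h4 : 4 * Real.sqrt (P (m + 1)) = Real.sqrt (16 * P (m + 1)) := by
          rw [Real.sqrt_mul (by norm_num)]
          congr 1
          rw [show (16 : ℝ) = 4 ^ 2 by norm_num, Real.sqrt_sq (by norm_num)]
        have h5 : 5 * b * Real.sqrt (P m) = Real.sqrt (800 * P m) := by
          have h6 : 5 * b = Real.sqrt 800 := by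
            have h7 : (800 : ℝ) = 5 ^ 2 * 32 := by norm_num
            rw [h7, Real.sqrt_mul (by norm_num), Real.sqrt_sq (by norm_num)]
            rfl
          rw [h6, Real.sqrt_mul (by norm_num)]
        rw [h4, h5]
        refine Real.sqrt_le_sqrt ?_
        rw [H.fast m hm]
        have h8 : (64 : ℝ) ≤ 4 ^ s := by
          calc (64 : ℝ) = 4 ^ 3 := by norm_num
            _ ≤ 4 ^ s := pow_le_pow_right₀ (by norm_num) hs
        nlinarith [H.one_le m]
      have h9 : b ^ (m + 1) / Real.sqrt (P (m + 1)) = b ^ m * b / Real.sqrt (P (m + 1)) := by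
        rw [pow_succ]
      rw [h9, ← mul_div_assoc, ← mul_div_assoc, div_le_div_iff₀ hs1 hs0]
      calc 5 * (b ^ m * b) * Real.sqrt (P m) = b ^ m * (5 * b * Real.sqrt (P m)) := by ring
        _ ≤ b ^ m * (4 * Real.sqrt (P (m + 1))) := by gcongr
        _ = 4 * b ^ m * Real.sqrt (P (m + 1)) := by ring
    linarith

lemma PS.flux (hs : 3 ≤ s) (hL : Monotone L) (hL0 : 0 ≤ L 0) {E : ℝ} (hE : 0 < E)
    (hκ : κ = 1 / (4000 * 16 ^ s) / Real.sqrt E) {J : ℕ} {a : Fin 3 → K3 → ℂ} (ha : Reg a)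
    (hsb : SB J a) (hΨ : ∑' k, ps P J k * nv a k ^ 2 ≤ 4 * E) (i : ℕ) :
    6 * ∑ j ∈ Finset.range (i + 2), (P (j + 1) - P j) * strA a (2 ^ (j + 1)) ≤ P i * L (i + 1) := by
  have hb := b_pos
  have hb6 := b_lt
  have hsE : 0 < Real.sqrt E := Real.sqrt_pos.2 hE
  set κ0 : ℝ := 1 / (4000 * 16 ^ s) with hκ0
  have hκ0p : 0 < κ0 := by positivity
  have hκE : κ * Real.sqrt E = κ0 := by
    rw [hκ]
    field_simp
  have hL1 : 0 ≤ L (i + 1) := hL0.trans (hL (Nat.zero_le _))
  have hstr := fun m => strain_le H.zero H.mono ha hsb hE.le hΨ m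
  have hD : ∀ j, 0 ≤ L j - L (j - 1) := fun j => sub_nonneg.2 (hL (Nat.sub_le _ _))
  -- each term
  have hterm : ∀ j ∈ Finset.range (i + 2), (P (j + 1) - P j) * strA a (2 ^ (j + 1))
      ≤ κ0 * 708 * P (i + 1) * (L j - L (j - 1))
        + (P (j + 1) - P j) * (354 * κ0 * L (i + 1)) := by
    intro j hj
    rw [Finset.mem_range] at hj
    have hc := c_nonneg H.mono j
    have hA : 0 ≤ κ0 * 708 * P (i + 1) * (L j - L (j - 1)) := by
      have := H.pos (i + 1)
      have := hD j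
      positivity
    have hB : 0 ≤ (P (j + 1) - P j) * (354 * κ0 * L (i + 1)) := by positivity
    by_cases hjn : j < n1
    · have h1 := H.G_slow (j + 1) (by omega)
      have hs0 := Real.sqrt_pos.2 (H.pos j)
      have hs1 := Real.sqrt_pos.2 (H.pos (j + 1))
      have h2 : b ^ (j + 1) / Real.sqrt (P (j + 1)) ≤ b * (b ^ j / Real.sqrt (P j)) := by
        rw [pow_succ, ← mul_div_assoc, mul_comm b (b ^ j)]
        refine div_le_div_of_nonneg_left (by positivity) hs0 ?_
        exact Real.sqrt_le_sqrt (H.mono j)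
      have h3 : strA a (2 ^ (j + 1)) ≤ 59 * Real.sqrt E * (2 * (b * (b ^ j / Real.sqrt (P j)))) := by
        refine (hstr (j + 1)).trans ?_
        refine mul_le_mul_of_nonneg_left ?_ (by positivity)
        linarith
      have h4 : (P (j + 1) - P j) * strA a (2 ^ (j + 1))
          ≤ (κ * (L j - L (j - 1)) / b ^ j * (P j * Real.sqrt (P j)))
            * (59 * Real.sqrt E * (2 * (b * (b ^ j / Real.sqrt (P j))))) := by
        refine mul_le_mul (H.slow' j hjn) h3 (strA_nonneg a _) ?_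
        exact hc.trans (H.slow' j hjn)
      have h5 : (κ * (L j - L (j - 1)) / b ^ j * (P j * Real.sqrt (P j)))
            * (59 * Real.sqrt E * (2 * (b * (b ^ j / Real.sqrt (P j)))))
          = κ0 * 118 * b * P j * (L j - L (j - 1)) := by
        rw [← hκE]
        field_simp
        ring
      rw [h5] at h4
      have h6 : κ0 * 118 * b * P j * (L j - L (j - 1))
          ≤ κ0 * 708 * P (i + 1) * (L j - L (j - 1)) := by
        refine mul_le_mul_of_nonneg_right ?_ (hD j)
        have h7 : P j ≤ P (i + 1) := P_mono H.mono (by omega)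
        have h8 : b * P j ≤ 6 * P (i + 1) :=
          mul_le_mul hb6.le h7 (H.pos j).le (by norm_num)
        calc κ0 * 118 * b * P j = κ0 * 118 * (b * P j) := by ring
          _ ≤ κ0 * 118 * (6 * P (i + 1)) := by gcongr
          _ = κ0 * 708 * P (i + 1) := by ring
      linarith
    · have hjn' : n1 ≤ j := not_lt.1 hjn
      have h1 := H.G_fast hs (j + 1) (by omega)
      have hs1 := Real.sqrt_pos.2 (H.pos (j + 1))
      have hsn := Real.sqrt_pos.2 (H.pos n1)
      have h2 : 0 ≤ b ^ (j + 1) / Real.sqrt (P (j + 1)) := by positivity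
      have h3 : strA a (2 ^ (j + 1)) ≤ 59 * Real.sqrt E * (6 * (b ^ n1 / Real.sqrt (P n1))) := by
        refine (hstr (j + 1)).trans ?_
        refine mul_le_mul_of_nonneg_left ?_ (by positivity)
        linarith
      have h4 : Real.sqrt E * (b ^ n1 / Real.sqrt (P n1)) ≤ κ0 * L (i + 1) := by
        have h5 := H.stop
        have h6 : b ^ n1 / Real.sqrt (P n1) ≤ κ * L n1 := by
          rw [div_le_iff₀ hsn]
          exact h5.le
        have h7 : L n1 ≤ L (i + 1) := hL (by omega)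
        calc Real.sqrt E * (b ^ n1 / Real.sqrt (P n1)) ≤ Real.sqrt E * (κ * L n1) := by gcongr
          _ = κ0 * L n1 := by rw [← hκE]; ring
          _ ≤ κ0 * L (i + 1) := by gcongr
      have h8 : strA a (2 ^ (j + 1)) ≤ 354 * κ0 * L (i + 1) := by
        calc strA a (2 ^ (j + 1)) ≤ 59 * Real.sqrt E * (6 * (b ^ n1 / Real.sqrt (P n1))) := h3
          _ = 354 * (Real.sqrt E * (b ^ n1 / Real.sqrt (P n1))) := by ring
          _ ≤ 354 * (κ0 * L (i + 1)) := by gcongr
          _ = _ := by ring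
      have := mul_le_mul_of_nonneg_left h8 hc
      linarith
  have hsumL : ∀ n : ℕ, ∑ j ∈ Finset.range (n + 1), (L j - L (j - 1)) = L n - L 0 := by
    intro n
    induction n with
    | zero => simp
    | succ n ih =>
      rw [Finset.sum_range_succ, ih]
      simp
  have h1 := Finset.sum_le_sum hterm
  rw [Finset.sum_add_distrib, ← Finset.mul_sum, ← Finset.sum_mul, hsumL (i + 1),
    sum_c H.zero] at h1
  have h2 : P (i + 1) ≤ 4 ^ s * P i := H.le i
  have h3 : P (i + 2) ≤ 16 ^ s * P i := by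
    have h4 := H.le (i + 1)
    have h5 : (16 : ℝ) ^ s = 4 ^ s * 4 ^ s := by rw [← mul_pow]; norm_num
    calc P (i + 2) ≤ 4 ^ s * P (i + 1) := h4
      _ ≤ 4 ^ s * (4 ^ s * P i) := by gcongr
      _ = 16 ^ s * P i := by rw [h5]; ring
  have h6 : κ0 * 708 * P (i + 1) * (L (i + 1) - L 0) ≤ κ0 * 708 * (4 ^ s * P i) * L (i + 1) := by
    have := H.pos (i + 1)
    refine mul_le_mul ?_ (by linarith) (sub_nonneg.2 (hL (Nat.zero_le _))) ?_
    · gcongr
    · have := H.pos i
      positivity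
  have h7 : (P (i + 1 + 1) - 1) * (354 * κ0 * L (i + 1)) ≤ (16 ^ s * P i) * (354 * κ0 * L (i + 1)) := by
    refine mul_le_mul_of_nonneg_right ?_ (by positivity)
    have h8 : P (i + 1 + 1) = P (i + 2) := rfl
    rw [h8]
    linarith
  have h9 : (64 : ℝ) * 4 ^ s ≤ 16 ^ s := by
    have h10 : (16 : ℝ) ^ s = 4 ^ s * 4 ^ s := by rw [← mul_pow]; norm_num
    rw [h10]
    have h11 : (64 : ℝ) ≤ 4 ^ s := by
      calc (64 : ℝ) = 4 ^ 3 := by norm_num
        _ ≤ 4 ^ s := pow_le_pow_right₀ (by norm_num) hs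
    gcongr
  have h12 : 6 * (κ0 * 708 * (4 ^ s * P i) * L (i + 1) + (16 ^ s * P i) * (354 * κ0 * L (i + 1)))
      ≤ P i * L (i + 1) := by
    have h13 : 6 * (κ0 * 708 * (4 ^ s * P i) * L (i + 1)
        + (16 ^ s * P i) * (354 * κ0 * L (i + 1)))
        = (κ0 * (4248 * 4 ^ s + 2124 * 16 ^ s)) * (P i * L (i + 1)) := by ring
    rw [h13]
    have h14 : κ0 * (4248 * 4 ^ s + 2124 * 16 ^ s) ≤ 1 := by
      rw [hκ0, one_div, inv_mul_le_iff₀ (by positivity)]
      have : (0 : ℝ) < 16 ^ s := by positivity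
      nlinarith
    have h15 : 0 ≤ P i * L (i + 1) := mul_nonneg (H.pos i).le hL1
    nlinarith
  linarith

end PS

end Pool.Agent.R211.HV
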