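import Pool.Agent.R211.HV.Ode

/-!
The solutions of the Galerkin systems: the energy of the modes.
-/

set_option autoImplicit false

open Set Filter Topology MeasureTheory
open scoped ComplexConjugate ENNReal NNReal ContDiff

namespace Pool.Agent.R211.HV

open Pool.Agent.Y302.Trunc (K3)
open Pool.Agent.Y302.Tri
open Pool.Agent.R211.WN
open Pool.Agent.R211.SV (Pj abs_Pj_le sum_Pj Pj_neg)

/-- The field is supported in `B`. -/
def Sp (B : Finset K3) (a : Fin 3 → K3 → ℂ) : Prop := ∀ i, ∀ k ∉ B, a i k = 0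

lemma Sp.nv_zero {B : Finset K3} {a : Fin 3 → K3 → ℂ} (h : Sp B a) {k : K3} (hk : k ∉ B) :
    nv a k = 0 := by
  unfold nv
  simp [h _ k hk]

lemma Sp.reg {B : Finset K3} {a : Fin 3 → K3 → ℂ} (h : Sp B a)
    (hc : ∀ i k, conj (a i k) = a i (-k)) (hd : ∀ p, dt a p p = 0) : Reg a where
  cj := hc
  div := hd
  s0 i := summable_of_ne_finset_zero (s := B) fun k hk => by rw [h i k hk, norm_zero]
  s1 i := summable_of_ne_finset_zero (s := B) fun k hk => by rw [h i k hk, norm_zero, mul_zero]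

lemma sum_conj_Pj {a : Fin 3 → K3 → ℂ} (ha : Reg a) (k : K3) (j : Fin 3) :
    ∑ i, conj (a i k) * (Pj k i j : ℂ) = conj (a j k) := by
  have hdiv : ∑ i, conj (a i k) * (k i : ℂ) = 0 := by
    have h1 := congrArg conj (ha.div k)
    unfold dt at h1
    rw [map_sum, map_zero] at h1
    rw [← h1]
    refine Finset.sum_congr rfl fun i _ => ?_
    rw [map_mul, map_intCast]
  have h2 : ∀ i, conj (a i k) * (Pj k i j : ℂ)
      = (if i = j then conj (a i k) else 0)
        - (conj (a i k) * (k i : ℂ)) * (((k j : ℝ) / ∑ l, (k l : ℝ) ^ 2 : ℝ) : ℂ) := by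
    intro i
    unfold Pj
    split_ifs
    · push_cast
      ring
    · push_cast
      ring
  simp only [h2, Finset.sum_sub_distrib]
  rw [← Finset.sum_mul, hdiv, zero_mul, sub_zero, Finset.sum_ite_eq']
  simp

/-- The nonlinear term and the flux. -/
lemma re_nlB {B : Finset K3} {a : Fin 3 → K3 → ℂ} (ha : Reg a) (hs : Sp B a) (k : K3) :
    (∑ i, conj (a i k) * nlB B a k i).re = -flx a k := by
  have h1 : ∑ i, conj (a i k) * nlB B a k i = ∑ l ∈ B, Complex.I * xx a (k, l) := by
    unfold nlB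
    calc ∑ i, conj (a i k) * ∑ j, ∑ m, (Complex.I * (k m : ℂ) * (Pj k i j : ℂ))
          * ∑ l ∈ B, a j l * a m (k - l)
        = ∑ j, (∑ i, conj (a i k) * (Pj k i j : ℂ)) * ∑ m, (Complex.I * (k m : ℂ))
          * ∑ l ∈ B, a j l * a m (k - l) := by
          simp only [Finset.mul_sum, Finset.sum_mul]
          rw [Finset.sum_comm]
          refine Finset.sum_congr rfl fun j _ => ?_
          rw [Finset.sum_comm]
          refine Finset.sum_congr rfl fun m _ => ?_
          rw [Finset.sum_comm]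
          refine Finset.sum_congr rfl fun l _ => ?_
          refine Finset.sum_congr rfl fun i _ => ?_
          ring
      _ = ∑ j, conj (a j k) * ∑ m, (Complex.I * (k m : ℂ)) * ∑ l ∈ B, a j l * a m (k - l) := by
          simp only [sum_conj_Pj ha]
      _ = ∑ l ∈ B, Complex.I * xx a (k, l) := by
          simp only [Finset.mul_sum]
          have h2 : ∀ l, Complex.I * xx a (k, l)
              = ∑ j, ∑ m, conj (a j k) * (Complex.I * (k m : ℂ) * (a j l * a m (k - l))) := by
            intro l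
            unfold xx
            simp only
            rw [dt_right ha]
            unfold dt
            rw [Finset.sum_mul_sum, Finset.sum_comm, Finset.mul_sum]
            refine Finset.sum_congr rfl fun j _ => ?_
            rw [Finset.mul_sum]
            refine Finset.sum_congr rfl fun m _ => ?_
            ring
          simp only [h2]
          symm
          rw [Finset.sum_comm]
          refine Finset.sum_congr rfl fun j _ => ?_
          rw [Finset.sum_comm]
  rw [h1, Complex.re_sum]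
  unfold flx
  rw [tsum_eq_sum (s := B) fun l hl => ?_]
  · rw [← Finset.sum_neg_distrib]
    refine Finset.sum_congr rfl fun l _ => ?_
    simp
  · unfold xx
    simp [hs _ l hl]

/-- The evolution of the energy of a mode. -/
lemma mode_deriv {B : Finset K3} {A : ℝ → Fin 3 → K3 → ℂ} {T t χ dk : ℝ} (ha : Reg (A t))
    (hs : Sp B (A t)) {k : K3}
    (h : ∀ i, HasDerivWithinAt (fun s => A s i k)
      ((χ : ℂ) * (-(dk : ℂ) * A t i k - nlB B (A t) k i)) (Icc 0 T) t) :
    HasDerivWithinAt (fun s => nv (A s) k ^ 2)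
      (χ * (-2 * dk * nv (A t) k ^ 2 + 2 * flx (A t) k)) (Icc 0 T) t := by
  have hsq : ∀ i, HasDerivWithinAt (fun s => ‖A s i k‖ ^ 2)
      (2 * (conj (A t i k) * ((χ : ℂ) * (-(dk : ℂ) * A t i k - nlB B (A t) k i))).re)
      (Icc 0 T) t := by
    intro i
    refine (h i).norm_sq.congr_deriv ?_
    rw [Complex.inner]
    congr 2
    exact mul_comm _ _
  have hsum := HasDerivWithinAt.fun_sum (u := (Finset.univ : Finset (Fin 3))) fun i _ => hsq i
  have e0 : (fun s => nv (A s) k ^ 2) = fun s => ∑ i, ‖A s i k‖ ^ 2 := by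
    funext s
    rw [nv_sq]
  rw [e0]
  refine hsum.congr_deriv ?_
  rw [← Finset.mul_sum, ← Complex.re_sum]
  have hA : ∑ i, conj (A t i k) * ((χ : ℂ) * (-(dk : ℂ) * A t i k - nlB B (A t) k i))
      = ((χ * (-dk * nv (A t) k ^ 2) : ℝ) : ℂ)
        - (χ : ℂ) * ∑ i, conj (A t i k) * nlB B (A t) k i := by
    rw [nv_sq]
    push_cast
    rw [Finset.mul_sum, Finset.mul_sum, Finset.mul_sum, ← Finset.sum_sub_distrib]
    refine Finset.sum_congr rfl fun i _ => ?_
    rw [← Complex.conj_mul']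
    ring
  rw [hA, Complex.sub_re, Complex.ofReal_re, Complex.re_ofReal_mul, re_nlB ha hs]
  ring

lemma en_eq (B : Finset K3) (x : XB B) : en B x = ∑ k ∈ B, nv (ext B x) k ^ 2 := by
  rw [← Finset.sum_coe_sort B]
  unfold en
  refine Finset.sum_congr rfl fun k _ => ?_
  rw [nv_sq]
  refine Finset.sum_congr rfl fun i _ => ?_
  have h1 : ext B x i k = x k i := by
    unfold ext
    rw [dif_pos k.2]
  rw [h1, Complex.sq_norm, Complex.normSq_apply]
  ring

lemma ext_sp (B : Finset K3) (x : XB B) : Sp B (ext B x) := fun i k hk => by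
  unfold ext
  rw [dif_neg hk]

/-- The Galerkin systems have global solutions. -/
theorem galerkin {B : Finset K3} (hB : ∀ k ∈ B, -k ∈ B) {d : K3 → ℝ} (hd0 : ∀ k, 0 ≤ d k)
    (hde : ∀ k, d (-k) = d k) {T : ℝ} (hT : 0 ≤ T) {a0 : Fin 3 → K3 → ℂ}
    (hc0 : ∀ i k, conj (a0 i k) = a0 i (-k)) (hdiv0 : ∀ p, dt a0 p p = 0) :
    ∃ A : ℝ → Fin 3 → K3 → ℂ, (∀ i, ∀ k ∈ B, A 0 i k = a0 i k) ∧ (∀ t, Sp B (A t)) ∧
      (∀ t ∈ Icc 0 T, Reg (A t)) ∧
      ∀ t ∈ Icc 0 T, ∀ i, ∀ k ∈ B, HasDerivWithinAt (fun s => A s i k)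
        (-(d k : ℂ) * A t i k - nlB B (A t) k i) (Icc 0 T) t := by
  set x0 : XB B := fun k i => a0 i k with hx0
  set R : ℝ := en B x0 + 1 with hR
  have hen0 : ∀ x : XB B, 0 ≤ en B x := fun x =>
    Finset.sum_nonneg fun k _ => Finset.sum_nonneg fun i _ => by positivity
  have hRp : 0 < R := by have := hen0 x0; linarith
  obtain ⟨α, hα0, hα⟩ := exists_sol d hRp hT x0
  have hfl0 : fl hB (α 0) = α 0 := by
    rw [hα0]
    funext k i
    show conj (a0 i (-k.1)) = a0 i k
    rw [hc0, neg_neg]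
  have hreal := sol_real hB hde hRp hfl0 hα
  have hdiv := sol_div hd0 (fun k => by
    rw [hα0]
    have h := hdiv0 k
    unfold dt at h
    rw [← h]
    exact Finset.sum_congr rfl fun i _ => mul_comm _ _) hα
  set A : ℝ → Fin 3 → K3 → ℂ := fun t => ext B (α t) with hA
  have hsp : ∀ t, Sp B (A t) := fun t => ext_sp B _
  have hreg : ∀ t ∈ Icc 0 T, Reg (A t) := by
    intro t ht
    refine (hsp t).reg (fun i k => ?_) fun p => ?_
    · have h1 := ext_fl hB (α t) i (-k)
      rw [hreal t ht, neg_neg] at h1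
      exact h1.symm
    · unfold dt
      by_cases hp : p ∈ B
      · have h1 := hdiv ⟨p, hp⟩ t ht
        rw [← h1]
        refine Finset.sum_congr rfl fun i _ => ?_
        have h2 : A t i p = α t ⟨p, hp⟩ i := dif_pos hp
        rw [h2, mul_comm]
      · exact Finset.sum_eq_zero fun i _ => by rw [hsp t i p hp, zero_mul]
  have hder : ∀ t ∈ Icc 0 T, ∀ i, ∀ k ∈ B, HasDerivWithinAt (fun s => A s i k)
      ((chi B R (α t) : ℂ) * (-(d k : ℂ) * A t i k - nlB B (A t) k i)) (Icc 0 T) t := by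
    intro t ht i k hk
    have h1 := hasDerivWithinAt_pi.1 (hasDerivWithinAt_pi.1 (hα t ht) ⟨k, hk⟩) i
    have h2 : ∀ s, A s i k = α s ⟨k, hk⟩ i := fun s => dif_pos hk
    simp only [h2]
    exact h1
  -- the energy
  have hE : ∀ t ∈ Icc 0 T, HasDerivWithinAt (fun s => ∑ k ∈ B, nv (A s) k ^ 2)
      (∑ k ∈ B, chi B R (α t) * (-2 * d k * nv (A t) k ^ 2 + 2 * flx (A t) k)) (Icc 0 T) t := by
    intro t ht
    exact HasDerivWithinAt.fun_sum fun k hk =>
      mode_deriv (hreg t ht) (hsp t) fun i => hder t ht i k hk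
  have hE' : ∀ t ∈ Icc 0 T,
      ∑ k ∈ B, chi B R (α t) * (-2 * d k * nv (A t) k ^ 2 + 2 * flx (A t) k) ≤ 0 := by
    intro t ht
    rw [← Finset.mul_sum]
    refine mul_nonpos_of_nonneg_of_nonpos (chi_nonneg _ _) ?_
    have h1 : ∑ k ∈ B, flx (A t) k = 0 := by
      have h2 := tri_one (hreg t ht)
      have h3 := tsum_w_flx (hreg t ht) (w := fun _ => 1) (by
        simpa using summable_nv (hreg t ht))
      simp only [one_mul] at h3
      rw [h3] at h2
      rw [← h2]
      refine (tsum_eq_sum fun k hk => ?_).symm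
      exact flx_zero (hreg t ht) ((hsp t).nv_zero hk)
    rw [Finset.sum_add_distrib, ← Finset.mul_sum, h1, mul_zero, add_zero]
    refine Finset.sum_nonpos fun k _ => ?_
    have := hd0 k
    have : 0 ≤ d k * nv (A t) k ^ 2 := by positivity
    linarith
  have hanti : AntitoneOn (fun s => ∑ k ∈ B, nv (A s) k ^ 2) (Icc 0 T) := by
    refine antitoneOn_of_hasDerivWithinAt_nonpos (convex_Icc 0 T)
      (fun t ht => (hE t ht).continuousWithinAt)
      (f' := fun t => ∑ k ∈ B, chi B R (α t) * (-2 * d k * nv (A t) k ^ 2 + 2 * flx (A t) k))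
      (fun t ht => ?_) fun t ht => hE' t (interior_subset ht)
    exact (hE t (interior_subset ht)).mono interior_subset
  have hchi : ∀ t ∈ Icc 0 T, chi B R (α t) = 1 := by
    intro t ht
    have h1 := hanti ⟨le_rfl, ht.1.trans ht.2⟩ ht ht.1
    simp only [hA] at h1
    rw [← en_eq, ← en_eq, hα0] at h1
    unfold chi
    refine Real.smoothTransition.one_of_one_le ?_
    have h2 : en B (α t) / R ≤ 1 := by
      rw [div_le_one hRp]
      linarith
    linarith
  refine ⟨A, fun i k hk => ?_, hsp, hreg, fun t ht i k hk => ?_⟩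
  · have h2 : A 0 i k = α 0 ⟨k, hk⟩ i := dif_pos hk
    rw [h2, hα0]
  · have h1 := hder t ht i k hk
    rw [hchi t ht, Complex.ofReal_one, one_mul] at h1
    exact h1

end Pool.Agent.R211.HV
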