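import Pool.Agent.R211.HV.Bd

/-!
The limit of the solutions of the Galerkin systems.
-/

set_option autoImplicit false

open Set Filter Topology MeasureTheory
open scoped ComplexConjugate ENNReal NNReal ContDiff

namespace Pool.Agent.R211.HV

open Pool.Agent.Y302.Trunc (K3)
open Pool.Agent.Y302.Tri
open Pool.Agent.R211.WN
open Pool.Agent.R211.SV (Pj)

/-- The nonlinear term. -/
noncomputable def nlI (a : Fin 3 → K3 → ℂ) (k : K3) (i : Fin 3) : ℂ :=
  ∑ j, ∑ m, (Complex.I * (k m : ℂ) * (Pj k i j : ℂ)) * ∑' l, a j l * a m (k - l)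

/-- The right hand side of the equation. -/
noncomputable def rhsI (d : K3 → ℝ) (a : Fin 3 → K3 → ℂ) (i : Fin 3) (k : K3) : ℂ :=
  -(d k : ℂ) * a i k - nlI a k i

lemma neg_mem_box {R : ℝ} {k : K3} (hk : k ∈ box R) : -k ∈ box R := by
  unfold box at hk ⊢
  rw [Fintype.mem_piFinset] at hk ⊢
  intro j
  have h := hk j
  rw [Finset.mem_Icc] at h ⊢
  rw [Pi.neg_apply]
  constructor <;> omega

/-- A global solution of the equations for the coefficients. -/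
structure CSol (d : K3 → ℝ) (a0 : Fin 3 → K3 → ℂ) (A : ℝ → Fin 3 → K3 → ℂ) : Prop where
  init : ∀ i k, A 0 i k = a0 i k
  decay : ∀ p T, ∃ C, ∀ t ∈ Icc 0 T, Dc p C (A t)
  real : ∀ t, 0 ≤ t → ∀ i k, conj (A t i k) = A t i (-k)
  div : ∀ t, 0 ≤ t → ∀ p, dt (A t) p p = 0
  quad : ∀ T, ∃ M, ∀ s ∈ Icc 0 T, ∀ t ∈ Icc 0 T, ∀ i k,
    ‖A t i k - A s i k - ((t - s : ℝ) : ℂ) * rhsI d (A s) i k‖ ≤ M * (t - s) ^ 2

lemma GSol.mono {B : Finset K3} {d : K3 → ℝ} {T T' : ℝ} {a0 : Fin 3 → K3 → ℂ}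
    {A : ℝ → Fin 3 → K3 → ℂ} (h : GSol B d T a0 A) (hT : T' ≤ T) : GSol B d T' a0 A where
  init := h.init
  sp := h.sp
  reg t ht := h.reg t (Icc_subset_Icc_right hT ht)
  der t ht i k hk := (h.der t (Icc_subset_Icc_right hT ht) i k hk).mono (Icc_subset_Icc_right hT)

lemma norm_le_nv (a : Fin 3 → K3 → ℂ) (i : Fin 3) (k : K3) : ‖a i k‖ ≤ nv a k := by
  unfold nv
  refine Real.le_sqrt_of_sq_le ?_
  exact Finset.single_le_sum (f := fun i => ‖a i k‖ ^ 2) (fun i _ => sq_nonneg _)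
    (Finset.mem_univ i)

/-- Bounds of all orders for the Galerkin solutions, on bounded time intervals. -/
lemma all_bounds {d : K3 → ℝ} {a0 : Fin 3 → K3 → ℂ} (hd0 : ∀ k, 0 ≤ d k)
    (hdec : ∀ p, ∃ C, Dc p C a0) {Z : ℝ}
    (hZ : ∀ (B : Finset K3) (T : ℝ) (A : ℝ → Fin 3 → K3 → ℂ), GSol B d T a0 A →
      ∀ t ∈ Ico 0 T, ∑ k ∈ B, kn k ^ (2 * 3) * nv (A t) k ^ 2 ≤ Z ∧
        ∑ k ∈ B, nv (A t) k ^ 2 ≤ Z) (p : ℕ) (T0 : ℝ) :
    ∃ C, ∀ (B : Finset K3) (T : ℝ) (A : ℝ → Fin 3 → K3 → ℂ), GSol B d T a0 A →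
      ∀ t ∈ Ico 0 T, t ≤ T0 → Dc p C (A t) := by
  set s := p + 1 with hs
  have hsum : Summable fun k => kn k ^ (2 * s) * nv a0 k ^ 2 := by
    obtain ⟨C, hC⟩ := hdec (4 + 2 * s)
    exact RB.summable_w2 (C := C) hC le_rfl
  set Y : ℝ := ∑' k, kn k ^ (2 * s) * nv a0 k ^ 2 with hY
  have hY0 : 0 ≤ Y := tsum_nonneg fun k => by have := kn_nonneg k; positivity
  set lam : ℝ := 12 * s * 2 ^ s * (Real.sqrt K4 * Real.sqrt Z) with hlam
  have hlam0 : 0 ≤ lam := by positivity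
  set M : ℝ := Y * Real.exp (lam * T0) + Z with hM
  refine ⟨Real.sqrt (9 ^ s * M), fun B T A hA t ht htT i k => ?_⟩
  obtain ⟨hZ1, hZ2⟩ := hZ B T A hA t ht
  have hh := hA.high hd0 (fun t ht => (hZ B T A hA t ht).1) (s := s) (by omega) ht
  have h1 : ∑ k ∈ B, kn k ^ (2 * s) * nv (A t) k ^ 2 ≤ Y * Real.exp (lam * T0) := by
    refine hh.trans (mul_le_mul ?_ ?_ (Real.exp_pos _).le hY0)
    · exact hsum.sum_le_tsum B fun k _ => by have := kn_nonneg k; positivity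
    · exact Real.exp_le_exp.2 (mul_le_mul_of_nonneg_left htT hlam0)
  have hk1 : (kn k ^ (2 * s) + 1) * nv (A t) k ^ 2 ≤ M := by
    by_cases hk : k ∈ B
    · have h2 : kn k ^ (2 * s) * nv (A t) k ^ 2 ≤ ∑ k ∈ B, kn k ^ (2 * s) * nv (A t) k ^ 2 :=
        Finset.single_le_sum (f := fun k => kn k ^ (2 * s) * nv (A t) k ^ 2)
          (fun k _ => by have := kn_nonneg k; positivity) hk
      have h3 : nv (A t) k ^ 2 ≤ ∑ k ∈ B, nv (A t) k ^ 2 :=
        Finset.single_le_sum (f := fun k => nv (A t) k ^ 2) (fun k _ => sq_nonneg _) hk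
      rw [add_mul, one_mul]
      linarith
    · rw [(hA.sp t).nv_zero hk]
      have hZ0 : 0 ≤ Z := (Finset.sum_nonneg fun k _ => sq_nonneg _).trans hZ2
      have : 0 ≤ M := by positivity
      simpa using this
  have h4 : wt k ^ p ≤ wt k ^ s := pow_le_pow_right₀ (one_le_wt k) (by omega)
  have hw : 0 < wt k ^ p := pow_pos (wt_pos k) p
  calc wt k ^ p * ‖A t i k‖ ≤ wt k ^ s * nv (A t) k :=
        mul_le_mul h4 (norm_le_nv _ i k) (norm_nonneg _) (hw.le.trans h4)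
    _ ≤ Real.sqrt (9 ^ s * M) := by
        refine Real.le_sqrt_of_sq_le ?_
        have hJ1 := J_pow_le s k
        calc (wt k ^ s * nv (A t) k) ^ 2 = (1 + N1 k) ^ (2 * s) * nv (A t) k ^ 2 := by
              unfold wt
              rw [mul_pow, ← pow_mul, mul_comm s 2]
          _ ≤ 9 ^ s * (kn k ^ (2 * s) + 1) * nv (A t) k ^ 2 := by gcongr
          _ = 9 ^ s * ((kn k ^ (2 * s) + 1) * nv (A t) k ^ 2) := by ring
          _ ≤ 9 ^ s * M := by gcongr

theorem exists_limit {d : K3 → ℝ} {D : ℝ} {K : ℕ} (hd0 : ∀ k, 0 ≤ d k)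
    (hde : ∀ k, d (-k) = d k) (hdb : ∀ k, |d k| ≤ D * wt k ^ K) {a0 : Fin 3 → K3 → ℂ}
    (hdec : ∀ p, ∃ C, Dc p C a0) (hc0 : ∀ i k, conj (a0 i k) = a0 i (-k))
    (hdv0 : ∀ p, dt a0 p p = 0) {Z : ℝ}
    (hZ : ∀ (B : Finset K3) (T : ℝ) (A : ℝ → Fin 3 → K3 → ℂ), GSol B d T a0 A →
      ∀ t ∈ Ico 0 T, ∑ k ∈ B, kn k ^ (2 * 3) * nv (A t) k ^ 2 ≤ Z ∧
        ∑ k ∈ B, nv (A t) k ^ 2 ≤ Z) : ∃ A : ℝ → Fin 3 → K3 → ℂ, CSol d a0 A := by
  -- the Galerkin solutions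
  have hex : ∀ n : ℕ, ∃ A : ℝ → Fin 3 → K3 → ℂ, GSol (box (n : ℝ)) d (n + 1) a0 A := by
    intro n
    obtain ⟨A, h1, h2, h3, h4⟩ := galerkin (B := box (n : ℝ)) (fun k hk => neg_mem_box hk) hd0 hde
      (T := n + 1) (by positivity) hc0 hdv0
    exact ⟨A, h1, h2, h3, h4⟩
  choose An hAn using hex
  -- uniform bounds
  have hbd : ∀ (p : ℕ) (T0 : ℝ), ∃ C, ∀ (n : ℕ), ∀ t ∈ Ico (0 : ℝ) (n + 1), t ≤ T0 →
      Dc p C (An n t) := by
    intro p T0
    obtain ⟨C, hC⟩ := all_bounds hd0 hdec hZ p T0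
    exact ⟨C, fun n t ht htT => hC _ _ _ (hAn n) t ht htT⟩
  choose Cp hCp using hbd
  -- the ultrafilter
  set U : Ultrafilter ℕ := hyperfilter ℕ with hU
  have hUt : (U : Filter ℕ) ≤ atTop := Nat.hyperfilter_le_atTop
  have hevT : ∀ T : ℝ, ∀ᶠ n : ℕ in (U : Filter ℕ), T ≤ n := by
    intro T
    refine hUt ?_
    filter_upwards [eventually_ge_atTop ⌈T⌉₊] with n hn
    have h1 : (⌈T⌉₊ : ℝ) ≤ n := by exact_mod_cast hn
    exact (Nat.le_ceil T).trans h1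
  have hev : ∀ t : ℝ, 0 ≤ t → ∀ᶠ n : ℕ in (U : Filter ℕ), t ∈ Ico (0 : ℝ) (n + 1) := by
    intro t ht
    filter_upwards [hevT t] with n hn
    exact ⟨ht, by linarith⟩
  have hevk : ∀ k : K3, ∀ᶠ n : ℕ in (U : Filter ℕ), k ∈ box (n : ℝ) := by
    intro k
    filter_upwards [hevT (kn k)] with n hn
    exact mem_box hn
  have hlim : ∀ (t : ℝ) (i : Fin 3) (k : K3), ∃ z : ℂ, 0 ≤ t →
      Tendsto (fun n : ℕ => An n t i k) (U : Filter ℕ) (𝓝 z) := by
    intro t i k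
    by_cases ht : 0 ≤ t
    · have h1 : ∀ᶠ n : ℕ in (U : Filter ℕ), An n t i k ∈ Metric.closedBall (0 : ℂ) (Cp 0 t) := by
        filter_upwards [hev t ht] with n hn
        rw [mem_closedBall_zero_iff]
        have := hCp 0 t n t hn le_rfl i k
        simpa using this
      obtain ⟨z, -, hz⟩ := (isCompact_closedBall (0 : ℂ) (Cp 0 t)).ultrafilter_le_nhds
        (U.map fun n : ℕ => An n t i k) (le_principal_iff.2 h1)
      exact ⟨z, fun _ => hz⟩
    · exact ⟨0, fun h => absurd h ht⟩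
  choose A hA using hlim
  have hdecA : ∀ p T, ∀ t ∈ Icc 0 T, Dc p (Cp p T) (A t) := by
    intro p T t ht i k
    have h1 := ((hA t i k ht.1).norm).const_mul (wt k ^ p)
    refine le_of_tendsto h1 ?_
    filter_upwards [hev t ht.1] with n hn
    exact hCp p T n t hn ht.2 i k
  -- the nonlinear term
  have hnl : ∀ t, 0 ≤ t → ∀ i k, Tendsto (fun n : ℕ => rhs (box (n : ℝ)) d (An n t) i k)
      (U : Filter ℕ) (𝓝 (rhsI d (A t) i k)) := by
    intro t ht i k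
    unfold rhs rhsI nlB nlI
    refine ((hA t i k ht).const_mul _).sub ?_
    refine tendsto_finsetSum _ fun j _ => tendsto_finsetSum _ fun m _ =>
      Tendsto.const_mul _ ?_
    have h1 : ∀ n : ℕ, ∑ l ∈ box (n : ℝ), An n t j l * An n t m (k - l)
        = ∑' l, An n t j l * An n t m (k - l) := by
      intro n
      refine (tsum_eq_sum fun l hl => ?_).symm
      rw [(hAn n).sp t j l hl, zero_mul]
    simp only [h1]
    refine tendsto_tsum_of_dominated_convergence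
      (bound := fun l => (Cp 4 t * (wt l ^ 4)⁻¹) * Cp 0 t) ?_ (fun l => ?_) ?_
    · exact (summable_wt4.mul_left _).mul_right _
    · exact (hA t j l ht).mul (hA t m (k - l) ht)
    · filter_upwards [hev t ht] with n hn l
      rw [norm_mul]
      have h2 := (hCp 4 t n t hn le_rfl).norm_le j l
      have h3 := hCp 0 t n t hn le_rfl m (k - l)
      rw [pow_zero, one_mul] at h3
      exact mul_le_mul h2 h3 (norm_nonneg _) ((norm_nonneg _).trans h2)
  refine ⟨A, ⟨fun i k => ?_, fun p T => ⟨Cp p T, hdecA p T⟩, fun t ht i k => ?_,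
    fun t ht p => ?_, fun T => ?_⟩⟩
  · refine tendsto_nhds_unique (hA 0 i k le_rfl) ?_
    refine tendsto_const_nhds.congr' ?_
    filter_upwards [hevk k] with n hn
    exact ((hAn n).init i k hn).symm
  · have h1 : Tendsto (fun n : ℕ => conj (An n t i k)) (U : Filter ℕ) (𝓝 (conj (A t i k))) :=
      (Complex.continuous_conj.tendsto _).comp (hA t i k ht)
    refine tendsto_nhds_unique h1 ((hA t i (-k) ht).congr' ?_)
    filter_upwards [hev t ht] with n hn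
    exact (((hAn n).reg t (Ico_subset_Icc_self hn)).cj i k).symm
  · have h1 : Tendsto (fun n : ℕ => dt (An n t) p p) (U : Filter ℕ) (𝓝 (dt (A t) p p)) := by
      unfold dt
      exact tendsto_finsetSum _ fun j _ => (hA t j p ht).mul_const _
    refine tendsto_nhds_unique h1 (tendsto_const_nhds.congr' ?_)
    filter_upwards [hev t ht] with n hn
    exact (((hAn n).reg t (Ico_subset_Icc_self hn)).div p).symm
  · set T1 : ℝ := T + 1 with hT1
    set C : ℝ := Cp (5 + K + 5 + K) T1 with hC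
    set M1 : ℝ := D * C + 9 * (C * C * W4) with hM1
    refine ⟨D * M1 + 18 * (Cp (5 + K) T1 * M1 * W4), fun s hs t ht i k => ?_⟩
    have h1 : Tendsto (fun n : ℕ => ‖An n t i k - An n s i k
        - ((t - s : ℝ) : ℂ) * rhs (box (n : ℝ)) d (An n s) i k‖) (U : Filter ℕ)
        (𝓝 ‖A t i k - A s i k - ((t - s : ℝ) : ℂ) * rhsI d (A s) i k‖) :=
      (((hA t i k ht.1).sub (hA s i k hs.1)).sub ((hnl s hs.1 i k).const_mul _)).norm
    refine le_of_tendsto h1 ?_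
    filter_upwards [hevT T, hevk k] with n hnT hnk
    have hG : GSol (box (n : ℝ)) d T1 a0 (An n) := (hAn n).mono (by linarith)
    have hin : ∀ x ∈ Ico 0 T1, x ∈ Ico (0 : ℝ) (n + 1) := fun x hx =>
      ⟨hx.1, hx.2.trans_le (by linarith)⟩
    have hb1 : ∀ x ∈ Ico 0 T1, Dc (5 + K + 5 + K) C (An n x) := fun x hx =>
      hCp (5 + K + 5 + K) T1 n x (hin x hx) hx.2.le
    have hb2 : ∀ x ∈ Ico 0 T1, Dc (5 + K) (Cp (5 + K) T1) (An n x) := fun x hx =>
      hCp (5 + K) T1 n x (hin x hx) hx.2.le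
    have hsI : s ∈ Ico 0 T1 := ⟨hs.1, by linarith [hs.2]⟩
    have htI : t ∈ Ico 0 T1 := ⟨ht.1, by linarith [ht.2]⟩
    refine hG.quad hdb hb2 (fun s hs t ht => ?_) ?_ hsI htI i hnk
    · exact hG.lip hdb (p := 5 + K) hb1 hs ht
    · exact (rhs_bound (B := box (n : ℝ)) hdb (p := 5 + K) (hb1 s hsI)).nonneg

end Pool.Agent.R211.HV
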