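import Pool.Agent.R211.HV.Stat
import Pool.Agent.R211.SV.Loc3

/-!
The Galerkin systems.
-/

set_option autoImplicit false

open Set Filter Topology MeasureTheory
open scoped ComplexConjugate ENNReal NNReal ContDiff

namespace Pool.Agent.R211.HV

open Pool.Agent.Y302.Trunc (K3)
open Pool.Agent.Y302.Tri
open Pool.Agent.R211.WN
open Pool.Agent.R211.SV (Pj abs_Pj_le sum_Pj Pj_neg)

/-- Coefficients at the frequencies in a finite set. -/
abbrev XB (B : Finset K3) := ↥B → Fin 3 → ℂ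

/-- The extension by zero. -/
noncomputable def ext (B : Finset K3) (x : XB B) : Fin 3 → K3 → ℂ :=
  fun i k => if h : k ∈ B then x ⟨k, h⟩ i else 0

/-- The nonlinear term of a field supported in `B`. -/
noncomputable def nlB (B : Finset K3) (a : Fin 3 → K3 → ℂ) (k : K3) (i : Fin 3) : ℂ :=
  ∑ j, ∑ m, (Complex.I * (k m : ℂ) * (Pj k i j : ℂ)) * ∑ l ∈ B, a j l * a m (k - l)

/-- The energy. -/
noncomputable def en (B : Finset K3) (x : XB B) : ℝ :=
  ∑ k, ∑ i, ((x k i).re ^ 2 + (x k i).im ^ 2)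

/-- The cut-off. -/
noncomputable def chi (B : Finset K3) (R : ℝ) (x : XB B) : ℝ :=
  Real.smoothTransition (2 - en B x / R)

/-- The vector field with a cut-off. -/
noncomputable def FF (B : Finset K3) (d : K3 → ℝ) (R : ℝ) (x : XB B) : XB B := fun k i =>
  (chi B R x : ℂ) * (-(d k : ℂ) * x k i - nlB B (ext B x) k i)

section smooth

variable {B : Finset K3}

lemma ext_contDiff (i : Fin 3) (l : K3) : ContDiff ℝ ∞ (fun x : XB B => ext B x i l) := by
  unfold ext
  by_cases h : l ∈ B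
  · simp only [dif_pos h]
    fun_prop
  · simp only [dif_neg h]
    exact contDiff_const

lemma en_contDiff : ContDiff ℝ ∞ (en B) := by
  unfold en
  refine ContDiff.sum fun k _ => ContDiff.sum fun i _ => ?_
  have h : ContDiff ℝ ∞ (fun x : XB B => x k i) := by fun_prop
  exact ((Complex.reCLM.contDiff.comp h).pow 2).add ((Complex.imCLM.contDiff.comp h).pow 2)

lemma chi_contDiff (R : ℝ) : ContDiff ℝ ∞ (chi B R) := by
  unfold chi
  refine Real.smoothTransition.contDiff.comp ?_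
  exact contDiff_const.sub (en_contDiff.div_const R)

lemma nlB_contDiff (k : K3) (i : Fin 3) :
    ContDiff ℝ ∞ (fun x : XB B => nlB B (ext B x) k i) := by
  unfold nlB
  refine ContDiff.sum fun j _ => ContDiff.sum fun m _ => contDiff_const.mul ?_
  exact ContDiff.sum fun l _ => (ext_contDiff j l).mul (ext_contDiff m (k - l))

lemma FF_contDiff (d : K3 → ℝ) (R : ℝ) : ContDiff ℝ ∞ (FF B d R) := by
  refine contDiff_pi.2 fun k => contDiff_pi.2 fun i => ?_
  have h : ContDiff ℝ ∞ (fun x : XB B => x k i) := by fun_prop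
  refine (Complex.ofRealCLM.contDiff.comp (chi_contDiff R)).mul ?_
  exact (contDiff_const.mul h).sub (nlB_contDiff k i)

lemma norm_sq_le_en (x : XB B) : ‖x‖ ^ 2 ≤ en B x := by
  have hnn : ∀ k : ↥B, 0 ≤ ∑ i, ((x k i).re ^ 2 + (x k i).im ^ 2) := fun k =>
    Finset.sum_nonneg fun i _ => by positivity
  have h0 : 0 ≤ en B x := Finset.sum_nonneg fun k _ => hnn k
  have h1 : ‖x‖ ≤ Real.sqrt (en B x) := by
    rw [pi_norm_le_iff_of_nonneg (Real.sqrt_nonneg _)]
    intro k
    rw [pi_norm_le_iff_of_nonneg (Real.sqrt_nonneg _)]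
    intro i
    refine Real.le_sqrt_of_sq_le ?_
    have h2 : ‖x k i‖ ^ 2 = (x k i).re ^ 2 + (x k i).im ^ 2 := by
      rw [Complex.sq_norm, Complex.normSq_apply]
      ring
    rw [h2]
    refine (Finset.single_le_sum (f := fun i => (x k i).re ^ 2 + (x k i).im ^ 2)
      (fun i _ => by positivity) (Finset.mem_univ i)).trans ?_
    exact Finset.single_le_sum (f := fun k => ∑ i, ((x k i).re ^ 2 + (x k i).im ^ 2))
      (fun k _ => hnn k) (Finset.mem_univ k)
  calc ‖x‖ ^ 2 ≤ Real.sqrt (en B x) ^ 2 := by gcongr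
    _ = en B x := Real.sq_sqrt h0

lemma FF_support (d : K3 → ℝ) {R : ℝ} (hR : 0 < R) : HasCompactSupport (FF B d R) := by
  refine HasCompactSupport.intro (isCompact_closedBall 0 (Real.sqrt (2 * R))) fun x hx => ?_
  rw [mem_closedBall_zero_iff, not_le] at hx
  have h1 : 2 * R < en B x := by
    refine lt_of_lt_of_le ?_ (norm_sq_le_en x)
    have h2 : Real.sqrt (2 * R) ^ 2 = 2 * R := Real.sq_sqrt (by positivity)
    rw [← h2]
    gcongr
  have h3 : chi B R x = 0 := by
    unfold chi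
    refine Real.smoothTransition.zero_of_nonpos ?_
    have : 2 ≤ en B x / R := by
      rw [le_div_iff₀ hR]
      exact h1.le
    linarith
  funext k i
  unfold FF
  rw [h3]
  simp

lemma FF_lipschitz (d : K3 → ℝ) {R : ℝ} (hR : 0 < R) : ∃ K : ℝ≥0, LipschitzWith K (FF B d R) :=
  ContDiff.lipschitzWith_of_hasCompactSupport (FF_support d hR) (FF_contDiff d R) (by simp)

/-- Solutions of the truncated equation. -/
lemma exists_sol (d : K3 → ℝ) {R : ℝ} (hR : 0 < R) {T : ℝ} (hT : 0 ≤ T) (x0 : XB B) :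
    ∃ α : ℝ → XB B, α 0 = x0 ∧
      ∀ t ∈ Icc 0 T, HasDerivWithinAt α (FF B d R (α t)) (Icc 0 T) t := by
  obtain ⟨K, hK⟩ := FF_lipschitz (B := B) d hR
  obtain ⟨C, hC⟩ := (FF_support (B := B) d hR).exists_bound_of_continuous
    (FF_contDiff d R).continuous
  have hC0 : 0 ≤ C := (norm_nonneg _).trans (hC 0)
  have hp : IsPicardLindelof (fun _ : ℝ => FF B d R) (tmin := 0) (tmax := T) ⟨0, le_rfl, hT⟩ x0
      (⟨C, hC0⟩ * ⟨T, hT⟩) 0 ⟨C, hC0⟩ K := by
    refine IsPicardLindelof.of_time_independent (fun x _ => hC x) (hK.lipschitzOnWith) ?_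
    simp only [sub_zero, sub_self, NNReal.coe_zero]
    rw [max_eq_left hT]
    exact (NNReal.coe_mul ⟨C, hC0⟩ ⟨T, hT⟩).ge
  exact hp.exists_eq_forall_mem_Icc_hasDerivWithinAt₀

lemma right_deriv {E : Type*} [NormedAddCommGroup E] [NormedSpace ℝ E] {f : ℝ → E} {f' : E}
    {T t : ℝ} (h : HasDerivWithinAt f f' (Icc 0 T) t) (ht : t ∈ Ico 0 T) :
    HasDerivWithinAt f f' (Ici t) t :=
  h.mono_of_mem_nhdsWithin (Icc_mem_nhdsGE_of_mem ht)

end smooth

section flip

variable {B : Finset K3} (hB : ∀ k ∈ B, -k ∈ B)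

/-- The symmetry of real fields. -/
noncomputable def fl (x : XB B) : XB B := fun k i => conj (x ⟨-k.1, hB k.1 k.2⟩ i)

lemma ext_fl (x : XB B) (i : Fin 3) (l : K3) : ext B (fl hB x) i l = conj (ext B x i (-l)) := by
  unfold ext fl
  by_cases h : l ∈ B
  · rw [dif_pos h, dif_pos (hB l h)]
  · rw [dif_neg h, dif_neg, map_zero]
    intro h1
    exact h (by simpa using hB _ h1)

lemma en_fl (x : XB B) : en B (fl hB x) = en B x := by
  unfold en fl
  have hinv : Function.Involutive (fun k : ↥B => (⟨-k.1, hB k.1 k.2⟩ : ↥B)) := fun k => by simp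
  rw [← Equiv.sum_comp (Function.Involutive.toPerm _ hinv)
    fun k => ∑ i, ((x k i).re ^ 2 + (x k i).im ^ 2)]
  refine Finset.sum_congr rfl fun k _ => Finset.sum_congr rfl fun i _ => ?_
  simp only [Complex.conj_re, Complex.conj_im, neg_sq, Function.Involutive.coe_toPerm]

include hB in
lemma sum_neg (f : K3 → ℂ) : ∑ l ∈ B, f (-l) = ∑ l ∈ B, f l :=
  Finset.sum_nbij' (fun l => -l) (fun l => -l) hB hB (fun l _ => neg_neg l) (fun l _ => neg_neg l)
    fun _ _ => rfl

include hB in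
lemma nlB_conj (a : Fin 3 → K3 → ℂ) (k : K3) (i : Fin 3) :
    nlB B (fun j l => conj (a j (-l))) k i = conj (nlB B a (-k) i) := by
  unfold nlB
  simp only [map_sum, map_mul, Complex.conj_I, Complex.conj_ofReal, Pj_neg,
    Pi.neg_apply, Int.cast_neg, map_neg]
  refine Finset.sum_congr rfl fun j _ => Finset.sum_congr rfl fun m _ => ?_
  rw [← sum_neg hB fun l => conj (a j l) * conj (a m (-k - l))]
  have h : ∀ l, -k - -l = -(k - l) := fun l => by abel
  simp only [h]
  have h1 : conj ((k m : ℤ) : ℂ) = (k m : ℂ) := map_intCast _ _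
  rw [h1]
  generalize (∑ x ∈ B, conj (a j (-x)) * conj (a m (-(k - x)))) = S
  ring

lemma FF_fl (d : K3 → ℝ) (hde : ∀ k, d (-k) = d k) (R : ℝ) (x : XB B) :
    FF B d R (fl hB x) = fl hB (FF B d R x) := by
  funext k i
  have h1 : chi B R (fl hB x) = chi B R x := by
    unfold chi
    rw [en_fl]
  have h2 : nlB B (ext B (fl hB x)) k i = conj (nlB B (ext B x) (-k) i) := by
    rw [← nlB_conj hB]
    congr 1
    funext j l
    exact ext_fl hB x j l
  unfold FF
  rw [h1, h2]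
  unfold fl
  simp only [map_mul, map_sub, map_neg, Complex.conj_ofReal, hde]

/-- The solutions are real. -/
lemma sol_real {d : K3 → ℝ} (hde : ∀ k, d (-k) = d k) {R : ℝ} (hR : 0 < R) {T : ℝ}
    {α : ℝ → XB B} (h0 : fl hB (α 0) = α 0)
    (hα : ∀ t ∈ Icc 0 T, HasDerivWithinAt α (FF B d R (α t)) (Icc 0 T) t) :
    ∀ t ∈ Icc 0 T, fl hB (α t) = α t := by
  obtain ⟨K, hK⟩ := FF_lipschitz (B := B) d hR
  have hfl : ∀ t ∈ Icc 0 T, HasDerivWithinAt (fun s => fl hB (α s)) (FF B d R (fl hB (α t)))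
      (Icc 0 T) t := by
    intro t ht
    rw [FF_fl hB d hde]
    have h1 := hα t ht
    rw [hasDerivWithinAt_pi] at h1 ⊢
    intro k
    have h2 := h1 ⟨-k.1, hB k.1 k.2⟩
    rw [hasDerivWithinAt_pi] at h2 ⊢
    intro i
    have h3 := Complex.conjCLE.toContinuousLinearMap.hasFDerivAt.comp_hasDerivWithinAt t (h2 i)
    exact h3
  have hu := ODE_solution_unique (v := fun _ => FF B d R) (fun _ => hK) (a := 0) (b := T)
    (f := fun s => fl hB (α s)) (g := α) (fun t ht => (hfl t ht).continuousWithinAt)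
    (fun t ht => right_deriv (hfl t (Ico_subset_Icc_self ht)) ht)
    (fun t ht => (hα t ht).continuousWithinAt)
    (fun t ht => right_deriv (hα t (Ico_subset_Icc_self ht)) ht) h0
  exact fun t ht => hu ht

end flip

section div

variable {B : Finset K3}

lemma sum_nlB (a : Fin 3 → K3 → ℂ) (k : K3) : ∑ i, (k i : ℂ) * nlB B a k i = 0 := by
  by_cases hk : k = 0
  · subst hk
    simp
  have h1 : ∀ j, ∑ i, (k i : ℂ) * (Pj k i j : ℂ) = 0 := by
    intro j
    have h := sum_Pj k hk j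
    exact_mod_cast congrArg (fun x : ℝ => (x : ℂ)) h
  unfold nlB
  simp only [Finset.mul_sum]
  rw [Finset.sum_comm]
  refine Finset.sum_eq_zero fun j _ => ?_
  rw [Finset.sum_comm]
  refine Finset.sum_eq_zero fun m _ => ?_
  rw [Finset.sum_comm]
  refine Finset.sum_eq_zero fun l _ => ?_
  have h2 : ∀ i, (k i : ℂ) * (Complex.I * (k m : ℂ) * (Pj k i j : ℂ) * (a j l * a m (k - l)))
      = ((k i : ℂ) * (Pj k i j : ℂ)) * (Complex.I * (k m : ℂ) * (a j l * a m (k - l))) :=
    fun i => by ring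
  simp only [h2]
  rw [← Finset.sum_mul, h1, zero_mul]

lemma chi_nonneg (R : ℝ) (x : XB B) : 0 ≤ chi B R x := Real.smoothTransition.nonneg _

lemma chi_le_one (R : ℝ) (x : XB B) : chi B R x ≤ 1 := Real.smoothTransition.le_one _

/-- The solutions are divergence free. -/
lemma sol_div {d : K3 → ℝ} (hd0 : ∀ k, 0 ≤ d k) {R : ℝ} {T : ℝ}
    {α : ℝ → XB B} (h0 : ∀ k : ↥B, ∑ i, ((k : K3) i : ℂ) * α 0 k i = 0)
    (hα : ∀ t ∈ Icc 0 T, HasDerivWithinAt α (FF B d R (α t)) (Icc 0 T) t) (k : ↥B) :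
    ∀ t ∈ Icc 0 T, ∑ i, ((k : K3) i : ℂ) * α t k i = 0 := by
  have hD : ∀ t ∈ Icc 0 T, HasDerivWithinAt (fun s => ∑ i, ((k : K3) i : ℂ) * α s k i)
      (-((chi B R (α t) * d k : ℝ) : ℂ) * ∑ i, ((k : K3) i : ℂ) * α t k i) (Icc 0 T) t := by
    intro t ht
    have h1 := (hasDerivWithinAt_pi.1 ((hasDerivWithinAt_pi.1 (hα t ht)) k))
    have h2 : HasDerivWithinAt (fun s => ∑ i, ((k : K3) i : ℂ) * α s k i)
        (∑ i, ((k : K3) i : ℂ) * FF B d R (α t) k i) (Icc 0 T) t :=
      HasDerivWithinAt.fun_sum fun i _ => (h1 i).const_mul _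
    refine h2.congr_deriv ?_
    have h3 := sum_nlB (B := B) (ext B (α t)) k
    unfold FF
    have h4 : ∀ i, ((k : K3) i : ℂ) * ((chi B R (α t) : ℂ) * (-(d k : ℂ) * α t k i
          - nlB B (ext B (α t)) k i))
        = -((chi B R (α t) * d k : ℝ) : ℂ) * (((k : K3) i : ℂ) * α t k i)
          - (chi B R (α t) : ℂ) * (((k : K3) i : ℂ) * nlB B (ext B (α t)) k i) := by
      intro i
      push_cast
      ring
    simp only [h4]
    rw [Finset.sum_sub_distrib, ← Finset.mul_sum, ← Finset.mul_sum, h3, mul_zero, sub_zero]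
  refine eq_zero_of_abs_deriv_le_mul_abs_self_of_eq_zero_right (K := d k)
    (fun t ht => (hD t ht).continuousWithinAt)
    (fun t ht => right_deriv (hD t (Ico_subset_Icc_self ht)) ht) (h0 k) fun t ht => ?_
  rw [norm_mul, norm_neg, Complex.norm_real, Real.norm_eq_abs,
    abs_of_nonneg (mul_nonneg (chi_nonneg _ _) (hd0 k))]
  refine mul_le_mul_of_nonneg_right ?_ (norm_nonneg _)
  exact mul_le_of_le_one_left (hd0 k) (chi_le_one _ _)

end div

end Pool.Agent.R211.HV
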