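import Pool.Agent.R211.HV.Fam

/-!
The velocity and the pressure.
-/

set_option autoImplicit false

open Set Filter Topology MeasureTheory
open scoped ComplexConjugate ENNReal NNReal ContDiff

namespace Pool.Agent.R211.HV

open Pool.Agent.H708R2.EulerSign (V Periodic3 Dom divergence divergence_eq_sum contDiff_slice)
open Pool.Agent.H708R2.EulerModes
open Pool.Agent.Y302.Trunc (K3 resc ph_resc)
open Pool.Agent.Y302.Tri
open Pool.Agent.R211.WN
open Pool.Agent.R211.SV (Pj IsSol IsSmoothSol dt_shift cvt_eq)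
open Pool.Agent.H356R3.NS (SFam pw RD cvv SF SF_summable Ph Ph_apply dS)

/-- The real function with the Fourier coefficients `c`. -/
noncomputable def phi (c : SFam) (t : ℝ) (x : V) : ℝ := (SF c (t, (2 * Real.pi)⁻¹ • x)).re

lemma ee_eq_ex (k : K3) (y : V) : H459R3.NS.ee k y = Pool.Agent.H356R3.NS.ex k y := by
  unfold H459R3.NS.ee Pool.Agent.H356R3.NS.ex
  congr 1
  congr 1
  rw [H459R3.NS.ph]
  push_cast
  rfl

lemma two_pi_smul (y : V) : (2 * Real.pi)⁻¹ • ((2 * Real.pi) • y) = y := by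
  rw [smul_smul, inv_mul_cancel₀ (by positivity), one_smul]

lemma SF_eq_S (c : SFam) (t : ℝ) (y : V) : SF c (t, y) = H459R3.NS.S (fun k => c k t) y := by
  unfold SF H459R3.NS.S
  refine tsum_congr fun k => ?_
  rw [ee_eq_ex]

lemma rd_summable {c : SFam} (hc : RD c) (t : ℝ) : Summable fun k => c k t := by
  obtain ⟨b, hb, h⟩ := hc.summ
  exact Summable.of_norm_bounded hb fun k => h k t

lemma SF_conj {c : SFam} (hcs : ∀ k t, conj (c k t) = c (-k) t) (p : ℝ × V) :
    conj (SF c p) = SF c p := by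
  rcases p with ⟨t, y⟩
  rw [SF_eq_S]
  unfold H459R3.NS.S
  rw [Complex.conj_tsum, ← (Equiv.neg K3).tsum_eq]
  refine tsum_congr fun q => ?_
  simp only [Equiv.neg_apply]
  rw [map_mul, ← H459R3.NS.ee_neg, neg_neg, hcs, neg_neg]

lemma phi_ofReal {c : SFam} (hcs : ∀ k t, conj (c k t) = c (-k) t) (t : ℝ) (x : V) :
    (phi c t x : ℂ) = SF c (t, (2 * Real.pi)⁻¹ • x) :=
  Complex.conj_eq_iff_re.1 (SF_conj hcs _)

lemma cf_phi {c : SFam} (hc : RD c) (hcs : ∀ k t, conj (c k t) = c (-k) t) (t : ℝ) (k : K3) :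
    cf (phi c t) k = c k t := by
  have h1 : ∀ y, resc (phi c t) y = H459R3.NS.S (fun k => c k t) y := by
    intro y
    unfold resc
    rw [phi_ofReal hcs, two_pi_smul, SF_eq_S]
  unfold cf H459R3.NS.fc
  simp only [h1]
  have := H459R3.NS.integral_ee_S (-k) (rd_summable hc t)
  rw [neg_neg] at this
  exact this

lemma phi_periodic (c : SFam) (t : ℝ) : Periodic3 (phi c t) := by
  intro j x
  unfold phi
  congr 1
  unfold SF
  refine tsum_congr fun k => ?_
  congr 1
  simp only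
  have h1 : (2 * Real.pi)⁻¹ • (x + Pi.single j (2 * Real.pi))
      = (2 * Real.pi)⁻¹ • x + Pi.single j 1 := by
    rw [smul_add, ← Pi.single_smul, smul_eq_mul, inv_mul_cancel₀ (by positivity)]
  rw [h1]
  unfold Pool.Agent.H356R3.NS.ex
  rw [Complex.exp_eq_exp_iff_exists_int]
  refine ⟨k j, ?_⟩
  have h2 : ∑ i, (k i : ℂ) * ((((2 * Real.pi)⁻¹ • x + Pi.single j 1 : V) i : ℝ) : ℂ)
      = ∑ i, (k i : ℂ) * ((((2 * Real.pi)⁻¹ • x : V) i : ℝ) : ℂ) + (k j : ℂ) := by
    have h3 : ∀ i, (k i : ℂ) * ((((2 * Real.pi)⁻¹ • x + Pi.single j 1 : V) i : ℝ) : ℂ)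
        = (k i : ℂ) * ((((2 * Real.pi)⁻¹ • x : V) i : ℝ) : ℂ)
          + (if i = j then (k i : ℂ) else 0) := by
      intro i
      rw [Pi.add_apply, Pi.single_apply]
      split_ifs
      · push_cast
        ring
      · push_cast
        ring
    simp only [h3, Finset.sum_add_distrib, Finset.sum_ite_eq', Finset.mem_univ, if_true]
  rw [h2]
  ring

lemma phi_smooth {T : ℝ} (hT : 0 < T) {c : SFam} (h : ∀ n, TL T n c) :
    ContDiffOn ℝ ∞ (fun z : ℝ × V => phi c z.1 z.2) (Icc 0 T ×ˢ univ) := by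
  have hA : ContDiff ℝ ∞ fun z : ℝ × V => ((z.1, (2 * Real.pi)⁻¹ • z.2) : ℝ × V) :=
    contDiff_fst.prodMk (contDiff_snd.const_smul _)
  have h1 := (SF_contDiffOnL hT h).comp (s := Icc 0 T ×ˢ univ) hA.contDiffOn
    fun z hz => ⟨hz.1, mem_univ _⟩
  exact Complex.reCLM.contDiff.comp_contDiffOn h1

lemma phi_deriv {T : ℝ} (hT : 0 < T) {c c' : SFam} (h : TL T 1 c) (h' : TL T 0 c')
    (hd : ∀ k, ∀ t ∈ Ioo 0 T, HasDerivAt (c k) (c' k t) t) {t : ℝ} (x : V) :
    HasDerivWithinAt (fun s => phi c s x) (phi c' t x) (Icc 0 T) t := by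
  have h1 := SF_hasFDerivWithinAtL hT (n := 0) h hd h' (t, (2 * Real.pi)⁻¹ • x)
  have h2 : HasDerivWithinAt (fun s : ℝ => ((s, (2 * Real.pi)⁻¹ • x) : ℝ × V)) (1, 0)
      (Icc 0 T) t :=
    (hasDerivWithinAt_id t _).prodMk (hasDerivWithinAt_const t _ _)
  have hm : MapsTo (fun s : ℝ => ((s, (2 * Real.pi)⁻¹ • x) : ℝ × V)) (Icc 0 T) (Di T) :=
    fun s hs => ⟨hs, mem_univ _⟩
  have h3 := h1.comp_hasDerivWithinAt t h2 hm
  have h4 := Complex.reCLM.hasFDerivAt.comp_hasDerivWithinAt t h3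
  refine h4.congr_deriv ?_
  rw [Ph_apply]
  simp [phi]

section sol

variable {d : K3 → ℝ} {D : ℝ} {K : ℕ} {a0 : Fin 3 → K3 → ℂ} {A : ℝ → Fin 3 → K3 → ℂ} {T : ℝ}

/-- The real part of a Fourier series. -/
noncomputable def sr (c : K3 → ℂ) (x : V) : ℝ :=
  (∑' k, c k * Pool.Agent.H356R3.NS.ex k ((2 * Real.pi)⁻¹ • x)).re

/-- The coefficients of the pressure. -/
noncomputable def prc (a : Fin 3 → K3 → ℂ) (k : K3) : ℂ :=
  ∑ j, ∑ m, ((-((k j : ℝ) * (k m : ℝ) / ∑ l, (k l : ℝ) ^ 2) : ℝ) : ℂ) * ∑' l, a j l * a m (k - l)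

/-- The velocity. -/
noncomputable def vel (A : ℝ → Fin 3 → K3 → ℂ) (t : ℝ) (x : V) : V := fun i => sr (A t i) x

/-- The pressure. -/
noncomputable def prs (A : ℝ → Fin 3 → K3 → ℂ) (t : ℝ) (x : V) : ℝ := sr (prc (A t)) x

lemma vel_eq {t : ℝ} (ht : t ∈ Icc 0 T) (x : V) (i : Fin 3) :
    vel A t x i = phi (fam T A i) t x := by
  unfold vel phi sr SF fam
  simp only
  rw [cl_eq ht]

lemma prs_eq {t : ℝ} (ht : t ∈ Icc 0 T) (x : V) : prs A t x = phi (pfam (fam T A)) t x := by
  unfold prs phi sr SF pfam prc cvv fam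
  simp only
  rw [cl_eq ht]

variable (H : CSol d a0 A) (hdb : ∀ k, |d k| ≤ D * wt k ^ K) (hT : 0 < T)

include H hT

include hdb in
lemma vel_smooth : ContDiffOn ℝ ∞ (fun z : ℝ × V => vel A z.1 z.2) (Icc 0 T ×ˢ univ) :=
  contDiffOn_pi.2 fun i => (phi_smooth hT fun n => H.tt hT hdb n i).congr fun z hz =>
    vel_eq hz.1 z.2 i

include hdb in
lemma prs_smooth : ContDiffOn ℝ ∞ (fun z : ℝ × V => prs A z.1 z.2) (Icc 0 T ×ˢ univ) :=
  (phi_smooth hT fun n => H.tt_p hT hdb n).congr fun z hz => prs_eq hz.1 z.2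

lemma cv_vel {t : ℝ} (ht : t ∈ Icc 0 T) (i : Fin 3) (k : K3) : cv (vel A t) i k = A t i k := by
  have h1 : (fun x => vel A t x i) = phi (fam T A i) t := by
    funext x
    exact vel_eq ht x i
  have h2 : cv (vel A t) i k = cf (fun x => vel A t x i) k := rfl
  rw [h2, h1, cf_phi (H.rd hT i) (fun k t => H.fam_real hT i k t)]
  unfold fam
  rw [cl_eq ht]

include hdb in
lemma cf_prs {t : ℝ} (ht : t ∈ Icc 0 T) (k : K3) : cf (prs A t) k = pfam (fam T A) k t := by
  have h1 : prs A t = phi (pfam (fam T A)) t := by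
    funext x
    exact prs_eq ht x
  rw [h1, cf_phi (H.tt_p hT hdb 0).rd (fun k t => H.pfam_real hT k t)]

omit H hT in
lemma vel_periodic {t : ℝ} (ht : 0 ≤ t) : Periodic3 (vel A t) := by
  intro j x
  funext i
  have ht' : t ∈ Icc 0 t := ⟨ht, le_rfl⟩
  rw [vel_eq ht', vel_eq ht']
  exact phi_periodic _ t j x

omit H hT in
lemma prs_periodic {t : ℝ} (ht : 0 ≤ t) : Periodic3 (prs A t) := by
  intro j x
  have ht' : t ∈ Icc 0 t := ⟨ht, le_rfl⟩
  rw [prs_eq ht', prs_eq ht']
  exact phi_periodic _ t j x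

include hdb in
lemma vel_contDiff {t : ℝ} (ht : t ∈ Icc 0 T) : ContDiff ℝ 1 (vel A t) :=
  contDiff_slice ((vel_smooth H hdb hT).of_le (by exact_mod_cast le_top)) ht

include hdb in
lemma prs_contDiff {t : ℝ} (ht : t ∈ Icc 0 T) : ContDiff ℝ 1 (prs A t) :=
  contDiff_slice ((prs_smooth H hdb hT).of_le (by exact_mod_cast le_top)) ht

include hdb in
lemma vel_div {t : ℝ} (ht : t ∈ Icc 0 T) (x : V) : divergence (vel A t) x = 0 := by
  have hv : ContDiff ℝ 1 (vel A t) := vel_contDiff H hdb hT ht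
  have hp : Periodic3 (vel A t) := vel_periodic ht.1
  have hc : ∀ j, Continuous (fun x => fderiv ℝ (vel A t) x (Pi.single j 1) j) := fun j =>
    (continuous_apply j).comp ((hv.continuous_fderiv one_ne_zero).clm_apply continuous_const)
  have hcd : Continuous (fun x => divergence (vel A t) x) := by
    simp only [divergence_eq_sum]
    exact continuous_finsetSum _ fun j _ => hc j
  have hpd : Periodic3 (fun x => divergence (vel A t) x) := by
    intro j x
    simp only [divergence_eq_sum]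
    rw [hp.fderiv j x]
  refine eq_zero_of_cf hpd hcd (fun k => ?_) x
  simp only [divergence_eq_sum]
  have h8 : Continuous (fun x => fderiv ℝ (vel A t) x (Pi.single 0 1) 0
        + fderiv ℝ (vel A t) x (Pi.single 1 1) 1) := (hc 0).add (hc 1)
  have h9 : (fun x => ∑ i, fderiv ℝ (vel A t) x (Pi.single i 1) i)
      = fun x => (fderiv ℝ (vel A t) x (Pi.single 0 1) 0 + fderiv ℝ (vel A t) x (Pi.single 1 1) 1)
        + fderiv ℝ (vel A t) x (Pi.single 2 1) 2 := by
    funext x
    rw [Fin.sum_univ_three]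
  rw [h9, cf_add h8 (hc 2), cf_add (hc 0) (hc 1), cf_grad hv hp, cf_grad hv hp, cf_grad hv hp,
    cv_vel H hT ht, cv_vel H hT ht, cv_vel H hT ht]
  have h10 := H.div t ht.1 k
  unfold dt at h10
  rw [Fin.sum_univ_three] at h10
  linear_combination Complex.I * h10

include hdb in
lemma time_deriv {t : ℝ} (ht : t ∈ Ico 0 T) (i : Fin 3) (x : V) :
    derivWithin (fun s => vel A s x i) (Ico 0 T) t = phi (dfam d (fam T A) i) t x := by
  have h1 : HasDerivWithinAt (fun s => phi (fam T A i) s x) (phi (dfam d (fam T A) i) t x)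
      (Icc 0 T) t :=
    phi_deriv hT (H.tt hT hdb 1 i) (H.tt_d hT hdb 0 i) (fun k t ht => H.deriv i k ht) x
  have h2 : HasDerivWithinAt (fun s => vel A s x i) (phi (dfam d (fam T A) i) t x)
      (Icc 0 T) t := h1.congr (fun s hs => vel_eq hs x i) (vel_eq (Ico_subset_Icc_self ht) x i)
  exact (h2.mono Ico_subset_Icc_self).derivWithin ((uniqueDiffOn_Ico 0 T) t ht)

include hdb in
lemma cf_cvt {t : ℝ} (ht : t ∈ Icc 0 T) (i : Fin 3) (k : K3) :
    cf (cvt (vel A t) i) k
      = ∑ m, (Complex.I * (k m : ℂ)) * cvv (fam T A i) (fam T A m) k t := by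
  have hv : ContDiff ℝ 1 (vel A t) := vel_contDiff H hdb hT ht
  have hp : Periodic3 (vel A t) := vel_periodic ht.1
  have h1 := cvt_hasSum hv hp i k
  have hf : ∀ i k, cv (vel A t) i k = fam T A i k t := by
    intro i k
    rw [cv_vel H hT ht]
    unfold fam
    rw [cl_eq ht]
  have h2 : HasSum (fun q => (Complex.I * dt (cv (vel A t)) (k - q) q) * cv (vel A t) i q)
      (∑ m, (Complex.I * (k m : ℂ)) * cvv (fam T A i) (fam T A m) k t) := by
    have h3 : ∀ m, HasSum (fun q => (Complex.I * (k m : ℂ))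
        * (fam T A i q t * fam T A m (k - q) t))
        ((Complex.I * (k m : ℂ)) * cvv (fam T A i) (fam T A m) k t) := fun m =>
      (Pool.Agent.H356R3.NS.cvv_summ (H.rd hT i) (H.rd hT m) k t).hasSum.mul_left _
    refine (hasSum_sum (s := Finset.univ) fun m _ => h3 m).congr_fun fun q => ?_
    rw [dt_shift hv hp (vel_div H hdb hT ht)]
    unfold dt
    simp only [hf]
    rw [Finset.mul_sum, Finset.sum_mul]
    exact Finset.sum_congr rfl fun m _ => by ring
  exact h1.unique h2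

include hdb in
/-- The velocity and the pressure solve the equations. -/
theorem isSmoothSol (hde : ∀ k, d (-k) = d k) : IsSmoothSol d T (vel A) (prs A) := by
  have hsub : (Ico 0 T ×ˢ univ : Set (ℝ × V)) ⊆ Icc 0 T ×ˢ univ :=
    prod_mono Ico_subset_Icc_self subset_rfl
  have hu := (vel_smooth H hdb hT).mono hsub
  have hq := (prs_smooth H hdb hT).mono hsub
  refine ⟨⟨⟨hu.of_le (by exact_mod_cast le_top), hq.of_le (by exact_mod_cast le_top),
    fun t ht => vel_periodic ht.1, fun t ht => prs_periodic ht.1,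
    fun t ht x => vel_div H hdb hT (Ico_subset_Icc_self ht) x⟩, fun t ht k i => ?_⟩, hu, hq⟩
  have htI := Ico_subset_Icc_self ht
  have hv : ContDiff ℝ 1 (vel A t) := vel_contDiff H hdb hT htI
  have hp1 : ContDiff ℝ 1 (prs A t) := prs_contDiff H hdb hT htI
  have hpp : Periodic3 (prs A t) := prs_periodic ht.1
  have hc1 : Continuous (fun x => phi (dfam d (fam T A) i) t x) := by
    have h1 : ContDiffOn ℝ 1 (fun z : ℝ × V => phi (dfam d (fam T A) i) z.1 z.2)
        (Icc 0 T ×ˢ univ) :=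
      (phi_smooth hT (fun n => H.tt_d hT hdb n i)).of_le (by exact_mod_cast le_top)
    exact (contDiff_slice h1 htI).continuous
  have hc2 : Continuous (fun x => fderiv ℝ (prs A t) x (Pi.single i 1)) :=
    (hp1.continuous_fderiv one_ne_zero).clm_apply continuous_const
  have hc3 := cvt_continuous hv i
  have e1 : (fun x => lin (Ico 0 T) (vel A) (prs A) t i x + cvt (vel A t) i x)
      = fun x => (phi (dfam d (fam T A) i) t x
        + fderiv ℝ (prs A t) x (Pi.single i 1)) + cvt (vel A t) i x := by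
    funext x
    unfold lin
    rw [time_deriv H hdb hT ht i x]
  have hc12 : Continuous (fun x => phi (dfam d (fam T A) i) t x
        + fderiv ℝ (prs A t) x (Pi.single i 1)) := hc1.add hc2
  have hcf1 : cf (fun x => phi (dfam d (fam T A) i) t x) k = dfam d (fam T A) i k t :=
    cf_phi (H.tt_d hT hdb 0 i).rd (fun k t => H.dfam_real hT hde i k t) t k
  have hf : cv (vel A t) i k = fam T A i k t := by
    rw [cv_vel H hT htI]
    unfold fam
    rw [cl_eq htI]
  rw [e1, cf_add hc12 hc3, cf_add hc1 hc2, hcf1, cf_pd hpp hp1, cf_prs H hdb hT htI,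
    cf_cvt H hdb hT htI, hf]
  have e2 : ∑ j, ∑ m, (-(Complex.I * (k m : ℂ) * (Pj k i j : ℂ)))
        * cvv (fam T A j) (fam T A m) k t
      = -(∑ m, (Complex.I * (k m : ℂ)) * cvv (fam T A i) (fam T A m) k t)
        - Complex.I * (k i : ℂ) * pfam (fam T A) k t := by
    have e3 : ∀ j m, (-(Complex.I * (k m : ℂ) * (Pj k i j : ℂ)))
          * cvv (fam T A j) (fam T A m) k t
        = -(if i = j then (Complex.I * (k m : ℂ)) * cvv (fam T A j) (fam T A m) k t else 0)
          - Complex.I * (k i : ℂ)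
            * (((-((k j : ℝ) * (k m : ℝ) / ∑ l, (k l : ℝ) ^ 2) : ℝ) : ℂ)
              * cvv (fam T A j) (fam T A m) k t) := by
      intro j m
      unfold Pj
      split_ifs with h
      · subst h
        push_cast
        ring
      · push_cast
        ring
    simp only [e3, Finset.sum_sub_distrib, Finset.sum_neg_distrib]
    congr 1
    · congr 1
      rw [Finset.sum_comm]
      refine Finset.sum_congr rfl fun m _ => ?_
      rw [Finset.sum_ite_eq]
      simp
    · unfold pfam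
      rw [Finset.mul_sum]
      refine Finset.sum_congr rfl fun j _ => ?_
      rw [Finset.mul_sum]
  unfold dfam
  rw [e2]
  ring

end sol

end Pool.Agent.R211.HV
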