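import Mathlib

/-!
The growth of the weights of the Lyapunov functional.
-/

set_option autoImplicit false

open Set Filter Topology

namespace Pool.Agent.R211.HV

/-- The number `2^(5/2)`. -/
noncomputable def b : ℝ := Real.sqrt 32

lemma b_sq : b ^ 2 = 32 := Real.sq_sqrt (by norm_num)

lemma b_pos : 0 < b := Real.sqrt_pos.2 (by norm_num)

lemma b_gt : 5 < b := by
  unfold b
  rw [Real.lt_sqrt (by norm_num)]
  norm_num

lemma b_lt : b < 6 := by
  unfold b
  rw [Real.sqrt_lt' (by norm_num)]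
  norm_num

/-- The slowly growing sequence. -/
noncomputable def Q (κ : ℝ) (D : ℕ → ℝ) : ℕ → ℝ
  | 0 => 1
  | j + 1 => Q κ D j * (1 + κ * D j / b ^ j * Real.sqrt (Q κ D j))

section slow

variable {κ : ℝ} {D : ℕ → ℝ} (hκ : 0 ≤ κ) (hD : ∀ j, 0 ≤ D j)

include hκ hD

lemma Q_ge_one (j : ℕ) : 1 ≤ Q κ D j := by
  induction j with
  | zero => exact le_refl _
  | succ j ih =>
    have h1 : 0 ≤ κ * D j / b ^ j * Real.sqrt (Q κ D j) := by
      have := b_pos
      have := hD j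
      positivity
    show 1 ≤ Q κ D j * (1 + κ * D j / b ^ j * Real.sqrt (Q κ D j))
    nlinarith

omit hκ hD in
lemma inv_sqrt_le {q : ℝ} (h0 : 0 ≤ q) (h1 : q ≤ 1) : (Real.sqrt (1 + q))⁻¹ ≤ 1 - q / 4 := by
  have h2 : 0 < Real.sqrt (1 + q) := Real.sqrt_pos.2 (by linarith)
  rw [inv_le_iff_one_le_mul₀ h2]
  have h3 : 0 < 1 - q / 4 := by linarith
  have h4 : (1 : ℝ) ≤ (1 - q / 4) ^ 2 * (1 + q) := by nlinarith [mul_nonneg h0 (sub_nonneg.2 h1)]
  have h5 : (1 - q / 4) * Real.sqrt (1 + q) = Real.sqrt ((1 - q / 4) ^ 2 * (1 + q)) := by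
    rw [Real.sqrt_mul (sq_nonneg _), Real.sqrt_sq h3.le]
  rw [h5, Real.one_le_sqrt]
  exact h4

lemma Q_step {j : ℕ} (hq : κ * D j / b ^ j * Real.sqrt (Q κ D j) ≤ 1) :
    κ * D j / (4 * b ^ j) ≤ (Real.sqrt (Q κ D j))⁻¹ - (Real.sqrt (Q κ D (j + 1)))⁻¹ := by
  have hQ := Q_ge_one hκ hD j
  have h0 : 0 ≤ κ * D j / b ^ j * Real.sqrt (Q κ D j) := by
    have := b_pos
    have := hD j
    positivity
  have hs : 0 < Real.sqrt (Q κ D j) := Real.sqrt_pos.2 (by linarith)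
  have h1 : Real.sqrt (Q κ D (j + 1))
      = Real.sqrt (Q κ D j) * Real.sqrt (1 + κ * D j / b ^ j * Real.sqrt (Q κ D j)) := by
    show Real.sqrt (Q κ D j * (1 + κ * D j / b ^ j * Real.sqrt (Q κ D j))) = _
    exact Real.sqrt_mul (by linarith) _
  have h2 := inv_sqrt_le h0 hq
  rw [h1, mul_inv]
  have h3 : (Real.sqrt (Q κ D j))⁻¹ * (Real.sqrt (1 + κ * D j / b ^ j * Real.sqrt (Q κ D j)))⁻¹
      ≤ (Real.sqrt (Q κ D j))⁻¹ * (1 - κ * D j / b ^ j * Real.sqrt (Q κ D j) / 4) :=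
    mul_le_mul_of_nonneg_left h2 (by positivity)
  have h4 : (Real.sqrt (Q κ D j))⁻¹ * (1 - κ * D j / b ^ j * Real.sqrt (Q κ D j) / 4)
      = (Real.sqrt (Q κ D j))⁻¹ - κ * D j / (4 * b ^ j) := by
    have hb : b ^ j ≠ 0 := pow_ne_zero _ b_pos.ne'
    field_simp
  linarith

lemma sum_of_slow {n : ℕ} (hq : ∀ j < n, κ * D j / b ^ j * Real.sqrt (Q κ D j) ≤ 1) :
    ∑ j ∈ Finset.range n, κ * D j / (4 * b ^ j) ≤ 1 := by
  have h1 : ∀ m ≤ n, ∑ j ∈ Finset.range m, κ * D j / (4 * b ^ j)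
      ≤ (Real.sqrt (Q κ D 0))⁻¹ - (Real.sqrt (Q κ D m))⁻¹ := by
    intro m
    induction m with
    | zero => simp
    | succ m ih =>
      intro hm
      rw [Finset.sum_range_succ]
      have := Q_step hκ hD (hq m (by omega))
      have := ih (by omega)
      linarith
  have h2 : (Real.sqrt (Q κ D 0))⁻¹ = 1 := by
    show (Real.sqrt 1)⁻¹ = 1
    simp
  have h3 : 0 ≤ (Real.sqrt (Q κ D n))⁻¹ := by positivity
  have := h1 n le_rfl
  linarith

end slow

/-- Summation by parts. -/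
lemma sum_parts (L : ℕ → ℝ) (N : ℕ) : ∑ j ∈ Finset.range (N + 1), (L j - L (j - 1)) / b ^ j
    = (L N / b ^ N - L 0) + (1 - 1 / b) * ∑ j ∈ Finset.range N, L j / b ^ j := by
  have hb := b_pos
  induction N with
  | zero => simp
  | succ N ih =>
    rw [Finset.sum_range_succ, ih, Finset.sum_range_succ]
    have h : b ^ (N + 1) = b * b ^ N := by ring
    rw [h]
    simp only [Nat.add_sub_cancel]
    field_simp
    ring

/-- The weights. -/
theorem exists_P {s : ℕ} (hs : 3 ≤ s) {κ : ℝ} (hκ : 0 < κ) {L : ℕ → ℝ} (hL : Monotone L)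
    {n0 : ℕ} (hL0 : ∀ j ≤ n0, L j = 0) {N : ℕ}
    (hthr : 4 < κ * ∑ j ∈ Finset.range N, (L j - L (j - 1)) / b ^ j) :
    ∃ (P : ℕ → ℝ) (n1 : ℕ), n0 ≤ n1 ∧ (∀ j ≤ n0, P j = 1) ∧ (∀ j, P j ≤ P (j + 1)) ∧
      (∀ j, P (j + 1) ≤ 4 ^ s * P j) ∧ (∀ j < n1, P (j + 1) ≤ 2 * P j) ∧
      (∀ j < n1, P (j + 1) - P j ≤ κ * (L j - L (j - 1)) / b ^ j * (P j * Real.sqrt (P j))) ∧
      (∀ j, n1 ≤ j → P (j + 1) = 4 ^ s * P j) ∧ b ^ n1 < κ * L n1 * Real.sqrt (P n1) := by
  have hb := b_pos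
  set D : ℕ → ℝ := fun j => L j - L (j - 1) with hDd
  have hD0 : ∀ j, 0 ≤ D j := fun j => sub_nonneg.2 (hL (Nat.sub_le _ _))
  have hDz : ∀ j ≤ n0, D j = 0 := by
    intro j hj
    simp only [hDd]
    rw [hL0 j hj, hL0 (j - 1) (by omega), sub_zero]
  have hL0' : ∀ j, 0 ≤ L j := fun j => (hL0 0 (Nat.zero_le _)).ge.trans (hL (Nat.zero_le j))
  have hex : ∃ j, 1 < κ * D j / b ^ j * Real.sqrt (Q κ D j) := by
    by_contra hcon
    push Not at hcon
    have h1 := sum_of_slow hκ.le hD0 (n := N) fun j _ => hcon j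
    have h2 : ∑ j ∈ Finset.range N, κ * D j / (4 * b ^ j)
        = κ * (∑ j ∈ Finset.range N, (L j - L (j - 1)) / b ^ j) / 4 := by
      rw [Finset.mul_sum, Finset.sum_div]
      refine Finset.sum_congr rfl fun j _ => ?_
      simp only [hDd]
      field_simp
    rw [h2] at h1
    linarith
  classical
  set n1 := Nat.find hex with hn1
  have hlt : 1 < κ * D n1 / b ^ n1 * Real.sqrt (Q κ D n1) := Nat.find_spec hex
  have hmin : ∀ j < n1, κ * D j / b ^ j * Real.sqrt (Q κ D j) ≤ 1 := fun j hj =>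
    not_lt.1 (Nat.find_min hex hj)
  have hn01 : n0 ≤ n1 := by
    by_contra hcon
    have h1 : D n1 = 0 := hDz n1 (not_le.1 hcon).le
    rw [h1] at hlt
    norm_num at hlt
  have hQ1 := Q_ge_one hκ.le hD0
  have h4s : (2 : ℝ) ≤ 4 ^ s := by
    calc (2 : ℝ) ≤ 4 ^ 1 := by norm_num
      _ ≤ 4 ^ s := pow_le_pow_right₀ (by norm_num) (by omega)
  set P : ℕ → ℝ := fun j => if j ≤ n1 then Q κ D j else Q κ D n1 * (4 ^ s) ^ (j - n1) with hP
  have hPle : ∀ j ≤ n1, P j = Q κ D j := fun j hj => if_pos hj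
  have hPge : ∀ j, n1 ≤ j → P j = Q κ D n1 * (4 ^ s) ^ (j - n1) := by
    intro j hj
    rcases eq_or_lt_of_le hj with h | h
    · rw [hPle j h.symm.le, ← h]
      simp
    · exact if_neg (not_le.2 h)
  have hstep : ∀ j, n1 ≤ j → P (j + 1) = 4 ^ s * P j := by
    intro j hj
    rw [hPge j hj, hPge (j + 1) (by omega)]
    have : j + 1 - n1 = (j - n1) + 1 := by omega
    rw [this, pow_succ]
    ring
  have hP1 : ∀ j, 1 ≤ P j := by
    intro j
    by_cases hj : j ≤ n1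
    · rw [hPle j hj]
      exact hQ1 j
    · rw [hPge j (by omega)]
      have h1 : (1 : ℝ) ≤ (4 ^ s) ^ (j - n1) := one_le_pow₀ (by linarith)
      nlinarith [hQ1 n1]
  have hslow : ∀ j < n1, P (j + 1) = P j * (1 + κ * D j / b ^ j * Real.sqrt (P j)) := by
    intro j hj
    rw [hPle (j + 1) (by omega), hPle j hj.le]
    rfl
  have hq0 : ∀ j, 0 ≤ κ * D j / b ^ j * Real.sqrt (P j) := by
    intro j
    have := hD0 j
    positivity
  have h2 : ∀ j < n1, P (j + 1) ≤ 2 * P j := by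
    intro j hj
    rw [hslow j hj]
    have h3 := hmin j hj
    rw [← hPle j hj.le] at h3
    nlinarith [hP1 j]
  refine ⟨P, n1, hn01, ?_, ?_, ?_, h2, ?_, hstep, ?_⟩
  · intro j
    induction j with
    | zero =>
      intro _
      rw [hPle 0 (Nat.zero_le _)]
      rfl
    | succ j ih =>
      intro hj
      have hjn : j < n1 := by omega
      rw [hslow j hjn, ih (by omega)]
      rw [hDz j (by omega)]
      simp
  · intro j
    by_cases hj : j < n1
    · rw [hslow j hj]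
      nlinarith [hP1 j, hq0 j]
    · rw [hstep j (by omega)]
      nlinarith [hP1 j]
  · intro j
    by_cases hj : j < n1
    · have := h2 j hj
      nlinarith [hP1 j]
    · rw [hstep j (by omega)]
  · intro j hj
    rw [hslow j hj]
    have h3 : P j * (1 + κ * D j / b ^ j * Real.sqrt (P j)) - P j
        = κ * D j / b ^ j * (P j * Real.sqrt (P j)) := by ring
    rw [h3]
  · rw [hPle n1 le_rfl]
    have h3 : b ^ n1 * 1 < b ^ n1 * (κ * D n1 / b ^ n1 * Real.sqrt (Q κ D n1)) :=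
      mul_lt_mul_of_pos_left hlt (by positivity)
    have h4 : b ^ n1 * (κ * D n1 / b ^ n1 * Real.sqrt (Q κ D n1))
        = κ * D n1 * Real.sqrt (Q κ D n1) := by
      field_simp
    rw [mul_one, h4] at h3
    refine h3.trans_le ?_
    have h5 : D n1 ≤ L n1 := by
      simp only [hDd]
      linarith [hL0' (n1 - 1)]
    gcongr

end Pool.Agent.R211.HV
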