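import Pool.Agent.R211.HV.Flux

/-!
The weighted energy does not increase.
-/

set_option autoImplicit false

open Set Filter Topology MeasureTheory
open scoped ComplexConjugate ENNReal

namespace Pool.Agent.R211.HV

open Pool.Agent.Y302.Trunc (K3)
open Pool.Agent.Y302.Tri
open Pool.Agent.R211.WN

lemma flx_zero {a : Fin 3 → K3 → ℂ} (ha : Reg a) {k : K3} (hk : nv a k = 0) : flx a k = 0 := by
  have h := abs_flx_le ha k
  rw [hk, mul_zero, zero_mul] at h
  exact abs_eq_zero.1 (le_antisymm h (abs_nonneg _))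

lemma ps_le_PJ {P : ℕ → ℝ} (hP0 : P 0 = 1) (hPm : ∀ j, P j ≤ P (j + 1)) {J : ℕ} (k : K3) :
    ps P J k ≤ P J := by
  unfold ps
  have h1 : ∑ j ∈ Finset.range J, (P (j + 1) - P j) * ramp (2 ^ j) k
      ≤ ∑ j ∈ Finset.range J, (P (j + 1) - P j) :=
    Finset.sum_le_sum fun j _ => mul_le_of_le_one_right (c_nonneg hPm j) (ramp_le_one _ _)
  rw [sum_c hP0] at h1
  linarith

section PS

variable {s n0 n1 : ℕ} {κ : ℝ} {L P : ℕ → ℝ} (H : PS s n0 n1 κ L P)

include H

/-- The weighted energy does not increase, as long as it is bounded. -/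
theorem PS.rate (hs : 3 ≤ s) (hL : Monotone L) (hL0 : 0 ≤ L 0) {E : ℝ} (hE : 0 < E)
    (hκ : κ = 1 / (4000 * 16 ^ s) / Real.sqrt E) {d : K3 → ℝ} (hd0 : ∀ k, 0 ≤ d k)
    (hd : ∀ i k, 2 ^ i ≤ kn k → L (i + 1) ≤ d k) {J : ℕ} {a : Fin 3 → K3 → ℂ} (ha : Reg a)
    (hsb : SB J a) (hΨ : ∑' k, ps P J k * nv a k ^ 2 ≤ 4 * E) :
    ∑' k, ps P J k * (-2 * d k * nv a k ^ 2 + 2 * flx a k) ≤ 0 := by
  have hfl0 : ∀ k, nv a k = 0 → flx a k = 0 := fun k hk => flx_zero ha hk
  have hc := c_nonneg H.mono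
  -- the flux
  have hw : ∀ w : K3 → ℝ, Summable fun k => |w k| * nv a k := fun w =>
    hsb.summable fun k hk => by rw [hk, mul_zero]
  have hfx : ∀ w : K3 → ℝ, Summable fun k => w k * flx a k := fun w =>
    hsb.summable fun k hk => by rw [hfl0 k hk, mul_zero]
  have h1 : ∑' k, flx a k = 0 := by
    have h2 := tsum_w_flx ha (hw fun _ => 1)
    simp only [one_mul] at h2
    rw [← h2]
    exact tri_one ha
  have h3 : ∀ j : ℕ, ∑' k, ramp (2 ^ j) k * flx a k
      ≤ 6 * (strA a (2 ^ (j + 1)) * tailE a (2 ^ j / 2)) := by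
    intro j
    have h4 := tri_ramp ha (r := 2 ^ j) (by positivity)
    rw [tsum_w_flx ha (hw _)] at h4
    have h5 : (2 : ℝ) * 2 ^ j = 2 ^ (j + 1) := by ring
    rw [h5] at h4
    exact (le_abs_self _).trans h4
  have h6 : ∑' k, ps P J k * flx a k
      ≤ ∑ j ∈ Finset.range J, (P (j + 1) - P j)
        * (6 * (strA a (2 ^ (j + 1)) * tailE a (2 ^ j / 2))) := by
    have h7 : ∀ k, ps P J k * flx a k
        = flx a k + ∑ j ∈ Finset.range J, (P (j + 1) - P j) * (ramp (2 ^ j) k * flx a k) := by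
      intro k
      unfold ps
      rw [add_mul, one_mul, Finset.sum_mul]
      congr 1
      exact Finset.sum_congr rfl fun j _ => by ring
    have h8 : Summable fun k => flx a k := hsb.summable hfl0
    have h9 : ∀ j : ℕ, Summable fun k => (P (j + 1) - P j) * (ramp (2 ^ j) k * flx a k) :=
      fun j => (hfx _).mul_left _
    rw [tsum_congr h7, h8.tsum_add (summable_sum fun j _ => h9 j), h1, zero_add,
      Summable.tsum_finsetSum fun j _ => h9 j]
    refine Finset.sum_le_sum fun j _ => ?_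
    rw [tsum_mul_left]
    exact mul_le_mul_of_nonneg_left (h3 j) (hc j)
  -- comparison with the dissipation
  have h10 : ∑ j ∈ Finset.range J, (P (j + 1) - P j)
        * (6 * (strA a (2 ^ (j + 1)) * tailE a (2 ^ j / 2)))
      ≤ ∑' k, ps P J k * (d k * nv a k ^ 2) := by
    have h11 : ∀ j : ℕ, Summable fun k => if 2 ^ j / 2 ≤ kn k then nv a k ^ 2 else 0 := fun j =>
      hsb.summable fun k hk => by
        rw [hk]
        simp
    have h12 : ∀ j : ℕ, (P (j + 1) - P j) * (6 * (strA a (2 ^ (j + 1)) * tailE a (2 ^ j / 2)))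
        = ∑' k, (6 * ((P (j + 1) - P j) * strA a (2 ^ (j + 1))))
          * (if 2 ^ j / 2 ≤ kn k then nv a k ^ 2 else 0) := by
      intro j
      rw [tsum_mul_left]
      unfold tailE
      ring
    simp only [h12]
    rw [← Summable.tsum_finsetSum fun j _ => (h11 j).mul_left _]
    refine Summable.tsum_le_tsum (fun k => ?_) (summable_sum fun j _ => (h11 j).mul_left _)
      (hsb.summable fun k hk => by rw [hk]; simp)
    by_cases hk0 : k = 0
    · have h13 : ∀ j ∈ Finset.range J, (6 * ((P (j + 1) - P j) * strA a (2 ^ (j + 1))))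
          * (if 2 ^ j / 2 ≤ kn k then nv a k ^ 2 else 0) = 0 := by
        intro j _
        rw [if_neg, mul_zero]
        rw [hk0, kn_zero, not_le]
        positivity
      rw [Finset.sum_eq_zero h13]
      have h14 := ps_ge_one H.mono (J := J) k
      have := hd0 k
      positivity
    by_cases hnv : nv a k = 0
    · rw [hnv]
      simp
    have hkJ : kn k ≤ 2 ^ J := not_lt.1 fun h => hnv (hsb k h)
    obtain ⟨i, hi1, hi2⟩ := exists_shell hk0
    have hiJ : i ≤ J := by
      by_contra hcon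
      have h15 : (2 : ℝ) ^ J < 2 ^ i := pow_lt_pow_right₀ (by norm_num) (not_le.1 hcon)
      linarith
    have h16 := H.flux hs hL hL0 hE hκ ha hsb hΨ i
    have h17 : ∑ j ∈ Finset.range J, (6 * ((P (j + 1) - P j) * strA a (2 ^ (j + 1))))
          * (if 2 ^ j / 2 ≤ kn k then nv a k ^ 2 else 0)
        ≤ ∑ j ∈ Finset.range (i + 2), (6 * ((P (j + 1) - P j) * strA a (2 ^ (j + 1)))) * nv a k ^ 2 := by
      have h18 : ∑ j ∈ Finset.range J, (6 * ((P (j + 1) - P j) * strA a (2 ^ (j + 1))))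
            * (if 2 ^ j / 2 ≤ kn k then nv a k ^ 2 else 0)
          = ∑ j ∈ (Finset.range J).filter (fun j => (2 : ℝ) ^ j / 2 ≤ kn k),
            (6 * ((P (j + 1) - P j) * strA a (2 ^ (j + 1)))) * nv a k ^ 2 := by
        rw [Finset.sum_filter]
        refine Finset.sum_congr rfl fun j _ => ?_
        split_ifs <;> simp
      rw [h18]
      refine Finset.sum_le_sum_of_subset_of_nonneg ?_ fun j _ _ => ?_
      · intro j hj
        rw [Finset.mem_filter] at hj
        rw [Finset.mem_range]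
        by_contra hcon
        have h19 : (2 : ℝ) ^ (i + 2) ≤ 2 ^ j := pow_le_pow_right₀ (by norm_num) (not_lt.1 hcon)
        have h20 := hj.2
        rw [pow_succ] at h19
        linarith
      · have := hc j
        have := strA_nonneg a (2 ^ (j + 1))
        positivity
    refine h17.trans ?_
    rw [← Finset.sum_mul, ← Finset.mul_sum, ← mul_assoc]
    refine mul_le_mul_of_nonneg_right (h16.trans ?_) (sq_nonneg _)
    have h21 := ps_ge H.zero H.mono hiJ hi1
    have h22 : 0 ≤ L (i + 1) := hL0.trans (hL (Nat.zero_le _))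
    exact mul_le_mul h21 (hd i k hi1) h22 ((H.pos i).le.trans h21)
  have h23 : ∀ k, ps P J k * (-2 * d k * nv a k ^ 2 + 2 * flx a k)
      = -2 * (ps P J k * (d k * nv a k ^ 2)) + 2 * (ps P J k * flx a k) := fun k => by ring
  have h24 : Summable fun k => ps P J k * (d k * nv a k ^ 2) :=
    hsb.summable fun k hk => by rw [hk]; simp
  rw [tsum_congr h23, (h24.mul_left _).tsum_add ((hfx _).mul_left _), tsum_mul_left, tsum_mul_left]
  linarith

/-- The weight dominates a power. -/
lemma PS.pow_le (hs : 1 ≤ s) {J : ℕ} {k : K3} (hk : kn k ≤ 2 ^ J) :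
    kn k ^ (2 * s) ≤ 4 ^ (s * (n1 + 1)) * ps P J k := by
  have hps := ps_ge_one H.mono (J := J) k
  by_cases hk0 : k = 0
  · rw [hk0, kn_zero, zero_pow (by omega), ← hk0]
    positivity
  obtain ⟨i, hi1, hi2⟩ := exists_shell hk0
  have hiJ : i ≤ J := by
    by_contra hcon
    have h15 : (2 : ℝ) ^ J < 2 ^ i := pow_lt_pow_right₀ (by norm_num) (not_le.1 hcon)
    linarith
  have h1 : ∀ i : ℕ, (4 : ℝ) ^ (s * i) ≤ 4 ^ (s * n1) * P i := by
    intro i
    rcases le_total i n1 with h | h
    · have h2 : (4 : ℝ) ^ (s * i) ≤ 4 ^ (s * n1) :=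
        pow_le_pow_right₀ (by norm_num) (Nat.mul_le_mul_left s h)
      have h3 := H.one_le i
      have h4 : (0 : ℝ) < 4 ^ (s * n1) := by positivity
      nlinarith
    · induction i, h using Nat.le_induction with
      | base =>
        have h3 := H.one_le n1
        have h4 : (0 : ℝ) < 4 ^ (s * n1) := by positivity
        nlinarith
      | succ m hm ih =>
        rw [H.fast m hm]
        have h5 : (4 : ℝ) ^ (s * (m + 1)) = 4 ^ s * 4 ^ (s * m) := by
          rw [← pow_add]
          congr 1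
          ring
        rw [h5]
        calc (4 : ℝ) ^ s * 4 ^ (s * m) ≤ 4 ^ s * (4 ^ (s * n1) * P m) := by gcongr
          _ = 4 ^ (s * n1) * (4 ^ s * P m) := by ring
  calc kn k ^ (2 * s) ≤ (2 ^ (i + 1)) ^ (2 * s) := pow_le_pow_left₀ (kn_nonneg k) hi2.le _
    _ = 4 ^ s * 4 ^ (s * i) := by
        rw [← pow_mul, ← pow_add, show (4 : ℝ) = 2 ^ 2 by norm_num, ← pow_mul]
        congr 1
        ring
    _ ≤ 4 ^ s * (4 ^ (s * n1) * P i) := by
        have := h1 i
        gcongr
    _ ≤ 4 ^ s * (4 ^ (s * n1) * ps P J k) := by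
        have := ps_ge H.zero H.mono hiJ hi1
        gcongr
    _ = 4 ^ (s * (n1 + 1)) * ps P J k := by
        rw [← mul_assoc, ← pow_add]
        congr 2
        ring

/-- The weight is close to one at the low frequencies. -/
lemma PS.le_pow {J : ℕ} (k : K3) :
    ps P J k ≤ 1 + 4 ^ s * (kn k ^ (2 * s) / 4 ^ (s * n0)) := by
  have hpos : 0 ≤ 4 ^ s * (kn k ^ (2 * s) / (4 : ℝ) ^ (s * n0)) := by
    have := kn_nonneg k
    positivity
  by_cases hk0 : k = 0
  · have h1 : ps P J k = 1 := by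
      unfold ps
      rw [Finset.sum_eq_zero, add_zero]
      intro j _
      rw [ramp_zero (by positivity) (by rw [hk0, kn_zero]; positivity), mul_zero]
    linarith
  obtain ⟨i, hi1, hi2⟩ := exists_shell hk0
  have h2 := ps_le H.zero H.mono (J := J) hi2
  by_cases hi : i + 1 ≤ n0
  · have := H.one (i + 1) hi
    linarith
  · have h3 : ∀ m : ℕ, n0 ≤ m → P m * 4 ^ (s * n0) ≤ 4 ^ (s * m) := by
      intro m hm
      induction m, hm using Nat.le_induction with
      | base => rw [H.one n0 le_rfl, one_mul]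
      | succ m hm ih =>
        have h4 := H.le m
        have h5 : (4 : ℝ) ^ (s * (m + 1)) = 4 ^ s * 4 ^ (s * m) := by
          rw [← pow_add]
          congr 1
          ring
        rw [h5]
        calc P (m + 1) * 4 ^ (s * n0) ≤ (4 ^ s * P m) * 4 ^ (s * n0) := by gcongr
          _ = 4 ^ s * (P m * 4 ^ (s * n0)) := by ring
          _ ≤ _ := by gcongr
    have h6 := h3 (i + 1) (by omega)
    have h7 : P (i + 1) ≤ 4 ^ (s * (i + 1)) / 4 ^ (s * n0) := by
      rw [le_div_iff₀ (by positivity)]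
      exact h6
    have h8 : (4 : ℝ) ^ (s * (i + 1)) = 4 ^ s * (2 ^ i) ^ (2 * s) := by
      rw [← pow_mul, show (4 : ℝ) = 2 ^ 2 by norm_num, ← pow_mul, ← pow_mul, ← pow_add]
      congr 1
      ring
    have h9 : (2 ^ i : ℝ) ^ (2 * s) ≤ kn k ^ (2 * s) := pow_le_pow_left₀ (by positivity) hi1 _
    rw [h8] at h7
    have h10 : 4 ^ s * (2 ^ i : ℝ) ^ (2 * s) / 4 ^ (s * n0)
        ≤ 4 ^ s * (kn k ^ (2 * s) / 4 ^ (s * n0)) := by
      rw [mul_div_assoc]
      gcongr
    linarith

end PS

end Pool.Agent.R211.HV
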